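import Pool.Agent.V8H66.LR.Rel

/-!
# The reference permutation representation of a finitely generated virtually free group
-/

set_option autoImplicit false
set_option linter.unusedSectionVars false
set_option linter.unusedVariables false

namespace Pool.Agent.V8H66.LR

open Set Pointwise

variable {H Q : Type} [Group H] [Group Q]

/-- permutations commuting with the given ones -/
def Cen {X : Type} (α : H →* Equiv.Perm X) : Subgroup (Equiv.Perm X) where
  carrier := {f | ∀ (h : H) (x : X), f (α h x) = α h (f x)}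
  mul_mem' := by
    intro a b ha hb h x
    show a (b (α h x)) = α h (a (b x))
    rw [hb, ha]
  one_mem' := fun h x => rfl
  inv_mem' := by
    intro a ha h x
    show a⁻¹ (α h x) = α h (a⁻¹ x)
    rw [Equiv.Perm.inv_eq_iff_eq, ha]
    congr 1
    exact (a.apply_symm_apply x).symm

theorem Cen.comm {X : Type} {α : H →* Equiv.Perm X} (f : Cen α) (h : H) (x : X) :
    (f : Equiv.Perm X) (α h x) = α h ((f : Equiv.Perm X) x) := f.2 h x

/-- the set acted upon -/
structure XX (π : H →* Q) (Y : Type) where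
  /-- tree coordinate -/
  y : Y
  /-- group coordinate -/
  q : Q

/-- the two commuting actions -/
instance xact (π : H →* Q) (Y : Type) [MulAction H Y] : MulAction (H × Q) (XX π Y) where
  smul p z := ⟨p.1 • z.y, p.2 * z.q * (π p.1)⁻¹⟩
  one_smul z := by
    show (⟨(1 : H) • z.y, 1 * z.q * (π 1)⁻¹⟩ : XX π Y) = z
    rw [one_smul, map_one, inv_one, mul_one, one_mul]
  mul_smul a b z := by
    show (⟨(a.1 * b.1) • z.y, a.2 * b.2 * z.q * (π (a.1 * b.1))⁻¹⟩ : XX π Y) =
      ⟨a.1 • b.1 • z.y, a.2 * (b.2 * z.q * (π b.1)⁻¹) * (π a.1)⁻¹⟩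
    rw [mul_smul, map_mul]
    congr 1
    group

theorem xsmul (π : H →* Q) (Y : Type) [MulAction H Y] (h : H) (q : Q) (z : XX π Y) :
    (h, q) • z = ⟨h • z.y, q * z.q * (π h)⁻¹⟩ := rfl

theorem XX.ext' {π : H →* Q} {Y : Type} {a b : XX π Y} (h1 : a.y = b.y) (h2 : a.q = b.q) :
    a = b := by
  cases a; cases b; simp only at h1 h2; rw [h1, h2]

theorem XX.eq_iff {π : H →* Q} {Y : Type} {a b : XX π Y} : a = b ↔ a.y = b.y ∧ a.q = b.q :=
  ⟨fun h => by rw [h]; exact ⟨rfl, rfl⟩, fun h => XX.ext' h.1 h.2⟩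

/-- vertices and midpoints of the tree -/
def Ysub {V : Type} [MulAction H V] {E : Set (Set V)}
    (hG : ∀ (g : H), ∀ c ∈ E, g • c ∈ E) : SubMulAction H (Set (Set V)) where
  carrier := {y | Ori E y ∨ ∃ c ∈ E, y = {c, cᶜ}}
  smul_mem' := by
    rintro g y (hy | ⟨c, hc, rfl⟩)
    · exact Or.inl (hy.smul hG g)
    · right
      refine ⟨g • c, hG g c hc, ?_⟩
      rw [← Set.smul_set_compl, ← Set.image_smul, Set.image_pair]

theorem pair_smul {V : Type} [MulAction H V] (g : H) (c : Set V) :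
    g • ({c, cᶜ} : Set (Set V)) = {g • c, (g • c)ᶜ} := by
  rw [← Set.smul_set_compl, ← Set.image_smul, Set.image_pair]

/-- existence of a retraction-like representation -/
theorem base (κ ι : Type) [Finite κ] [Finite Q] (φ : FreeGroup ι →* H)
    (hφ : Function.Injective φ) (π : H →* Q) (hker : ∀ h, π h = 1 ↔ ∃ y, h = φ y)
    (σ : κ → H) (hσ : Subgroup.closure (Set.range σ) = ⊤) :
    ∃ (X : Type) (α : H →* Equiv.Perm X) (ψ0 : Q →* Cen α) (x0 : X) (ψ : H →* Cen α)
      (S : Set X), S.Finite ∧ (∀ x, ∃ h : H, α h x ∈ S) ∧ (∀ h : H, α h x0 = x0 → h = 1) ∧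
      (∀ h : H, (ψ h : Equiv.Perm X) x0 = α h⁻¹ x0) ∧
      (∀ C : Subgroup H, Finite C → ∃ γ : Cen α, ∀ c ∈ C, ψ c = γ * ψ0 (π c) * γ⁻¹) := by
  classical
  -- coset representatives
  obtain ⟨R, hR, hRc⟩ : ∃ R : Set H, R.Finite ∧ ∀ g, ∃ y, ∃ ρ ∈ R, g = φ y * ρ := by
    let s : Q → H := fun q => if h : ∃ g, π g = q then h.choose else 1
    refine ⟨Set.range s, Set.finite_range s, fun g => ?_⟩
    have hs : π (s (π g)) = π g := by
      have h : ∃ g', π g' = π g := ⟨g, rfl⟩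
      have e : s (π g) = h.choose := dif_pos h
      rw [e]; exact h.choose_spec
    obtain ⟨y, hy⟩ := (hker (g * (s (π g))⁻¹)).1 (by rw [map_mul, map_inv, hs, mul_inv_cancel])
    exact ⟨y, _, ⟨π g, rfl⟩, by rw [← hy]; group⟩
  obtain ⟨x, r, hx, hr, hd', hrfin, hx1, -⟩ := exists_xr φ hφ R hR hRc Set.univ (mem_univ 1)
    (fun g => ⟨1, g, mem_univ g, by rw [map_one, one_mul]⟩)
  have h : CGH φ (∅ : Set ι) (⊥ : Subgroup H) x r σ := by
    refine ⟨hx, hr, hd', hrfin, ?_, hx1, ?_⟩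
    · intro g m hm
      rw [Subgroup.mem_bot] at hm
      rw [hm, mul_one]
      have h1 : r g = φ (x g)⁻¹ * g := by
        rw [map_inv, eq_inv_mul_iff_mul_eq]
        exact (hd' g).symm
      have h2 : r (r g) = r g := by
        conv_lhs => rw [h1]
        exact hr _ _
      have h3 := hd' (r g)
      rw [h2] at h3
      have h4 : φ (x (r g)) = 1 := mul_eq_right.1 h3.symm
      have h5 : x (r g) = 1 := by
        apply hφ
        rw [h4, map_one]
      rw [h5]
      exact one_mem _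
    · rw [eq_top_iff, ← hσ]
      exact Subgroup.closure_mono (subset_union_right)
  set E := EE (⊥ : Subgroup H) x σ with hEdef
  have hE : Nest E := h.nest
  have hG : ∀ (g : H), ∀ c ∈ E, g • c ∈ E := fun g c hc => EE_smul g c hc
  have P1 : ∀ w, Ori E w → ∀ g : H, g • w = w → π g = 1 → g = 1 := by
    intro w hw g hg hπ
    obtain ⟨y, rfl⟩ := (hker g).1 hπ
    rw [h.no_fix hφ hw hg, map_one]
  have P2 : ∀ c ∈ E, ∀ g : H, g • ({c, cᶜ} : Set (Set (H ⧸ (⊥ : Subgroup H)))) = {c, cᶜ} →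
      π g = 1 → g = 1 := by
    intro c hc g hg hπ
    obtain ⟨y, rfl⟩ := (hker g).1 hπ
    have h1 : φ y • c ∈ ({c, cᶜ} : Set (Set (H ⧸ (⊥ : Subgroup H)))) := by
      rw [← hg]
      exact smul_mem_smul_set (Or.inl rfl)
    rw [h.no_inv hφ hc h1, map_one]
  let Y := ↥(Ysub hG)
  let X := XX π Y
  let β : H × Q →* Equiv.Perm X := MulAction.toPermHom (H × Q) X
  let α : H →* Equiv.Perm X := β.comp (MonoidHom.inl H Q)
  have hβ : ∀ g q (z : X), β (g, q) z = ⟨g • z.y, q * z.q * (π g)⁻¹⟩ := fun g q z => rfl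
  have hα : ∀ g (z : X), α g z = ⟨g • z.y, 1 * z.q * (π g)⁻¹⟩ := fun g z => rfl
  let ψ0 : Q →* Cen α := (β.comp (MonoidHom.inr H Q)).codRestrict (Cen α) (by
    intro q g z
    show β (1, q) (β (g, 1) z) = β (g, 1) (β (1, q) z)
    rw [← Equiv.Perm.mul_apply, ← Equiv.Perm.mul_apply, ← map_mul, ← map_mul]
    simp)
  have hψ0 : ∀ q, (ψ0 q : Equiv.Perm X) = β (1, q) := fun q => rfl
  have hαψ : ∀ g q (z : X), α g ((ψ0 q : Equiv.Perm X) z) = β (g, q) z := by
    intro g q z
    show β (g, 1) (β (1, q) z) = β (g, q) z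
    rw [← Equiv.Perm.mul_apply, ← map_mul]
    simp
  let v0 : H ⧸ (⊥ : Subgroup H) := QuotientGroup.mk 1
  let x0 : X := ⟨⟨Ov E v0, Or.inl (hE.ori_Ov v0)⟩, 1⟩
  let s : Set (Set (H ⧸ (⊥ : Subgroup H))) → X := fun w =>
    if hw : Ori E w then ⟨⟨w, Or.inl hw⟩, 1⟩ else x0
  let sm : Set (H ⧸ (⊥ : Subgroup H)) → X := fun c =>
    if hc : c ∈ E then ⟨⟨{c, cᶜ}, Or.inr ⟨c, hc, rfl⟩⟩, 1⟩ else x0
  have hs : ∀ w (hw : Ori E w), s w = ⟨⟨w, Or.inl hw⟩, 1⟩ := fun w hw => dif_pos hw
  have hsm : ∀ c (hc : c ∈ E), sm c = ⟨⟨{c, cᶜ}, Or.inr ⟨c, hc, rfl⟩⟩, 1⟩ :=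
    fun c hc => dif_pos hc
  have hsg : ∀ (g : H) w, Ori E w → s (g • w) = β (g, π g) (s w) := by
    intro g w hw
    rw [hs _ (hw.smul hG g), hs w hw, hβ]
    apply XX.ext'
    · rfl
    · show 1 = π g * 1 * (π g)⁻¹
      group
  have hsmg : ∀ (g : H), ∀ c ∈ E, sm (g • c) = β (g, π g) (sm c) := by
    intro g c hc
    rw [hsm _ (hG g c hc), hsm c hc, hβ]
    apply XX.ext'
    · apply Subtype.ext
      exact (pair_smul g c).symm
    · show 1 = π g * 1 * (π g)⁻¹
      group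
  have hsmc : ∀ c ∈ E, sm cᶜ = sm c := by
    intro c hc
    rw [hsm _ (hE.compl c hc), hsm c hc]
    apply XX.ext'
    · apply Subtype.ext
      show ({cᶜ, cᶜᶜ} : Set (Set (H ⧸ (⊥ : Subgroup H)))) = {c, cᶜ}
      rw [compl_compl, Set.pair_comm]
    · rfl
  obtain ⟨y, hy⟩ := equi_section (G := H) (Z := Set (H ⧸ (⊥ : Subgroup H))) (X := Cen α)
    (fun g c γ => ψ0 (π g) * γ * (ψ0 (π g))⁻¹) (by
      intro g k c γ
      simp only [map_mul]
      group) E hG (fun c γ => (γ : Equiv.Perm X) (s (hd E c)) = sm c) (by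
      intro g c hc γ hγ
      show (ψ0 (π g) : Equiv.Perm X) ((γ : Equiv.Perm X)
        ((((ψ0 (π g))⁻¹ : Cen α) : Equiv.Perm X) (s (hd E (g • c))))) = sm (g • c)
      rw [← smul_hd hG, hsg g _ (hE.ori_hd hc), ← hαψ]
      have e1 : (((ψ0 (π g))⁻¹ : Cen α) : Equiv.Perm X)
          (α g ((ψ0 (π g) : Equiv.Perm X) (s (hd E c)))) = α g (s (hd E c)) := by
        rw [Cen.comm]
        congr 1
        exact (ψ0 (π g) : Equiv.Perm X).symm_apply_apply _
      rw [e1, Cen.comm, hγ, Cen.comm, hαψ, hsmg g c hc]) (by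
      intro c hc
      obtain ⟨y, hy1, hy2⟩ := swap_orbits (W := H × Q) (X := X)
        ((⊤ : Subgroup H).prod ((MulAction.stabilizer H c).map π)) (s (hd E c)) (sm c) (by
          rintro ⟨g, q⟩ hgq
          rw [Subgroup.mem_prod] at hgq
          obtain ⟨-, c', hc', hq⟩ := hgq
          simp only at hq
          have hc'c : c' • c = c := hc'
          rw [hs _ (hE.ori_hd hc), hsm c hc, XX.eq_iff, XX.eq_iff]
          have hqq : q * 1 * (π g)⁻¹ = 1 ↔ π c' = π g := by rw [mul_one, mul_inv_eq_one, ← hq]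
          show (_ ∧ q * 1 * (π g)⁻¹ = 1) ↔ (_ ∧ q * 1 * (π g)⁻¹ = 1)
          rw [hqq]
          have key : ∀ w : Set (Set (H ⧸ (⊥ : Subgroup H))), c' • w = w →
              (∀ k : H, k • w = w → π k = 1 → k = 1) → g • w = w → π c' = π g → g = c' := by
            intro w h1 h2 h3 h4
            have := h2 (g⁻¹ * c') (by rw [mul_smul, h1, inv_smul_eq_iff, h3])
              (by rw [map_mul, map_inv, h4, inv_mul_cancel])
            rw [inv_mul_eq_one] at this
            exact this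
          have k1 : c' • hd E c = hd E c := by rw [smul_hd hG, hc'c]
          have k2 : c' • ({c, cᶜ} : Set (Set (H ⧸ (⊥ : Subgroup H)))) = {c, cᶜ} := by
            rw [pair_smul, hc'c]
          constructor
          · rintro ⟨h1, h2⟩
            have h1' : g • hd E c = hd E c := congrArg Subtype.val h1
            have := key _ k1 (P1 _ (hE.ori_hd hc)) h1' h2
            refine ⟨?_, h2⟩
            rw [this]
            exact Subtype.ext k2
          · rintro ⟨h1, h2⟩
            have h1' : g • ({c, cᶜ} : Set (Set (H ⧸ (⊥ : Subgroup H)))) = {c, cᶜ} :=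
              congrArg Subtype.val h1
            have := key _ k2 (P2 c hc) h1' h2
            refine ⟨?_, h2⟩
            rw [this]
            exact Subtype.ext k1) (by
          rintro ⟨g, q⟩ _ h'
          rw [hs _ (hE.ori_hd hc), hsm c hc, XX.eq_iff] at h'
          have h1 : g • hd E c = ({c, cᶜ} : Set (Set (H ⧸ (⊥ : Subgroup H)))) :=
            congrArg Subtype.val h'.1
          have h2 : Ori E ({c, cᶜ} : Set (Set (H ⧸ (⊥ : Subgroup H)))) := by
            rw [← h1]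
            exact (hE.ori_hd hc).smul hG g
          exact (h2.excl c hc).1 (Or.inl rfl) (Or.inr rfl))
      have hyc : y ∈ Cen α := by
        intro g z
        exact hy2 (g, 1) (by
          rw [Subgroup.mem_prod]
          exact ⟨trivial, one_mem _⟩) z
      refine ⟨⟨y, hyc⟩, hy1, fun g hg => ?_⟩
      rw [mul_inv_eq_iff_eq_mul]
      apply Subtype.ext
      apply Equiv.ext
      intro z
      show β (1, π g) (y z) = y (β (1, π g) z)
      exact (hy2 (1, π g) (by
          rw [Subgroup.mem_prod]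
          exact ⟨trivial, g, hg, rfl⟩) z).symm)
  obtain ⟨ψ, f, hf1, hf2, hf3, hf4⟩ := cocycle_hom hE hG v0 (ψ0.comp π)
    (fun g _ => ψ0 (π g)) (by intro g k w; simp only [map_mul]) y (fun c hc g => (hy c hc).2 g)
  have hconst : ∀ w, Ori E w → (f w : Equiv.Perm X) (s w) = x0 := by
    intro w hw
    have := tree2 hE v0 (fun w => (f w : Equiv.Perm X) (s w)) (by
      intro c hc
      have h1 := hf3 c hc
      have key : ∀ c ∈ E, (f (hd E c) : Equiv.Perm X) (s (hd E c)) =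
          ((f (hd E c) * (y c)⁻¹ : Cen α) : Equiv.Perm X) (sm c) := by
        intro c hc
        rw [← (hy c hc).1]
        show _ = (f (hd E c) : Equiv.Perm X) ((((y c)⁻¹ : Cen α) : Equiv.Perm X)
          ((y c : Equiv.Perm X) (s (hd E c))))
        congr 1
        exact ((y c : Equiv.Perm X).symm_apply_apply _).symm
      rw [key c hc, key _ (hE.compl c hc), h1, hsmc c hc]) w hw
    rw [this, hf1, hs _ (hE.ori_Ov v0)]
    rfl
  obtain ⟨C0, hC0, hC0'⟩ := h.orbits
  let T : Set (Set (Set (H ⧸ (⊥ : Subgroup H)))) :=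
    {Ov E v0} ∪ (hd E '' C0 ∪ (fun c => {c, cᶜ}) '' C0)
  have hT : T.Finite := (Set.finite_singleton _).union ((hC0.image _).union (hC0.image _))
  refine ⟨X, α, ψ0, x0, ψ, {z : X | (z.y : Set (Set (H ⧸ (⊥ : Subgroup H)))) ∈ T},
    ?_, ?_, ?_, ?_, ?_⟩
  · have hinj : Function.Injective
        (fun z : X => ((z.y : Set (Set (H ⧸ (⊥ : Subgroup H)))), z.q)) := by
      intro z z' hzz
      simp only [Prod.mk.injEq] at hzz
      exact XX.ext' (Subtype.ext hzz.1) hzz.2
    have hfin : (T ×ˢ (Set.univ : Set Q)).Finite := hT.prod Set.finite_univ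
    refine (hfin.preimage hinj.injOn).subset ?_
    intro z hz
    exact ⟨hz, trivial⟩
  · intro z
    obtain ⟨⟨w, hw⟩, q⟩ := z
    have key : ∃ g : H, g • w ∈ T := by
      rcases hw with hw | ⟨c, hc, rfl⟩
      · rcases hw.cases hE v0 with h1 | ⟨c, hc, h1, -⟩
        · exact ⟨1, by rw [one_smul, h1]; exact Or.inl rfl⟩
        · obtain ⟨g, hg⟩ := hC0' c hc
          refine ⟨g, ?_⟩
          rw [h1, smul_hd hG]
          exact Or.inr (Or.inl ⟨_, hg, rfl⟩)
      · obtain ⟨g, hg⟩ := hC0' c hc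
        refine ⟨g, ?_⟩
        rw [pair_smul]
        exact Or.inr (Or.inr ⟨_, hg, rfl⟩)
    obtain ⟨g, hg⟩ := key
    exact ⟨g, hg⟩
  · intro g hg
    rw [hα] at hg
    have h1 := congrArg (fun z : X => (z.y : Set (Set (H ⧸ (⊥ : Subgroup H))))) hg
    change g • Ov E v0 = Ov E v0 at h1
    have h2 : 1 * 1 * (π g)⁻¹ = 1 := congrArg (fun z : X => z.q) hg
    apply P1 _ (hE.ori_Ov v0) g h1
    simpa using h2
  · intro g
    have h1 := hf2 g _ (hE.ori_Ov v0)
    rw [hf1, mul_one, eq_mul_inv_iff_mul_eq] at h1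
    rw [← h1]
    show (f (g • Ov E v0) : Equiv.Perm X) ((ψ0 (π g) : Equiv.Perm X) x0) = _
    have h2 : s (Ov E v0) = x0 := by rw [hs _ (hE.ori_Ov v0)]
    have h3 : (ψ0 (π g) : Equiv.Perm X) x0 = α g⁻¹ (s (g • Ov E v0)) := by
      rw [hsg g _ (hE.ori_Ov v0), h2, ← hαψ, map_inv]
      exact ((α g).symm_apply_apply _).symm
    rw [h3, Cen.comm, hconst _ ((hE.ori_Ov v0).smul hG g)]
  · intro C hC
    rcases tree3 hE hG v0 C hC with ⟨w, hw, hCw⟩ | ⟨c, hc, hCc⟩
    · refine ⟨f w, fun g hg => ?_⟩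
      have := hf2 g w hw
      rw [hCw g hg, eq_mul_inv_iff_mul_eq] at this
      rw [this]
      group
    · refine ⟨f (hd E c) * (y c)⁻¹, fun g hg => ?_⟩
      have h1 := hf4 c hc g
      have h2 : f (hd E (g • c)) * (y (g • c))⁻¹ = f (hd E c) * (y c)⁻¹ := by
        rcases hCc g hg with h' | h'
        · rw [h']
        · rw [h', hf3 c hc]
      rw [h2, eq_mul_inv_iff_mul_eq] at h1
      show _ = f (hd E c) * (y c)⁻¹ * (ψ0.comp π g) * _
      rw [h1]
      group

end Pool.Agent.V8H66.LR
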