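import Pool.Agent.V8H66.LR.Zorn
import Pool.Agent.V8H66.LR.Base

/-!
# Virtual retracts of virtually free groups
-/

set_option autoImplicit false
set_option linter.unusedSectionVars false
set_option linter.unusedVariables false

namespace Pool.Agent.V8H66.LR

open Set Pointwise

variable {G : Type} [Group G]

theorem finiteIndex_of_cover {D : Subgroup G} {R : Set G} (hR : R.Finite)
    (h : ∀ g, ∃ ρ ∈ R, g * ρ⁻¹ ∈ D) : D.FiniteIndex := by
  have : Finite ↥R := hR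
  have hsurj : Function.Surjective (fun ρ : ↥R => (QuotientGroup.mk (ρ : G)⁻¹ : G ⧸ D)) := by
    intro q
    obtain ⟨g, rfl⟩ := QuotientGroup.mk_surjective q
    obtain ⟨ρ, hρ, h1⟩ := h g⁻¹
    refine ⟨⟨ρ, hρ⟩, ?_⟩
    show (QuotientGroup.mk ρ⁻¹ : G ⧸ D) = QuotientGroup.mk g
    rw [eq_comm, QuotientGroup.eq]
    exact h1
  have : Finite (G ⧸ D) := Finite.of_surjective _ hsurj
  exact Subgroup.finiteIndex_of_finite_quotient

theorem cover_of_finiteIndex (D : Subgroup G) [D.FiniteIndex] :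
    ∃ R : Set G, R.Finite ∧ ∀ g, ∃ ρ ∈ R, g * ρ⁻¹ ∈ D := by
  refine ⟨Set.range (fun q : G ⧸ D => (Quotient.out q)⁻¹), Set.finite_range _, fun g => ?_⟩
  refine ⟨_, ⟨(QuotientGroup.mk g⁻¹ : G ⧸ D), rfl⟩, ?_⟩
  have h1 : (QuotientGroup.mk (Quotient.out (QuotientGroup.mk g⁻¹ : G ⧸ D)) : G ⧸ D) =
      QuotientGroup.mk g⁻¹ := Quotient.out_eq _
  rw [eq_comm, QuotientGroup.eq] at h1
  rw [inv_inv]
  rwa [inv_inv] at h1

/-- the main theorem in normalized form -/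
theorem core {S SA : Set G} {F H A : Subgroup G} [F.Normal] (hfin : Finite (G ⧸ F))
    (hS : Bas S F) (hSA : SA ⊆ S) (hA : Bas SA A) (hAH : A ≤ H) (hHF : H ⊓ F ≤ A)
    (hFG : H.FG) (hG : F ⊔ H = ⊤) :
    ∃ K : Subgroup G, K.FiniteIndex ∧ H ≤ K ∧ ∃ ρ : K →* G, (∀ k : K, ρ k ∈ H) ∧
      ∀ h : G, ∀ hk : h ∈ K, h ∈ H → ρ ⟨h, hk⟩ = h := by
  classical
  have hAF : A ≤ F := by rw [← hA.1, ← hS.1]; exact Subgroup.closure_mono hSA
  have hF : InvH H F := fun h _ e he => Subgroup.Normal.conj_mem inferInstance e he h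
  let Q := G ⧸ F
  let π : ↥H →* Q := (QuotientGroup.mk' F).comp H.subtype
  have hπ : ∀ h : ↥H, π h = 1 ↔ (h : G) ∈ F := by
    intro h
    show (QuotientGroup.mk (h : G) : G ⧸ F) = 1 ↔ _
    rw [QuotientGroup.eq_one_iff]
  obtain ⟨φ, hφ1, -, hφ3, hφ4⟩ := hA.lift hAH
  have hker : ∀ h : ↥H, π h = 1 ↔ ∃ y, h = φ y := by
    intro h
    rw [hπ]
    constructor
    · intro h1
      obtain ⟨y, hy⟩ := hφ4 (h : G) (hHF ⟨h.2, h1⟩)
      exact ⟨y, Subtype.ext hy.symm⟩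
    · rintro ⟨y, rfl⟩
      exact hAF (hφ3 y)
  obtain ⟨κS, hκ, hκf⟩ := Group.fg_iff.1 ((Group.fg_iff_subgroup_fg H).2 hFG)
  have : Finite ↥κS := hκf
  obtain ⟨X, α, ψ0, x0, ψ, SX, hSX, hSXc, hfree, hψ, hI⟩ := base (H := ↥H) (Q := Q) ↥κS ↥SA φ hφ1
    π hker (Subtype.val : ↥κS → ↥H) (by rw [Subtype.range_coe]; exact hκ)
  -- representatives
  obtain ⟨R, hR, hRH, hRc⟩ : ∃ R : Set G, R.Finite ∧ (∀ ρ ∈ R, ρ ∈ H) ∧
      ∀ h ∈ H, ∃ a ∈ A, ∃ ρ ∈ R, h = a * ρ := by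
    let s : Q → ↥H := fun q => if h : ∃ g, π g = q then h.choose else 1
    refine ⟨Set.range (fun q => (s q : G)), Set.finite_range _, ?_, ?_⟩
    · rintro _ ⟨q, rfl⟩
      exact (s q).2
    · intro h hh
      have hs : π (s (π ⟨h, hh⟩)) = π ⟨h, hh⟩ := by
        have h' : ∃ g', π g' = π ⟨h, hh⟩ := ⟨_, rfl⟩
        have e : s (π ⟨h, hh⟩) = h'.choose := dif_pos h'
        rw [e]; exact h'.choose_spec
      have h1 : π (⟨h, hh⟩ * (s (π ⟨h, hh⟩))⁻¹) = 1 := by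
        rw [map_mul, map_inv, hs, mul_inv_cancel]
      rw [hπ] at h1
      refine ⟨h * (s (π ⟨h, hh⟩) : G)⁻¹, hHF ⟨H.mul_mem hh (H.inv_mem (s _).2), h1⟩,
        (s (π ⟨h, hh⟩) : G), ⟨π ⟨h, hh⟩, rfl⟩, ?_⟩
      group
  let ψH : G → Cen α := fun g => if hg : g ∈ H then ψ ⟨g, hg⟩ else 1
  have hψH : ∀ g (hg : g ∈ H), ψH g = ψ ⟨g, hg⟩ := fun g hg => dif_pos hg
  obtain ⟨Ψ, hΨ1, hΨ2⟩ := ext hS hSA hA hAH hHF hF hR hRH hRc (ψ0.comp (QuotientGroup.mk' F)) ψH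
    (by
      intro a ha b hb
      rw [hψH a ha, hψH b hb, hψH _ (H.mul_mem ha hb), ← map_mul]
      rfl) (by
      intro C hC hCH
      have hCf : Finite ↥(C.subgroupOf H) := by
        have : ((C.subgroupOf H : Subgroup ↥H) : Set ↥H).Finite :=
          ((Set.toFinite (C : Set G)).preimage (f := fun g : ↥H => (g : G))
            Subtype.val_injective.injOn).subset (fun g hg => Subgroup.mem_subgroupOf.1 hg)
        exact this
      obtain ⟨γ, hγ⟩ := hI (C.subgroupOf H) hCf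
      refine ⟨γ, fun c hc => ?_⟩
      rw [hψH c (hCH hc)]
      exact hγ ⟨c, hCH hc⟩ (Subgroup.mem_subgroupOf.2 hc))
  rw [hG] at hΨ1
  have hmul : ∀ a b x, (Ψ (a * b) : Equiv.Perm X) x =
      (Ψ a : Equiv.Perm X) ((Ψ b : Equiv.Perm X) x) := by
    intro a b x
    rw [hΨ1 a trivial b trivial]
    rfl
  have hone : ∀ x, (Ψ 1 : Equiv.Perm X) x = x := by
    intro x
    rw [hΨ1.one]
    rfl
  have hαmul : ∀ a b x, α (a * b) x = α a (α b x) := by
    intro a b x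
    rw [map_mul]; rfl
  have hαinv : ∀ a x, α a⁻¹ (α a x) = x := by
    intro a x
    rw [← hαmul, inv_mul_cancel, map_one]; rfl
  have huniq : ∀ h h' : ↥H, α h x0 = α h' x0 → h = h' := by
    intro h h' hh
    have h1 : α (h'⁻¹ * h) x0 = x0 := by rw [hαmul, hh, hαinv]
    have := hfree _ h1
    rw [inv_mul_eq_one] at this
    exact this.symm
  let K : Subgroup G :=
    { carrier := {g | ∃ h : ↥H, (Ψ g : Equiv.Perm X) x0 = α h x0}
      mul_mem' := by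
        rintro a b ⟨ha, ha'⟩ ⟨hb, hb'⟩
        refine ⟨hb * ha, ?_⟩
        rw [hmul, hb', Cen.comm, ha', hαmul]
      one_mem' := ⟨1, by rw [hone, map_one]; rfl⟩
      inv_mem' := by
        rintro a ⟨h, hh⟩
        refine ⟨h⁻¹, ?_⟩
        have h1 : (Ψ a⁻¹ : Equiv.Perm X) ((Ψ a : Equiv.Perm X) x0) = x0 := by
          rw [← hmul, inv_mul_cancel, hone]
        rw [hh, Cen.comm] at h1
        rw [← h1, hαinv, h1] }
  have hKmem : ∀ g, g ∈ K ↔ ∃ h : ↥H, (Ψ g : Equiv.Perm X) x0 = α h x0 := fun g => Iff.rfl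
  have hHK : ∀ h (hh : h ∈ H), (Ψ h : Equiv.Perm X) x0 = α (⟨h, hh⟩ : ↥H)⁻¹ x0 := by
    intro h hh
    rw [hΨ2 h hh, hψH h hh, hψ]
  refine ⟨K, ?_, fun h hh => ⟨_, hHK h hh⟩, ?_⟩
  · choose hx hxS using hSXc
    let c : G → ↥SX := fun g => ⟨α (hx ((Ψ g : Equiv.Perm X) x0)) ((Ψ g : Equiv.Perm X) x0), hxS _⟩
    have hc : ∀ g g', c g = c g' → g'⁻¹ * g ∈ K := by
      intro g g' h
      have h1 := congrArg Subtype.val h
      simp only [c] at h1
      set u := hx ((Ψ g : Equiv.Perm X) x0)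
      set v := hx ((Ψ g' : Equiv.Perm X) x0)
      refine ⟨u⁻¹ * v, ?_⟩
      have h2 : (Ψ g : Equiv.Perm X) x0 = α (u⁻¹ * v) ((Ψ g' : Equiv.Perm X) x0) := by
        rw [hαmul, ← h1, hαinv]
      rw [hmul, h2, Cen.comm, ← hmul, inv_mul_cancel, hone]
    have hinj : Function.Injective (fun q : G ⧸ K => c (Quotient.out q)) := by
      intro q q' hqq
      have h1 := hc _ _ hqq
      rw [← QuotientGroup.eq] at h1
      have e1 : (QuotientGroup.mk (Quotient.out q') : G ⧸ K) = q' := Quotient.out_eq _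
      have e2 : (QuotientGroup.mk (Quotient.out q) : G ⧸ K) = q := Quotient.out_eq _
      rw [e1, e2] at h1
      exact h1.symm
    have : Finite ↥SX := hSX
    have : Finite (G ⧸ K) := Finite.of_injective _ hinj
    exact Subgroup.finiteIndex_of_finite_quotient
  · choose! η hη using fun g (hg : g ∈ K) => hg
    let ρ : ↥K →* G := MonoidHom.mk' (fun k => ((η (k : G))⁻¹ : ↥H)) (by
      intro a b
      have h1 : η ((a * b : ↥K) : G) = η (b : G) * η (a : G) := by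
        apply huniq
        rw [← hη _ (a * b).2, Subgroup.coe_mul, hmul, hη _ b.2, Cen.comm, hη _ a.2, hαmul]
      simp only [h1]
      rw [mul_inv_rev]
      rfl)
    refine ⟨ρ, fun k => ((η (k : G))⁻¹ : ↥H).2, fun h hk hh => ?_⟩
    have h1 : η h = (⟨h, hh⟩ : ↥H)⁻¹ := by
      apply huniq
      rw [← hη h hk, hHK h hh]
    show (((η h)⁻¹ : ↥H) : G) = h
    rw [h1, inv_inv]

theorem bas_of_free (F : Subgroup G) [IsFreeGroup ↥F] : ∃ S, Bas S F := by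
  classical
  let e := IsFreeGroup.mulEquiv ↥F
  let f : FreeGroup (IsFreeGroup.Generators ↥F) →* G := F.subtype.comp e.toMonoidHom
  have hf : ∀ y, f y = ((e y : ↥F) : G) := fun y => rfl
  refine ⟨f '' Set.range FreeGroup.of, ?_, ?_⟩
  · rw [← MonoidHom.map_closure, FreeGroup.closure_range_of, ← MonoidHom.range_eq_map]
    ext g
    constructor
    · rintro ⟨y, rfl⟩
      exact (e y).2
    · intro hg
      exact ⟨e.symm ⟨g, hg⟩, by rw [hf, e.apply_symm_apply]⟩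
  · intro Γ _ f0
    let χ : FreeGroup (IsFreeGroup.Generators ↥F) →* Γ :=
      FreeGroup.lift (fun i => f0 (f (FreeGroup.of i)))
    refine ⟨fun g => if hg : g ∈ F then χ (e.symm ⟨g, hg⟩) else 1, ?_, ?_⟩
    · intro a ha b hb
      simp only
      rw [dif_pos ha, dif_pos hb, dif_pos (F.mul_mem ha hb), ← map_mul, ← map_mul]
      rfl
    · rintro _ ⟨_, ⟨i, rfl⟩, rfl⟩
      have h1 : f (FreeGroup.of i) ∈ F := (e _).2
      simp only
      rw [dif_pos h1]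
      have h2 : e.symm ⟨f (FreeGroup.of i), h1⟩ = FreeGroup.of i := by
        rw [MulEquiv.symm_apply_eq]
        rfl
      rw [h2]
      simp [χ]

theorem Bas.subgroupOf {S : Set G} {K L : Subgroup G} (h : Bas S K) (hKL : K ≤ L) :
    Bas {x : ↥L | (x : G) ∈ S} (K.subgroupOf L) := by
  classical
  refine ⟨?_, ?_⟩
  · apply le_antisymm
    · rw [Subgroup.closure_le]
      intro x hx
      exact Subgroup.mem_subgroupOf.2 (h.sub _ hx)
    · have key : ∀ g ∈ Subgroup.closure S, ∀ hg : g ∈ L,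
          (⟨g, hg⟩ : ↥L) ∈ Subgroup.closure {x : ↥L | (x : G) ∈ S} := by
        intro g hg
        induction hg using Subgroup.closure_induction with
        | mem x hx => intro hxL; exact Subgroup.subset_closure hx
        | one => intro _; exact one_mem _
        | mul x y hx hy hx' hy' =>
          rw [h.1] at hx hy
          intro _
          exact mul_mem (hx' (hKL hx)) (hy' (hKL hy))
        | inv x hx hx' =>
          rw [h.1] at hx
          intro _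
          exact inv_mem (hx' (hKL hx))
      intro x hx
      have hx' := Subgroup.mem_subgroupOf.1 hx
      rw [← h.1] at hx'
      exact key _ hx' x.2
  · intro Γ _ f
    obtain ⟨φ, h1, h2⟩ := h.2 Γ (fun g => if hg : g ∈ L then f ⟨g, hg⟩ else 1)
    refine ⟨fun x => φ (x : G), ?_, ?_⟩
    · intro a ha b hb
      exact h1 _ (Subgroup.mem_subgroupOf.1 ha) _ (Subgroup.mem_subgroupOf.1 hb)
    · intro s hs
      simp only
      rw [h2 _ hs, dif_pos s.2]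

/-- the main theorem -/
theorem main (hG : ∃ F : Subgroup G, F.FiniteIndex ∧ IsFreeGroup F) (H : Subgroup G) (hH : H.FG) :
    ∃ K : Subgroup G, K.FiniteIndex ∧ H ≤ K ∧ ∃ ρ : K →* G, (∀ k : K, ρ k ∈ H) ∧
      ∀ h : G, ∀ hk : h ∈ K, h ∈ H → ρ ⟨h, hk⟩ = h := by
  classical
  obtain ⟨F0, hF0, hF0'⟩ := hG
  obtain ⟨S0, hS0⟩ := bas_of_free F0
  obtain ⟨F, hFn, hFfi, hFF0⟩ : ∃ F : Subgroup G, F.Normal ∧ F.FiniteIndex ∧ F ≤ F0 :=
    ⟨F0.normalCore, inferInstance, inferInstance, Subgroup.normalCore_le F0⟩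
  obtain ⟨S, hS⟩ : ∃ S, Bas S F := by
    obtain ⟨P, -, hP⟩ := exists_trans hS0.1 hFF0 (P0 := {1}) rfl
      (by rintro _ rfl; exact F0.one_mem) (connT_one S0) (by rintro _ rfl _ rfl _; rfl)
    exact ⟨_, schreier hS0 hFF0 hP⟩
  have hHFG : Group.FG ↥H := (Group.fg_iff_subgroup_fg H).2 hH
  have hAfg : (H ⊓ F).FG := by
    have h1 : Group.FG ↥(F.subgroupOf H) := Subgroup.fg_of_index_ne_zero _
    have h2 : (F.subgroupOf H).FG := (Group.fg_iff_subgroup_fg _).1 h1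
    have h3 := Subgroup.subgroupOf_map_subtype F H
    rw [inf_comm, ← h3]
    obtain ⟨X, hX⟩ := h2
    refine ⟨X.image H.subtype, ?_⟩
    rw [Finset.coe_image, ← MonoidHom.map_closure, hX]
  obtain ⟨F1, hF1F, hAF1, R1, hR1, hR1c⟩ := marshall_hall hS (inf_le_right : H ⊓ F ≤ F) hAfg
  -- finite cover of `G` by cosets of `F1`
  obtain ⟨RF, hRF, hRFc⟩ := cover_of_finiteIndex F
  have hF1cov : ∀ g, ∃ ρ ∈ R1 * RF, g * ρ⁻¹ ∈ F1 := by
    intro g
    obtain ⟨ρ, hρ, h1⟩ := hRFc g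
    obtain ⟨ρ', hρ', h2⟩ := hR1c _ h1
    refine ⟨ρ' * ρ, Set.mul_mem_mul hρ' hρ, ?_⟩
    have : g * (ρ' * ρ)⁻¹ = g * ρ⁻¹ * ρ'⁻¹ := by group
    rw [this]; exact h2
  have hcovf : (R1 * RF).Finite := hR1.mul hRF
  -- representatives of `A` in `H`
  obtain ⟨R, hR, hRH, hR1mem, hRc⟩ : ∃ R : Set G, R.Finite ∧ (∀ ρ ∈ R, ρ ∈ H) ∧ (1 : G) ∈ R ∧
      ∀ h ∈ H, ∃ a ∈ H ⊓ F, ∃ ρ ∈ R, h = ρ * a := by
    obtain ⟨R', hR', hR'c⟩ := cover_of_finiteIndex (F.subgroupOf H)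
    refine ⟨insert 1 ((fun x : ↥H => ((x : G))⁻¹) '' R'), (hR'.image _).insert 1, ?_,
      mem_insert _ _, ?_⟩
    · rintro ρ (rfl | ⟨x, -, rfl⟩)
      · exact H.one_mem
      · exact H.inv_mem x.2
    · intro h hh
      obtain ⟨ρ, hρ, h1⟩ := hR'c (⟨h, hh⟩ : ↥H)⁻¹
      rw [Subgroup.mem_subgroupOf] at h1
      have h2 : h⁻¹ * (ρ : G)⁻¹ ∈ F := h1
      refine ⟨(h⁻¹ * (ρ : G)⁻¹)⁻¹, ⟨H.inv_mem (H.mul_mem (H.inv_mem hh) (H.inv_mem ρ.2)),
        F.inv_mem h2⟩, (ρ : G)⁻¹, mem_insert_of_mem _ ⟨ρ, hρ, rfl⟩, ?_⟩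
      group
  have hfinR : Finite ↥R := hR
  let F2 : Subgroup G := ⨅ ρ : ↥R, F1.map (MulAut.conj (ρ : G)).toMonoidHom
  have hF2mem : ∀ g, g ∈ F2 ↔ ∀ ρ ∈ R, ρ⁻¹ * g * ρ ∈ F1 := by
    intro g
    simp only [F2, Subgroup.mem_iInf, mem_map_conj, Subtype.forall]
  have hF2fi : F2.FiniteIndex := by
    apply Subgroup.finiteIndex_iInf
    rintro ⟨ρ, hρ⟩
    refine finiteIndex_of_cover (R := (fun x => ρ * x * ρ⁻¹) '' (R1 * RF)) (hcovf.image _) ?_
    intro g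
    obtain ⟨σ, hσ, h1⟩ := hF1cov (ρ⁻¹ * g * ρ)
    refine ⟨_, ⟨σ, hσ, rfl⟩, ?_⟩
    rw [mem_map_conj]
    have : ρ⁻¹ * (g * (ρ * σ * ρ⁻¹)⁻¹) * ρ = ρ⁻¹ * g * ρ * σ⁻¹ := by group
    rw [this]; exact h1
  have hF2F1 : F2 ≤ F1 := by
    intro g hg
    have := (hF2mem g).1 hg 1 hR1mem
    simpa using this
  have hAinv : InvH H (H ⊓ F) := by
    rintro h hh a ⟨ha, ha'⟩
    exact ⟨H.mul_mem (H.mul_mem hh ha) (H.inv_mem hh), hFn.conj_mem a ha' h⟩
  have hAF2 : H ⊓ F ≤ F2 := by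
    intro a ha
    rw [hF2mem]
    intro ρ hρ
    have := hAinv ρ⁻¹ (H.inv_mem (hRH ρ hρ)) a ha
    rw [inv_inv] at this
    exact hAF1.le this
  have hF2inv : InvH H F2 := by
    intro h hh e he
    rw [hF2mem] at *
    intro ρ hρ
    obtain ⟨a, ha, ρ', hρ', h1⟩ := hRc (h⁻¹ * ρ) (H.mul_mem (H.inv_mem hh) (hRH ρ hρ))
    have h2 : ρ⁻¹ * (h * e * h⁻¹) * ρ = (h⁻¹ * ρ)⁻¹ * e * (h⁻¹ * ρ) := by group
    rw [h2, h1]
    have h3 : (ρ' * a)⁻¹ * e * (ρ' * a) = a⁻¹ * (ρ'⁻¹ * e * ρ') * a := by group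
    rw [h3]
    have haF1 : a ∈ F1 := hAF1.le ha
    exact F1.mul_mem (F1.mul_mem (F1.inv_mem haF1) (he ρ' hρ')) haF1
  have hFFA : FF (H ⊓ F) F2 := by
    have := hAF1.inter hF2F1
    rwa [inf_eq_left.2 hAF2] at this
  obtain ⟨SA, S2, g1, g2, g3⟩ := hFFA
  set L := F2 ⊔ H with hL
  have hF2L : F2 ≤ L := le_sup_left
  have hHL : H ≤ L := le_sup_right
  have hLfi : L.FiniteIndex := Subgroup.finiteIndex_of_le hF2L
  have hnorm : (F2.subgroupOf L).Normal := by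
    constructor
    intro n hn g
    rw [Subgroup.mem_subgroupOf] at *
    obtain ⟨e, he, h, hh, hg⟩ := (mem_sup_inv hF2inv (g : G)).1 g.2
    show (g : G) * (n : G) * (g : G)⁻¹ ∈ F2
    rw [hg]
    have : e * h * (n : G) * (e * h)⁻¹ = e * (h * (n : G) * h⁻¹) * e⁻¹ := by group
    rw [this]
    exact F2.mul_mem (F2.mul_mem he (hF2inv h hh _ hn)) (F2.inv_mem he)
  have hfinq : Finite (↥L ⧸ F2.subgroupOf L) := inferInstance
  obtain ⟨K', hK'1, hK'2, ρ', hρ1, hρ2⟩ := core (G := ↥L) (S := {x : ↥L | (x : G) ∈ S2})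
    (SA := {x : ↥L | (x : G) ∈ SA}) (F := F2.subgroupOf L) (H := H.subgroupOf L)
    (A := (H ⊓ F).subgroupOf L) hfinq (g3.subgroupOf hF2L) (fun x hx => g1 hx)
    (g2.subgroupOf (inf_le_left.trans hHL)) (by
      intro x hx
      rw [Subgroup.mem_subgroupOf] at *
      exact hx.1) (by
      rintro x ⟨hx1, hx2⟩
      have hx1' := Subgroup.mem_subgroupOf.1 hx1
      have hx2' := Subgroup.mem_subgroupOf.1 hx2
      rw [Subgroup.mem_subgroupOf]
      exact ⟨hx1', hF1F (hF2F1 hx2')⟩) (by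
      rw [← Group.fg_iff_subgroup_fg]
      exact Group.fg_of_surjective (f := (Subgroup.subgroupOfEquivOfLe hHL).symm.toMonoidHom)
        (Subgroup.subgroupOfEquivOfLe hHL).symm.surjective) (by
      rw [eq_top_iff]
      intro g _
      obtain ⟨e, he, h, hh, hg⟩ := (mem_sup_inv hF2inv (g : G)).1 g.2
      have : g = (⟨e, hF2L he⟩ : ↥L) * ⟨h, hHL hh⟩ := Subtype.ext hg
      rw [this]
      exact mul_mem (Subgroup.mem_sup_left (Subgroup.mem_subgroupOf.2 he))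
        (Subgroup.mem_sup_right (Subgroup.mem_subgroupOf.2 hh)))
  let eK := K'.equivMapOfInjective L.subtype Subtype.val_injective
  refine ⟨K'.map L.subtype, ?_, ?_, (L.subtype.comp ρ').comp eK.symm.toMonoidHom, ?_, ?_⟩
  · constructor
    rw [Subgroup.index_map_subtype]
    exact mul_ne_zero hK'1.index_ne_zero hLfi.index_ne_zero
  · intro h hh
    exact ⟨⟨h, hHL hh⟩, hK'2 (Subgroup.mem_subgroupOf.2 hh), rfl⟩
  · intro k
    exact Subgroup.mem_subgroupOf.1 (hρ1 (eK.symm k))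
  · intro h hk hh
    have h1 : eK.symm ⟨h, hk⟩ = ⟨⟨h, hHL hh⟩, hK'2 (Subgroup.mem_subgroupOf.2 hh)⟩ := by
      rw [MulEquiv.symm_apply_eq]
      rfl
    show ((ρ' (eK.symm ⟨h, hk⟩) : ↥L) : G) = h
    rw [h1, hρ2 ⟨h, hHL hh⟩ _ (Subgroup.mem_subgroupOf.2 hh)]

end Pool.Agent.V8H66.LR
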