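import Pool.Agent.V8H66.LR.Orient

/-!
# Homomorphisms from cocycles on a tree
-/

set_option autoImplicit false
set_option linter.unusedSectionVars false
set_option linter.unusedVariables false

namespace Pool.Agent.V8H66.LR

open Set Pointwise

/-- equivariant choice -/
theorem equi_section {G Z X : Type} [Group G] [MulAction G Z] [Nonempty X] (act : G → Z → X → X)
    (hm : ∀ g h c x, act (g * h) c x = act g (h • c) (act h c x))
    (E : Set Z) (hE : ∀ (g : G), ∀ c ∈ E, g • c ∈ E)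
    (P : Z → X → Prop) (hP : ∀ (g : G), ∀ c ∈ E, ∀ x, P c x → P (g • c) (act g c x))
    (hex : ∀ c ∈ E, ∃ x, P c x ∧ ∀ g : G, g • c = c → act g c x = x) :
    ∃ y : Z → X, ∀ c ∈ E, P c (y c) ∧ ∀ g : G, y (g • c) = act g c (y c) := by
  classical
  let r : Z → Z := fun c => (Quotient.mk (MulAction.orbitRel G Z) c).out
  have hr : ∀ c, ∃ g : G, g • r c = c := by
    intro c
    have : (MulAction.orbitRel G Z).r (r c) c := Quotient.exact (Quotient.out_eq _)
    have h2 : r c ∈ MulAction.orbit G c := this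
    obtain ⟨g, hg⟩ := h2
    refine ⟨g⁻¹, ?_⟩
    rw [← hg]
    exact inv_smul_smul _ _
  have hrg : ∀ (g : G) c, r (g • c) = r c := by
    intro g c
    have : Quotient.mk (MulAction.orbitRel G Z) (g • c) = Quotient.mk (MulAction.orbitRel G Z) c :=
      Quotient.sound (MulAction.mem_orbit c g)
    show (Quotient.mk (MulAction.orbitRel G Z) (g • c)).out = _
    rw [this]
  choose gc hgc using hr
  have hrE : ∀ c ∈ E, r c ∈ E := by
    intro c hc
    have := hE (gc c)⁻¹ c hc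
    rwa [← hgc c, hgc c, inv_smul_eq_iff.2 (hgc c).symm] at this
  let x : Z → X := fun c => if h : c ∈ E then (hex c h).choose else Classical.arbitrary X
  have hx : ∀ c ∈ E, P c (x c) ∧ ∀ g : G, g • c = c → act g c (x c) = x c := by
    intro c hc
    have : x c = (hex c hc).choose := dif_pos hc
    rw [this]
    exact (hex c hc).choose_spec
  refine ⟨fun c => act (gc c) (r c) (x (r c)), fun c hc => ⟨?_, fun g => ?_⟩⟩
  · have := hP (gc c) _ (hrE c hc) _ (hx _ (hrE c hc)).1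
    rwa [hgc c] at this
  · have e1 : act g c (act (gc c) (r c) (x (r c))) = act (g * gc c) (r c) (x (r c)) := by
      rw [hm, hgc c]
    simp only [hrg]
    rw [e1]
    have h1 : gc (g • c) • r c = g • c := by
      have := hgc (g • c)
      rwa [hrg] at this
    have h2 : (g * gc c) • r c = g • c := by rw [mul_smul, hgc c]
    have h3 : ((g * gc c)⁻¹ * gc (g • c)) • r c = r c := by
      rw [mul_smul, h1, ← h2, inv_smul_smul]
    have h4 := (hx _ (hrE c hc)).2 _ h3
    have h5 : gc (g • c) = (g * gc c) * ((g * gc c)⁻¹ * gc (g • c)) := by group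
    rw [h5, hm, h3, h4]

/-- from a cocycle on the vertices and an equivariant family on the edges to a homomorphism -/
theorem cocycle_hom {G V Γ : Type} [Group G] [MulAction G V] [Group Γ] {E : Set (Set V)}
    (hE : Nest E) (hG : ∀ (g : G), ∀ c ∈ E, g • c ∈ E) (v : V) (ψ0 : G →* Γ)
    (a : G → Set (Set V) → Γ) (ha : ∀ g h w, a (g * h) w = a g (h • w) * a h w)
    (y : Set V → Γ) (hy : ∀ c ∈ E, ∀ g : G, y (g • c) = ψ0 g * y c * (a g (hd E c))⁻¹) :
    ∃ (ψ : G →* Γ) (f : Set (Set V) → Γ), f (Ov E v) = 1 ∧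
      (∀ g w, Ori E w → f (g • w) = ψ g * f w * (a g w)⁻¹) ∧
      (∀ c ∈ E, f (hd E c) * (y c)⁻¹ = f (hd E cᶜ) * (y cᶜ)⁻¹) ∧
      (∀ c ∈ E, ∀ g : G, f (hd E (g • c)) * (y (g • c))⁻¹ =
        ψ g * (f (hd E c) * (y c)⁻¹) * (ψ0 g)⁻¹) := by
  obtain ⟨f, hf1, hf2⟩ := tree1 hE v (fun c => (y cᶜ)⁻¹ * y c) (by
    intro c hc
    simp only [compl_compl, mul_inv_rev, inv_inv])
  have hf3 : ∀ c ∈ E, f (hd E c) = f (hd E cᶜ) * ((y cᶜ)⁻¹ * y c) := hf2
  have hzg : ∀ c ∈ E, ∀ g : G, (y (g • c)ᶜ)⁻¹ * y (g • c) =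
      a g (hd E cᶜ) * ((y cᶜ)⁻¹ * y c) * (a g (hd E c))⁻¹ := by
    intro c hc g
    rw [← Set.smul_set_compl, hy c hc, hy cᶜ (hE.compl c hc)]
    group
  have key : ∀ g : G, ∀ w, Ori E w → f (g • w) * a g w * (f w)⁻¹ =
      f (g • Ov E v) * a g (Ov E v) * (f (Ov E v))⁻¹ := by
    intro g
    apply tree2 hE v (fun w => f (g • w) * a g w * (f w)⁻¹)
    intro c hc
    rw [smul_hd hG, smul_hd hG, hf3 _ (hG g c hc), hzg c hc g, hf3 c hc, ← Set.smul_set_compl]
    group
  have hfw : ∀ g w, Ori E w → f (g • w) = (f (g • Ov E v) * a g (Ov E v)) * f w * (a g w)⁻¹ := by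
    intro g w hw
    have := key g w hw
    rw [hf1, inv_one, mul_one] at this
    rw [← this]
    group
  let ψ : G →* Γ := MonoidHom.mk' (fun g => f (g • Ov E v) * a g (Ov E v)) (by
    intro g h
    rw [mul_smul, hfw g _ ((hE.ori_Ov v).smul hG h), ha]
    group)
  have hψ : ∀ g, ψ g = f (g • Ov E v) * a g (Ov E v) := fun g => rfl
  have h4 : ∀ g w, Ori E w → f (g • w) = ψ g * f w * (a g w)⁻¹ := by
    intro g w hw
    rw [hψ]
    exact hfw g w hw
  refine ⟨ψ, f, hf1, h4, ?_, ?_⟩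
  · intro c hc
    rw [hf3 c hc]
    group
  · intro c hc g
    rw [← smul_hd hG, h4 g _ (hE.ori_hd hc), hy c hc]
    group

/-- swap of two orbits with the same stabilizers -/
theorem swap_orbits {W X : Type} [Group W] [MulAction W X] (S : Subgroup W) (a b : X)
    (hstab : ∀ w ∈ S, w • a = a ↔ w • b = b) (hne : ∀ w ∈ S, w • a ≠ b) :
    ∃ y : Equiv.Perm X, y a = b ∧ ∀ w ∈ S, ∀ x, y (w • x) = w • y x := by
  classical
  have key : ∀ a b : X, (∀ w ∈ S, w • a = a ↔ w • b = b) → ∀ w ∈ S, ∀ w' ∈ S,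
      w • a = w' • a → w • b = w' • b := by
    intro a b hstab w hw w' hw' h
    have h1 : (w'⁻¹ * w) • a = a := by rw [mul_smul, h, inv_smul_smul]
    have h2 := (hstab _ (S.mul_mem (S.inv_mem hw') hw)).1 h1
    rw [mul_smul, inv_smul_eq_iff] at h2
    exact h2
  let y : X → X := fun x => if h : ∃ w ∈ S, w • a = x then h.choose • b else
    if h : ∃ w ∈ S, w • b = x then h.choose • a else x
  have y1 : ∀ w ∈ S, y (w • a) = w • b := by
    intro w hw
    have h : ∃ w' ∈ S, w' • a = w • a := ⟨w, hw, rfl⟩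
    have e : y (w • a) = h.choose • b := dif_pos h
    rw [e]
    exact key a b hstab _ h.choose_spec.1 _ hw h.choose_spec.2
  have hno : ∀ w ∈ S, ∀ w' ∈ S, w' • a ≠ w • b := by
    intro w hw w' hw' h
    apply hne _ (S.mul_mem (S.inv_mem hw) hw')
    rw [mul_smul, h, inv_smul_smul]
  have y2 : ∀ w ∈ S, y (w • b) = w • a := by
    intro w hw
    have hn : ¬ ∃ w' ∈ S, w' • a = w • b := by
      rintro ⟨w', hw', h⟩
      exact hno w hw w' hw' h
    have h : ∃ w' ∈ S, w' • b = w • b := ⟨w, hw, rfl⟩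
    have e : y (w • b) = h.choose • a := by
      show dite _ _ _ = _
      rw [dif_neg hn, dif_pos h]
    rw [e]
    exact key b a (fun w hw => (hstab w hw).symm) _ h.choose_spec.1 _ hw h.choose_spec.2
  have y3 : ∀ x, (¬ ∃ w ∈ S, w • a = x) → (¬ ∃ w ∈ S, w • b = x) → y x = x := by
    intro x h1 h2
    show dite _ _ _ = _
    rw [dif_neg h1, dif_neg h2]
  have yy : Function.Involutive y := by
    intro x
    by_cases h1 : ∃ w ∈ S, w • a = x
    · obtain ⟨w, hw, rfl⟩ := h1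
      rw [y1 w hw, y2 w hw]
    · by_cases h2 : ∃ w ∈ S, w • b = x
      · obtain ⟨w, hw, rfl⟩ := h2
        rw [y2 w hw, y1 w hw]
      · rw [y3 x h1 h2, y3 x h1 h2]
  refine ⟨yy.toPerm, ?_, ?_⟩
  · show y a = b
    have := y1 1 S.one_mem
    rwa [one_smul, one_smul] at this
  · intro w hw x
    show y (w • x) = w • y x
    by_cases h1 : ∃ w ∈ S, w • a = x
    · obtain ⟨u, hu, rfl⟩ := h1
      rw [y1 u hu, ← mul_smul, y1 _ (S.mul_mem hw hu), mul_smul]
    · by_cases h2 : ∃ w ∈ S, w • b = x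
      · obtain ⟨u, hu, rfl⟩ := h2
        rw [y2 u hu, ← mul_smul, y2 _ (S.mul_mem hw hu), mul_smul]
      · rw [y3 x h1 h2, y3]
        · rintro ⟨u, hu, h⟩
          apply h1
          exact ⟨w⁻¹ * u, S.mul_mem (S.inv_mem hw) hu, by rw [mul_smul, h, inv_smul_smul]⟩
        · rintro ⟨u, hu, h⟩
          apply h2
          exact ⟨w⁻¹ * u, S.mul_mem (S.inv_mem hw) hu, by rw [mul_smul, h, inv_smul_smul]⟩

end Pool.Agent.V8H66.LR
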