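import Mathlib

/-!
# First letters of elements of free groups
-/

set_option autoImplicit false
set_option linter.unusedSectionVars false
set_option linter.unusedVariables false

namespace Pool.Agent.V8H66.LR

open FreeGroup

variable {ι : Type}

open Classical in
/-- first letter of an element of a free group -/
noncomputable def fl (x : FreeGroup ι) : Option (ι × Bool) := x.toWord.head?

theorem fl_one : fl (1 : FreeGroup ι) = none := by
  classical
  unfold fl
  rw [toWord_one]
  rfl

theorem fl_of (s : ι) : fl (of s) = some (s, true) := by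
  classical
  unfold fl
  rw [toWord_of]
  rfl

theorem red_left {L L' : List (ι × Bool)} (h : IsReduced (L ++ L')) : IsReduced L :=
  List.IsChain.left_of_append h

theorem red_right {L L' : List (ι × Bool)} (h : IsReduced (L ++ L')) : IsReduced L' :=
  List.IsChain.right_of_append h

theorem fl_mk {L : List (ι × Bool)} (h : IsReduced L) : fl (mk L) = L.head? := by
  classical
  unfold fl
  rw [toWord_mk, h.reduce_eq]

theorem of_inv_eq (s : ι) : (of s : FreeGroup ι)⁻¹ = mk [(s, false)] := by
  rw [show (of s : FreeGroup ι) = mk [(s, true)] from rfl, inv_mk]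
  rfl

theorem fl_of_inv (s : ι) : fl (of s : FreeGroup ι)⁻¹ = some (s, false) := by
  rw [of_inv_eq, fl_mk IsReduced.singleton]
  rfl

theorem fl_mul_of (x : FreeGroup ι) (s : ι) :
    x = 1 ∨ x = (of s)⁻¹ ∨ fl (x * of s) = fl x := by
  classical
  have hx : x = mk x.toWord := mk_toWord.symm
  have hr : IsReduced x.toWord := isReduced_toWord
  rcases List.eq_nil_or_concat x.toWord with h | ⟨L, b, h⟩
  · left
    rw [hx, h]; rfl
  · rw [List.concat_eq_append] at h
    by_cases hb : b = (s, false)
    · have h1 : x * of s = mk L := by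
        rw [hx, h, hb, ← mul_mk, ← of_inv_eq, inv_mul_cancel_right]
      have hL : IsReduced L := by
        rw [h] at hr
        exact red_left hr
      by_cases hL0 : L = []
      · right; left
        rw [hx, h, hL0, hb, of_inv_eq]
        rfl
      · right; right
        rw [h1, fl_mk hL]
        unfold fl
        rw [h, List.head?_append_of_ne_nil _ hL0]
    · right; right
      have h1 : x * of s = mk (L ++ [b] ++ [(s, true)]) := by
        rw [← mul_mk, ← h, mk_toWord]; rfl
      have h2 : IsReduced (L ++ [b] ++ [(s, true)]) := by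
        rw [h] at hr
        refine IsReduced.append_overlap hr ?_ (by simp)
        rw [List.singleton_append, isReduced_cons_cons]
        refine ⟨?_, IsReduced.singleton⟩
        intro h3
        by_contra h4
        apply hb
        have : b.2 = false := by simpa using h4
        exact Prod.ext h3 this
      rw [h1, fl_mk h2]
      unfold fl
      rw [h, List.head?_append_of_ne_nil _ (by simp)]

theorem fl_change_finite (v : FreeGroup ι) : {x : FreeGroup ι | fl (x * v) ≠ fl x}.Finite := by
  induction v using FreeGroup.induction_on with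
  | C1 => simp
  | of s =>
    refine (Set.toFinite {(1 : FreeGroup ι), (of s)⁻¹}).subset ?_
    intro x hx
    rcases fl_mul_of x s with h | h | h
    · left; exact h
    · right; exact h
    · exact absurd h hx
  | inv_of s ih =>
    refine (ih.image (fun x => x * of s)).subset ?_
    intro x hx
    refine ⟨x * (of s)⁻¹, ?_, by simp⟩
    intro h
    apply hx
    show fl (x * (of s)⁻¹) = _
    rw [inv_mul_cancel_right] at h
    exact h.symm
  | mul u w hu hw =>
    refine (hu.union (hw.image (fun x => x * u⁻¹))).subset ?_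
    intro x hx
    by_cases h : fl (x * u) = fl x
    · right
      refine ⟨x * u, ?_, by simp⟩
      intro h'
      apply hx
      show fl (x * (u * w)) = _
      rw [← mul_assoc, h', h]
    · left; exact h

theorem fl_mul_closure {J : Set ι} {t : ι} (ht : t ∉ J) (b : Bool) {a : FreeGroup ι}
    (ha : a ∈ Subgroup.closure (of '' J)) :
    ∀ x : FreeGroup ι, fl (x * a) = some (t, b) ↔ fl x = some (t, b) := by
  induction ha using Subgroup.closure_induction with
  | mem x hx =>
    obtain ⟨s, hs, rfl⟩ := hx
    have hst : s ≠ t := fun h => ht (h ▸ hs)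
    intro x
    rcases fl_mul_of x s with h | h | h
    · rw [h, one_mul, fl_of, fl_one]
      simp [hst]
    · rw [h, inv_mul_cancel, fl_of_inv, fl_one]
      simp [hst]
    · rw [h]
  | one => intro x; rw [mul_one]
  | mul x y _ _ hx hy =>
    intro z
    rw [← mul_assoc, hy, hx]
  | inv x _ hx =>
    intro z
    rw [← hx (z * x⁻¹), inv_mul_cancel_right]

theorem fl_closure {J : Set ι} {t : ι} (ht : t ∉ J) (b : Bool) {a : FreeGroup ι}
    (ha : a ∈ Subgroup.closure (of '' J)) : fl a ≠ some (t, b) := by
  intro h
  have := (fl_mul_closure ht b ha 1).1 (by rwa [one_mul])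
  rw [fl_one] at this
  exact absurd this (by simp)

theorem letters_split (J : Set ι) : ∀ L : List (ι × Bool),
    mk L ∈ Subgroup.closure (of '' J) ∨
    ∃ L1 p L2, L = L1 ++ p :: L2 ∧ mk L1 ∈ Subgroup.closure (of '' J) ∧ p.1 ∉ J := by
  intro L
  induction L with
  | nil => left; exact one_mem _
  | cons q L ih =>
    by_cases hq : q.1 ∈ J
    · have hq' : (mk [q] : FreeGroup ι) ∈ Subgroup.closure (of '' J) := by
        have h1 : (of q.1 : FreeGroup ι) ∈ Subgroup.closure (of '' J) :=
          Subgroup.subset_closure ⟨q.1, hq, rfl⟩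
        obtain ⟨q1, q2⟩ := q
        cases q2
        · rw [← of_inv_eq]
          exact inv_mem h1
        · exact h1
      rcases ih with h | ⟨L1, p, L2, h1, h2, h3⟩
      · left
        rw [← List.singleton_append, ← mul_mk]
        exact mul_mem hq' h
      · right
        refine ⟨q :: L1, p, L2, by rw [h1]; rfl, ?_, h3⟩
        rw [← List.singleton_append, ← mul_mk]
        exact mul_mem hq' h2
    · right
      exact ⟨[], q, L, rfl, one_mem _, hq⟩

theorem fl_separate (J : Set ι) (z : FreeGroup ι) (hz : z ∉ Subgroup.closure (of '' J)) :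
    ∃ a ∈ Subgroup.closure (of '' J), ∃ t, t ∉ J ∧ ∃ b, fl (a⁻¹ * z) = some (t, b) := by
  classical
  have hr : IsReduced z.toWord := isReduced_toWord
  rcases letters_split J z.toWord with h | ⟨L1, p, L2, h1, h2, h3⟩
  · rw [mk_toWord] at h
    exact absurd h hz
  · refine ⟨mk L1, h2, p.1, h3, p.2, ?_⟩
    have h4 : (mk L1)⁻¹ * z = mk (p :: L2) := by
      rw [inv_mul_eq_iff_eq_mul, mul_mk, ← h1, mk_toWord]
    rw [h1] at hr
    rw [h4, fl_mk (red_right hr)]
    rfl

theorem head_invRev (R : List (ι × Bool)) : (invRev R).head? = R.getLast?.map fun q => (q.1, !q.2) := by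
  unfold invRev
  rw [List.head?_reverse, List.getLast?_map]

theorem last_invRev (R : List (ι × Bool)) : (invRev R).getLast? = R.head?.map fun q => (q.1, !q.2) := by
  unfold invRev
  rw [List.getLast?_reverse, List.head?_map]

theorem red_invRev {R : List (ι × Bool)} (h : IsReduced R) : IsReduced (invRev R) := by
  classical
  rw [isReduced_iff_reduce_eq, reduce_invRev, h.reduce_eq]

theorem cyc_invRev {R : List (ι × Bool)} (h : IsCyclicallyReduced R) :
    IsCyclicallyReduced (invRev R) := by
  refine ⟨red_invRev h.1, ?_⟩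
  intro a ha b hb hab
  rw [last_invRev, Option.mem_def, Option.map_eq_some_iff] at ha
  rw [head_invRev, Option.mem_def, Option.map_eq_some_iff] at hb
  obtain ⟨p, hp, rfl⟩ := ha
  obtain ⟨q, hq, rfl⟩ := hb
  have := h.2 q hq p hp hab.symm
  simp only
  rw [this]

theorem fl_pow {C R : List (ι × Bool)} (hR : IsCyclicallyReduced R) (hR0 : R ≠ [])
    (hred : IsReduced (C ++ R ++ invRev C)) {m : ℕ} (hm : 1 ≤ m) :
    fl ((mk C)⁻¹ * (mk C * mk R * (mk C)⁻¹) ^ m) = R.head? := by
  have h1 : (mk C)⁻¹ * (mk C * mk R * (mk C)⁻¹) ^ m = mk ((List.replicate m R).flatten ++ invRev C) := by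
    rw [conj_pow, ← mul_mk, ← pow_mk, ← inv_mk]
    group
  have h2 := IsReduced.append_flatten_replicate_append (n := m) hR hred (by omega)
  have h3 : IsReduced ((List.replicate m R).flatten ++ invRev C) := by
    rw [List.append_assoc] at h2
    exact red_right h2
  rw [h1, fl_mk h3]
  obtain ⟨k, rfl⟩ : ∃ k, m = k + 1 := ⟨m - 1, by omega⟩
  rw [List.replicate_succ, List.flatten_cons, List.append_assoc,
    List.head?_append_of_ne_nil _ hR0]

/-- a nontrivial element of a free group moves along an edge -/
theorem fl_hyp (f : FreeGroup ι) (hf : f ≠ 1) : ∃ (g : FreeGroup ι) (t : ι) (b : Bool),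
    ∀ m : ℕ, 1 ≤ m → fl (g⁻¹ * f ^ m) = some (t, b) ∧ fl (g⁻¹ * (f⁻¹) ^ m) ≠ some (t, b) := by
  classical
  have hr : IsReduced f.toWord := isReduced_toWord
  set C := reduceCyclically.conjugator f.toWord with hC
  set R := reduceCyclically f.toWord with hR
  have hL : C ++ R ++ invRev C = f.toWord :=
    reduceCyclically.conj_conjugator_reduceCyclically f.toWord
  have hcyc : IsCyclicallyReduced R := reduceCyclically.isCyclicallyReduced hr
  have hf' : f = mk C * mk R * (mk C)⁻¹ := by
    rw [inv_mk, mul_mk, mul_mk, hL, mk_toWord]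
  have hR0 : R ≠ [] := by
    intro h
    apply hf
    rw [hf', h]
    show mk C * 1 * (mk C)⁻¹ = 1
    group
  have hfi : f⁻¹ = mk C * mk (invRev R) * (mk C)⁻¹ := by
    rw [hf', ← inv_mk]
    group
  have hR0' : invRev R ≠ [] := by
    intro h
    apply hR0
    rw [← invRev_invRev (L₁ := R), h]
    rfl
  have hredi : IsReduced (C ++ invRev R ++ invRev C) := by
    have := red_invRev (R := C ++ R ++ invRev C) (by rw [hL]; exact hr)
    rw [invRev_append, invRev_append, invRev_invRev, ← List.append_assoc] at this
    exact this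
  obtain ⟨p, hp⟩ : ∃ p, R.head? = some p := by
    cases hRR : R with
    | nil => exact absurd hRR hR0
    | cons a L => exact ⟨a, rfl⟩
  refine ⟨mk C, p.1, p.2, fun m hm => ⟨?_, ?_⟩⟩
  · have := fl_pow hcyc hR0 (by rw [hL]; exact hr) hm
    rw [← hf'] at this
    rw [this, hp]
  · have := fl_pow (cyc_invRev hcyc) hR0' hredi hm
    rw [← hfi] at this
    rw [this, head_invRev]
    intro h
    rw [Option.map_eq_some_iff] at h
    obtain ⟨q, hq, h1⟩ := h
    have h2 : q.1 = p.1 := (Prod.mk.inj h1).1
    have h3 : (!q.2) = p.2 := (Prod.mk.inj h1).2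
    have h4 := hcyc.2 q hq p hp h2
    rw [h4] at h3
    simp at h3

end Pool.Agent.V8H66.LR
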