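import Pool.Agent.V8H66.LR.Cuts2
import Pool.Agent.V8H66.LR.Cocycle
import Pool.Agent.V8H66.LR.Words

/-!
# The coset graph of a subgroup relative to a free subgroup of finite index
-/

set_option autoImplicit false
set_option linter.unusedSectionVars false
set_option linter.unusedVariables false

namespace Pool.Agent.V8H66.LR

open Set Pointwise FreeGroup

/-- edges of the coset graph -/
structure Edg (G κ : Type) where
  /-- starting point -/
  g : G
  /-- label -/
  i : κ

variable {G ι κ : Type} [Group G]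

instance : MulAction G (Edg G κ) where
  smul h e := ⟨h * e.g, e.i⟩
  one_smul e := by
    show (⟨1 * e.g, e.i⟩ : Edg G κ) = e
    rw [one_mul]
  mul_smul a b e := by
    show (⟨a * b * e.g, e.i⟩ : Edg G κ) = ⟨a * (b * e.g), e.i⟩
    rw [mul_assoc]

theorem edg_smul (h : G) (e : Edg G κ) : h • e = ⟨h * e.g, e.i⟩ := rfl

/-- start of an edge -/
def es (M : Subgroup G) (e : Edg G κ) : G ⧸ M := QuotientGroup.mk e.g

/-- end of an edge -/
def et (M : Subgroup G) (σ : κ → G) (e : Edg G κ) : G ⧸ M := QuotientGroup.mk (e.g * σ e.i)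

theorem es_smul (M : Subgroup G) (h : G) (e : Edg G κ) : es M (h • e) = h • es M e := rfl

theorem et_smul (M : Subgroup G) (σ : κ → G) (h : G) (e : Edg G κ) :
    et M σ (h • e) = h • et M σ e := by
  show (QuotientGroup.mk (h * e.g * σ e.i) : G ⧸ M) = QuotientGroup.mk (h * (e.g * σ e.i))
  rw [mul_assoc]

theorem edg_free (h : G) (e : Edg G κ) (he : h • e = e) : h = 1 := by
  have : h * e.g = e.g := congrArg Edg.g he
  exact mul_eq_right.1 this

/-- the data of a coset graph -/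
structure CGH (φ : FreeGroup ι →* G) (J : Set ι) (M : Subgroup G) (x : G → FreeGroup ι)
    (r : G → G) (σ : κ → G) : Prop where
  hx : ∀ y g, x (φ y * g) = y * x g
  hr : ∀ y g, r (φ y * g) = r g
  hd : ∀ g, g = φ (x g) * r g
  hrfin : (Set.range r).Finite
  hJ : ∀ g, ∀ m ∈ M, x (r g * m) ∈ Subgroup.closure (of '' J)
  h1 : x 1 = 1
  hgen : Subgroup.closure ((M : Set G) ∪ Set.range σ) = ⊤

variable {φ : FreeGroup ι →* G} {J : Set ι} {M : Subgroup G} {x : G → FreeGroup ι}
    {r : G → G} {σ : κ → G}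

theorem CGH.conn (h : CGH φ J M x r σ) : Conn (es M) (et M σ) (univ : Set (Edg G κ)) := by
  intro A hA
  have hK : ∀ k ∈ Subgroup.closure ((M : Set G) ∪ Set.range σ), ∀ g : G,
      (QuotientGroup.mk g : G ⧸ M) ∈ A ↔ (QuotientGroup.mk (g * k) : G ⧸ M) ∈ A := by
    intro k hk
    induction hk using Subgroup.closure_induction with
    | mem k hk =>
      intro g
      rcases hk with hk | ⟨i, rfl⟩
      · have : (QuotientGroup.mk (g * k) : G ⧸ M) = QuotientGroup.mk g :=
          QuotientGroup.mk_mul_of_mem g hk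
        rw [this]
      · have := hA ⟨g, i⟩ (mem_univ _)
        rw [mem_bd, not_not] at this
        exact this
    | one => intro g; rw [mul_one]
    | mul k l _ _ hk hl =>
      intro g
      rw [hk g, hl (g * k), mul_assoc]
    | inv k _ hk =>
      intro g
      rw [hk (g * k⁻¹), inv_mul_cancel_right]
  by_cases h1 : (QuotientGroup.mk 1 : G ⧸ M) ∈ A
  · right
    rw [eq_univ_iff_forall]
    intro v
    obtain ⟨g, rfl⟩ := QuotientGroup.mk_surjective v
    have := hK g (by rw [h.hgen]; trivial) 1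
    rw [one_mul] at this
    exact this.1 h1
  · left
    rw [eq_empty_iff_forall_notMem]
    intro v
    obtain ⟨g, rfl⟩ := QuotientGroup.mk_surjective v
    have := hK g (by rw [h.hgen]; trivial) 1
    rw [one_mul] at this
    exact fun h' => h1 (this.2 h')

theorem CGH.x_mul (h : CGH φ J M x r σ) (g k : G) : x (g * k) = x g * x (r g * k) := by
  conv_lhs => rw [h.hd g, mul_assoc, h.hx]

/-- edges where the first letter changes -/
def CHs (x : G → FreeGroup ι) (σ : κ → G) : Set (Edg G κ) :=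
  {e | fl (x (e.g * σ e.i)) ≠ fl (x e.g)}

theorem CGH.chs_finite [Finite κ] (h : CGH φ J M x r σ) : (CHs x σ).Finite := by
  have hfin : (⋃ i : κ, ⋃ ρ ∈ Set.range r, (fun z => (⟨φ z * ρ, i⟩ : Edg G κ)) ''
      {z | fl (z * x (ρ * σ i)) ≠ fl z}).Finite :=
    Set.finite_iUnion fun i => h.hrfin.biUnion fun ρ _ => (fl_change_finite _).image _
  refine hfin.subset ?_
  rintro ⟨g, i⟩ he
  rw [mem_iUnion]
  refine ⟨i, ?_⟩
  rw [mem_iUnion₂]
  refine ⟨r g, ⟨g, rfl⟩, x g, ?_, ?_⟩
  · show fl (x g * x (r g * σ i)) ≠ fl (x g)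
    rw [← h.x_mul]
    exact he
  · show (⟨φ (x g) * r g, i⟩ : Edg G κ) = ⟨g, i⟩
    rw [← h.hd g]

/-- basic cuts -/
def Bc (M : Subgroup G) (x : G → FreeGroup ι) (t : ι) (b : Bool) : Set (G ⧸ M) :=
  {v | ∃ g, (QuotientGroup.mk g : G ⧸ M) = v ∧ fl (x g) = some (t, b)}

theorem CGH.mem_Bc (h : CGH φ J M x r σ) {t : ι} (ht : t ∉ J) (b : Bool) (g : G) :
    (QuotientGroup.mk g : G ⧸ M) ∈ Bc M x t b ↔ fl (x g) = some (t, b) := by
  constructor
  · rintro ⟨g', h1, h2⟩
    have h3 : g⁻¹ * g' ∈ M := by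
      rw [← QuotientGroup.eq]
      exact h1.symm
    have h4 : x g' = x g * x (r g * (g⁻¹ * g')) := by
      rw [← h.x_mul, mul_inv_cancel_left]
    rw [h4, fl_mul_closure ht b (h.hJ g _ h3)] at h2
    exact h2
  · intro h'
    exact ⟨g, rfl, h'⟩

theorem CGH.bd_Bc (h : CGH φ J M x r σ) {t : ι} (ht : t ∉ J) (b : Bool) :
    bd (es M) (et M σ) (Bc M x t b) ⊆ CHs x σ := by
  intro e he
  rw [mem_bd] at he
  unfold es et at he
  rw [h.mem_Bc ht, h.mem_Bc ht] at he
  intro h'
  apply he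
  rw [h']

/-- the size bound -/
noncomputable def nn (x : G → FreeGroup ι) (σ : κ → G) : ℕ := (CHs x σ).ncard

theorem CGH.fin_Bc [Finite κ] (h : CGH φ J M x r σ) {t : ι} (ht : t ∉ J) (b : Bool) (g : G) :
    (bd (es M) (et M σ) (g • Bc M x t b)).Finite :=
  fin_smul (es_smul M) (et_smul M σ) g (h.chs_finite.subset (h.bd_Bc ht b))

theorem CGH.sz_Bc [Finite κ] (h : CGH φ J M x r σ) {t : ι} (ht : t ∉ J) (b : Bool) (g : G) :
    sz (es M) (et M σ) (g • Bc M x t b) ≤ nn x σ := by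
  rw [sz_smul (es_smul M) (et_smul M σ) g]
  exact Set.ncard_le_ncard (h.bd_Bc ht b) h.chs_finite

/-- the tree -/
def EE (M : Subgroup G) (x : G → FreeGroup ι) (σ : κ → G) : Set (Set (G ⧸ M)) :=
  {c | Opt (es M) (et M σ) (nn x σ) c}

theorem CGH.nest (h : CGH φ J M x r σ) : Nest (EE M x σ) where
  compl := fun c hc => Opt.compl hc
  nested := fun c hc d hd => Opt.nested h.conn hc hd
  ne := fun c hc => Opt.ne_empty hc
  fin := fun v w => opt_interval h.conn _ v w

theorem EE_smul (g : G) (c : Set (G ⧸ M)) (hc : c ∈ EE M x σ) : g • c ∈ EE M x σ :=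
  Opt.smul (es_smul M) (et_smul M σ) g hc

theorem CGH.stab_finite (h : CGH φ J M x r σ) {c : Set (G ⧸ M)} (hc : c ∈ EE M x σ) :
    {g : G | g • c = c}.Finite :=
  opt_stab h.conn (es_smul M) (et_smul M σ) edg_free hc

theorem CGH.orbits [Finite κ] (h : CGH φ J M x r σ) :
    ∃ C : Set (Set (G ⧸ M)), C.Finite ∧ ∀ c ∈ EE M x σ, ∃ g : G, g • c ∈ C := by
  refine opt_orbits h.conn (es_smul M) (et_smul M σ) _
    (S := Set.range fun i : κ => (⟨1, i⟩ : Edg G κ)) (Set.finite_range _) ?_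
  rintro ⟨g, i⟩
  refine ⟨g⁻¹, i, ?_⟩
  show _ = (⟨g⁻¹ * g, i⟩ : Edg G κ)
  rw [inv_mul_cancel]

theorem CGH.exists_sep [Finite κ] (h : CGH φ J M x r σ) {t : ι} (ht : t ∉ J) (b : Bool) (g : G)
    {p q : Ultrafilter (G ⧸ M)} (hsep : SepU (g • Bc M x t b) p q) :
    ∃ c ∈ EE M x σ, SepU c p q :=
  opt_exists _ (h.fin_Bc ht b g) (h.sz_Bc ht b g) hsep

theorem CGH.x_phi (h : CGH φ J M x r σ) (y : FreeGroup ι) : x (φ y) = y := by
  have := h.hx y 1
  rw [mul_one, h.h1, mul_one] at this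
  exact this

theorem CGH.separate [Finite κ] (h : CGH φ J M x r σ)
    (hMF : ∀ g : G, ∃ y, ∃ m ∈ M, g = φ y * m)
    (hφM : ∀ y ∈ Subgroup.closure (of '' J), φ y ∈ M) {v w : G ⧸ M} (hvw : v ≠ w) :
    ∃ c ∈ EE M x σ, ¬ (v ∈ c ↔ w ∈ c) := by
  have hmk : ∀ v : G ⧸ M, ∃ y, v = QuotientGroup.mk (φ y) := by
    intro v
    obtain ⟨g, rfl⟩ := QuotientGroup.mk_surjective v
    obtain ⟨y, m, hm, rfl⟩ := hMF g
    exact ⟨y, QuotientGroup.mk_mul_of_mem _ hm⟩
  obtain ⟨y, rfl⟩ := hmk v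
  obtain ⟨y', rfl⟩ := hmk w
  have hz : y⁻¹ * y' ∉ Subgroup.closure (of '' J) := by
    intro hz
    apply hvw
    rw [QuotientGroup.eq, ← _root_.map_inv, ← _root_.map_mul]
    exact hφM _ hz
  obtain ⟨a, ha, t, ht, b, hab⟩ := fl_separate J _ hz
  have hsep : SepU (φ (y * a) • Bc M x t b) (pure (QuotientGroup.mk (φ y) : G ⧸ M))
      (pure (QuotientGroup.mk (φ y') : G ⧸ M)) := by
    rw [sepU_pure, mem_smul_set_iff_inv_smul_mem, mem_smul_set_iff_inv_smul_mem]
    have e1 : (φ (y * a))⁻¹ • (QuotientGroup.mk (φ y) : G ⧸ M) = QuotientGroup.mk (φ a⁻¹) := by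
      show (QuotientGroup.mk ((φ (y * a))⁻¹ * φ y) : G ⧸ M) = _
      rw [← _root_.map_inv, ← _root_.map_mul]
      congr 2
      group
    have e2 : (φ (y * a))⁻¹ • (QuotientGroup.mk (φ y') : G ⧸ M) =
        QuotientGroup.mk (φ (a⁻¹ * (y⁻¹ * y'))) := by
      show (QuotientGroup.mk ((φ (y * a))⁻¹ * φ y') : G ⧸ M) = _
      rw [← _root_.map_inv, ← _root_.map_mul]
      congr 2
      group
    rw [e1, e2, h.mem_Bc ht, h.mem_Bc ht, h.x_phi, h.x_phi]
    intro h'
    exact fl_closure ht b (inv_mem ha) (h'.2 hab)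
  obtain ⟨c, hc, hc'⟩ := h.exists_sep ht b _ hsep
  exact ⟨c, hc, sepU_pure.1 hc'⟩

theorem CGH.tail_finite (h : CGH φ J M x r σ) {w : Set (Set (G ⧸ M))} (hw : Ori (EE M x σ) w)
    {g : G} (hg : ¬ IsOfFinOrder g) (hgw : g • w = w) {c : Set (G ⧸ M)} (hc : c ∈ w) :
    {m : ℕ | (QuotientGroup.mk (g ^ m) : G ⧸ M) ∉ c}.Finite := by
  have hgw' : g⁻¹ • w = w := inv_smul_eq_iff.2 hgw.symm
  have hmw : ∀ m : ℕ, (g⁻¹ ^ m) • c ∈ w := by
    intro m
    induction m with
    | zero => rw [pow_zero, one_smul]; exact hc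
    | succ m ih =>
      rw [pow_succ', mul_smul, ← hgw']
      exact smul_mem_smul_set ih
  have hstab := h.stab_finite (hw.sub hc)
  refine Set.Finite.of_finite_image (f := fun m : ℕ => (g⁻¹ ^ m) • c)
    ((hw.fin (QuotientGroup.mk 1)).subset ?_) ?_
  · rintro _ ⟨m, hm, rfl⟩
    refine ⟨hmw m, fun h' => hm ?_⟩
    have := h'.2
    rw [mem_smul_set_iff_inv_smul_mem, ← inv_pow, inv_inv] at this
    have e : (g ^ m) • (QuotientGroup.mk 1 : G ⧸ M) = QuotientGroup.mk (g ^ m) := by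
      show (QuotientGroup.mk (g ^ m * 1) : G ⧸ M) = _
      rw [mul_one]
    rw [e] at this
    exact this
  · have key : ∀ k l : ℕ, k < l → (g⁻¹ ^ k) • c = (g⁻¹ ^ l) • c → False := by
      intro k l hkl h'
      have h1 : (g⁻¹ ^ (l - k)) • c = c := by
        have : g⁻¹ ^ l = g⁻¹ ^ k * g⁻¹ ^ (l - k) := by rw [← pow_add]; congr 1; omega
        rw [this, mul_smul] at h'
        exact (smul_left_cancel _ h').symm
      have h2 : ∀ j : ℕ, (g⁻¹ ^ (l - k)) ^ j ∈ {g : G | g • c = c} := by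
        intro j
        induction j with
        | zero => simp
        | succ j ih =>
          show _ • c = c
          rw [pow_succ, mul_smul, h1]
          exact ih
      have h3 : ¬ IsOfFinOrder (g⁻¹ ^ (l - k)) := by
        intro h3
        rw [isOfFinOrder_pow] at h3
        rcases h3 with h3 | h3
        · exact hg (isOfFinOrder_inv_iff.1 h3)
        · omega
      have h4 : Function.Injective fun j : ℕ => (g⁻¹ ^ (l - k)) ^ j :=
        injective_pow_iff_not_isOfFinOrder.2 h3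
      exact Set.infinite_range_of_injective h4 (hstab.subset (by rintro _ ⟨j, rfl⟩; exact h2 j))
    intro k _ l _ h'
    rcases lt_trichotomy k l with h1 | h1 | h1
    · exact (key k l h1 h').elim
    · exact h1
    · exact (key l k h1 h'.symm).elim

theorem not_fin_order (hφ : Function.Injective φ) {f : FreeGroup ι} (hf : f ≠ 1) :
    ¬ IsOfFinOrder (φ f) := by
  rw [hφ.isOfFinOrder_iff]
  exact not_isOfFinOrder_of_isMulTorsionFree hf

theorem hyper_mem {v : ℕ → G ⧸ M} {A : Set (G ⧸ M)} (h : {m : ℕ | v m ∉ A}.Finite) :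
    A ∈ (Filter.hyperfilter ℕ).map v := by
  rw [Ultrafilter.mem_map]
  exact Filter.mem_hyperfilter_of_finite_compl h

/-- the elements of the free subgroup have no fixed vertices in the tree, when `J` is empty -/
theorem CGH.no_fix [Finite κ] (h : CGH φ (∅ : Set ι) M x r σ) (hφ : Function.Injective φ)
    {w : Set (Set (G ⧸ M))} (hw : Ori (EE M x σ) w) {f : FreeGroup ι}
    (hfw : φ f • w = w) : f = 1 := by
  by_contra hf
  have hord := not_fin_order hφ hf
  have hord' : ¬ IsOfFinOrder (φ f)⁻¹ := fun h' => hord (isOfFinOrder_inv_iff.1 h')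
  have hfw' : (φ f)⁻¹ • w = w := inv_smul_eq_iff.2 hfw.symm
  obtain ⟨g, t, b, hg⟩ := fl_hyp f hf
  have ht : t ∉ (∅ : Set ι) := notMem_empty t
  set p : Ultrafilter (G ⧸ M) := (Filter.hyperfilter ℕ).map
    (fun m => (QuotientGroup.mk ((φ f) ^ m) : G ⧸ M)) with hp
  set q : Ultrafilter (G ⧸ M) := (Filter.hyperfilter ℕ).map
    (fun m => (QuotientGroup.mk ((φ f)⁻¹ ^ m) : G ⧸ M)) with hq
  have hmem : ∀ k : FreeGroup ι, (QuotientGroup.mk (φ k) : G ⧸ M) ∈ φ g • Bc M x t b ↔
      fl (g⁻¹ * k) = some (t, b) := by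
    intro k
    rw [mem_smul_set_iff_inv_smul_mem]
    have e1 : (φ g)⁻¹ • (QuotientGroup.mk (φ k) : G ⧸ M) = QuotientGroup.mk (φ (g⁻¹ * k)) := by
      show (QuotientGroup.mk ((φ g)⁻¹ * φ k) : G ⧸ M) = _
      rw [← _root_.map_inv, ← _root_.map_mul]
    rw [e1, h.mem_Bc ht, h.x_phi]
  have hsep : SepU (φ g • Bc M x t b) p q := by
    have h1 : φ g • Bc M x t b ∈ p := by
      apply hyper_mem
      refine (Set.finite_singleton 0).subset ?_
      intro m hm
      by_contra hm0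
      apply hm
      rw [← map_pow, hmem]
      have : m ≠ 0 := hm0
      exact (hg m (by omega)).1
    have h2 : (φ g • Bc M x t b)ᶜ ∈ q := by
      apply hyper_mem
      refine (Set.finite_singleton 0).subset ?_
      intro m hm
      by_contra hm0
      apply hm
      intro hm'
      rw [← _root_.map_inv, ← map_pow, hmem] at hm'
      have : m ≠ 0 := hm0
      exact (hg m (by omega)).2 hm'
    rw [Ultrafilter.compl_mem_iff_notMem] at h2
    unfold SepU
    tauto
  obtain ⟨c, hc, hc'⟩ := h.exists_sep ht b _ hsep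
  have key : ∀ c ∈ w, c ∈ p ∧ c ∈ q := by
    intro c hc
    exact ⟨hyper_mem (h.tail_finite hw hord hfw hc), hyper_mem (h.tail_finite hw hord' hfw' hc)⟩
  apply hc'
  by_cases hcw : c ∈ w
  · exact iff_of_true (key c hcw).1 (key c hcw).2
  · have hcw' : cᶜ ∈ w := by
      by_contra h'
      exact hcw ((hw.excl c hc).2 h')
    have := key _ hcw'
    rw [Ultrafilter.compl_mem_iff_notMem, Ultrafilter.compl_mem_iff_notMem] at this
    exact iff_of_false this.1 this.2

theorem CGH.no_inv (h : CGH φ J M x r σ) (hφ : Function.Injective φ)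
    {c : Set (G ⧸ M)} (hc : c ∈ EE M x σ) {f : FreeGroup ι}
    (hfc : φ f • c = c ∨ φ f • c = cᶜ) : f = 1 := by
  by_contra hf
  have hord := not_fin_order hφ hf
  have h1 : (φ f ^ 2) • c = c := by
    rw [pow_two, mul_smul]
    rcases hfc with h' | h'
    · rw [h', h']
    · rw [h', Set.smul_set_compl, h', compl_compl]
  have h2 : ∀ j : ℕ, (φ f ^ 2) ^ j ∈ {g : G | g • c = c} := by
    intro j
    induction j with
    | zero => simp
    | succ j ih =>
      show _ • c = c
      rw [pow_succ, mul_smul, h1]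
      exact ih
  have h3 : ¬ IsOfFinOrder (φ f ^ 2) := by
    intro h3
    rw [isOfFinOrder_pow] at h3
    rcases h3 with h3 | h3
    · exact hord h3
    · omega
  have h4 : Function.Injective fun j : ℕ => (φ f ^ 2) ^ j :=
    injective_pow_iff_not_isOfFinOrder.2 h3
  exact Set.infinite_range_of_injective h4
    ((h.stab_finite hc).subset (by rintro _ ⟨j, rfl⟩; exact h2 j))

end Pool.Agent.V8H66.LR
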