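import Mathlib

/-!
# Finite edge cuts of connected graphs: tight cuts

A graph with vertex set `V` and edge set `I` is given by the two maps `s t : I → V`. It is connected if
every set of vertices without boundary edges is empty or everything.
-/

set_option autoImplicit false
set_option linter.unusedSectionVars false
set_option linter.unusedVariables false

namespace Pool.Agent.V8H66.LR

open Set

variable {V I : Type} (s t : I → V)

/-- the boundary of a set of vertices -/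
def bd (A : Set V) : Set I := {i | ¬ (s i ∈ A ↔ t i ∈ A)}

/-- the graph with the edges in `J` is connected -/
def Conn (J : Set I) : Prop := ∀ A : Set V, (∀ i ∈ J, i ∉ bd s t A) → A = ∅ ∨ A = univ

/-- `A` is connected by the edges in `J` -/
def ConnOn (J : Set I) (A : Set V) : Prop :=
  ∀ B ⊆ A, (∀ i ∈ J, s i ∈ A → t i ∈ A → (s i ∈ B ↔ t i ∈ B)) → B = ∅ ∨ B = A

variable {s t}

theorem mem_bd {A : Set V} {i : I} : i ∈ bd s t A ↔ ¬ (s i ∈ A ↔ t i ∈ A) := Iff.rfl

theorem bd_compl (A : Set V) : bd s t Aᶜ = bd s t A := by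
  ext i
  simp only [mem_bd, mem_compl_iff]
  tauto

theorem finite_sep {J : Set I} (hJ : Conn s t J) (u v : V) :
    ∃ R : Set I, R.Finite ∧ R ⊆ J ∧ ∀ B : Set V, ¬ (u ∈ B ↔ v ∈ B) → (bd s t B ∩ R).Nonempty := by
  have h := hJ {v | ∃ R : Set I, R.Finite ∧ R ⊆ J ∧
    ∀ B : Set V, ¬ (u ∈ B ↔ v ∈ B) → (bd s t B ∩ R).Nonempty} (by
      intro i hi hbd
      apply hbd
      have key : ∀ a b : V, (∀ B : Set V, ¬ (a ∈ B ↔ b ∈ B) → i ∈ bd s t B) →
          (∃ R : Set I, R.Finite ∧ R ⊆ J ∧ ∀ B : Set V, ¬ (u ∈ B ↔ a ∈ B) →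
            (bd s t B ∩ R).Nonempty) →
          (∃ R : Set I, R.Finite ∧ R ⊆ J ∧ ∀ B : Set V, ¬ (u ∈ B ↔ b ∈ B) →
            (bd s t B ∩ R).Nonempty) := by
        rintro a b hab ⟨R, h1, h2, h3⟩
        refine ⟨insert i R, h1.insert i, insert_subset hi h2, fun B hB => ?_⟩
        by_cases h : u ∈ B ↔ a ∈ B
        · exact ⟨i, hab B (by tauto), mem_insert _ _⟩
        · obtain ⟨j, hj1, hj2⟩ := h3 B h
          exact ⟨j, hj1, mem_insert_of_mem _ hj2⟩
      exact ⟨key _ _ (fun B hB => hB), key _ _ (fun B hB => by rw [mem_bd]; tauto)⟩)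
  rcases h with h | h
  · exfalso
    have : u ∈ (∅ : Set V) := by
      rw [← h]
      exact ⟨∅, finite_empty, empty_subset _, fun B hB => absurd Iff.rfl hB⟩
    exact this
  · have : v ∈ (univ : Set V) := mem_univ v
    rw [← h] at this
    exact this

theorem tight_finite (n : ℕ) : ∀ J : Set I, Conn s t J → ∀ i ∈ J,
    {A : Set V | ConnOn s t J A ∧ ConnOn s t J Aᶜ ∧ i ∈ bd s t A ∧ (bd s t A ∩ J).Finite ∧
      (bd s t A ∩ J).ncard ≤ n}.Finite := by
  induction n with
  | zero =>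
    intro J hJ i hi
    convert Set.finite_empty
    rw [Set.eq_empty_iff_forall_notMem]
    rintro A ⟨h1, h2, h3, h4, h5⟩
    have h6 : (bd s t A ∩ J).ncard = 0 := by omega
    rw [Set.ncard_eq_zero h4] at h6
    have : i ∈ (∅ : Set I) := by rw [← h6]; exact ⟨h3, hi⟩
    exact this
  | succ n ih =>
    intro J hJ i hi
    by_cases hc : Conn s t (J \ {i})
    · obtain ⟨R, hR1, hR2, hR3⟩ := finite_sep hc (s i) (t i)
      have hfin : (⋃ j ∈ R, {A : Set V | ConnOn s t (J \ {i}) A ∧ ConnOn s t (J \ {i}) Aᶜ ∧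
          j ∈ bd s t A ∧ (bd s t A ∩ (J \ {i})).Finite ∧
          (bd s t A ∩ (J \ {i})).ncard ≤ n}).Finite :=
        hR1.biUnion fun j hj => ih _ hc j (hR2 hj)
      refine hfin.subset ?_
      rintro A ⟨h1, h2, h3, h4, h5⟩
      obtain ⟨j, hj1, hj2⟩ := hR3 A h3
      rw [mem_iUnion₂]
      have e : bd s t A ∩ (J \ {i}) = (bd s t A ∩ J) \ {i} := by
        ext x; simp only [mem_inter_iff, mem_sdiff]; tauto
      refine ⟨j, hj2, ?_, ?_, hj1, ?_, ?_⟩
      · intro B hB hc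
        apply h1 B hB
        intro k hk hs ht
        by_cases hki : k = i
        · subst hki
          exact absurd (iff_of_true hs ht) h3
        · exact hc k ⟨hk, hki⟩ hs ht
      · intro B hB hc
        apply h2 B hB
        intro k hk hs ht
        by_cases hki : k = i
        · subst hki
          exact absurd (iff_of_false hs ht) h3
        · exact hc k ⟨hk, hki⟩ hs ht
      · rw [e]; exact h4.sdiff
      · rw [e, Set.ncard_sdiff_singleton_of_mem (show i ∈ bd s t A ∩ J from ⟨h3, hi⟩)]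
        omega
    · unfold Conn at hc
      push Not at hc
      obtain ⟨D, hD1, hD2, hD3⟩ := hc
      refine (Set.toFinite ({D, Dᶜ} : Set (Set V))).subset ?_
      rintro A ⟨h1, h2, h3, h4, h5⟩
      have g1 := h1 (A ∩ D) inter_subset_left (by
        intro k hk hs ht
        by_cases hki : k = i
        · subst hki
          exact absurd (iff_of_true hs ht) h3
        · have := hD1 k ⟨hk, hki⟩
          rw [mem_bd, not_not] at this
          simp only [mem_inter_iff]
          tauto)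
      have g2 := h2 (Aᶜ ∩ D) inter_subset_left (by
        intro k hk hs ht
        by_cases hki : k = i
        · subst hki
          exact absurd (iff_of_false hs ht) h3
        · have := hD1 k ⟨hk, hki⟩
          rw [mem_bd, not_not] at this
          simp only [mem_inter_iff]
          tauto)
      have hDu : D = (A ∩ D) ∪ (Aᶜ ∩ D) := by
        ext x; simp only [mem_union, mem_inter_iff, mem_compl_iff]; tauto
      rcases g1 with g1 | g1 <;> rcases g2 with g2 | g2
      · rw [g1, g2, union_empty] at hDu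
        exact absurd hDu (Set.nonempty_iff_ne_empty.1 hD2)
      · rw [g1, g2, empty_union] at hDu
        right
        rw [mem_singleton_iff, hDu, compl_compl]
      · rw [g1, g2, union_empty] at hDu
        left
        exact hDu.symm
      · rw [g1, g2, union_compl_self] at hDu
        exact absurd hDu hD3

/-- number of boundary edges -/
noncomputable def sz (s t : I → V) (A : Set V) : ℕ := (bd s t A).ncard

theorem sz_compl (A : Set V) : sz s t Aᶜ = sz s t A := by
  unfold sz; rw [bd_compl]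

theorem fin_inter {A B : Set V} (hA : (bd s t A).Finite) (hB : (bd s t B).Finite) :
    (bd s t (A ∩ B)).Finite := by
  refine (hA.union hB).subset ?_
  intro i hi
  simp only [mem_bd, mem_inter_iff, mem_union] at *
  tauto

theorem fin_compl {A : Set V} (hA : (bd s t A).Finite) : (bd s t Aᶜ).Finite := by
  rw [bd_compl]; exact hA

theorem submod {A B : Set V} (hA : (bd s t A).Finite) (hB : (bd s t B).Finite) :
    sz s t (A ∩ B) + sz s t (Aᶜ ∩ Bᶜ) ≤ sz s t A + sz s t B := by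
  have h1 : (bd s t (A ∩ B)).Finite := fin_inter hA hB
  have h2 : (bd s t (Aᶜ ∩ Bᶜ)).Finite := fin_inter (fin_compl hA) (fin_compl hB)
  unfold sz
  rw [← Set.ncard_union_add_ncard_inter _ _ h1 h2, ← Set.ncard_union_add_ncard_inter _ _ hA hB]
  apply Nat.add_le_add
  · apply Set.ncard_le_ncard _ (hA.union hB)
    intro i hi
    simp only [mem_bd, mem_inter_iff, mem_union, mem_compl_iff] at *
    tauto
  · apply Set.ncard_le_ncard _ (hA.inter_of_left _)
    intro i hi
    simp only [mem_bd, mem_inter_iff, mem_compl_iff] at *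
    tauto

/-- the two sets cross -/
def Cross (A B : Set V) : Prop :=
  (A ∩ B).Nonempty ∧ (A ∩ Bᶜ).Nonempty ∧ (Aᶜ ∩ B).Nonempty ∧ (Aᶜ ∩ Bᶜ).Nonempty

theorem Cross.symm {A B : Set V} (h : Cross A B) : Cross B A := by
  obtain ⟨h1, h2, h3, h4⟩ := h
  refine ⟨?_, ?_, ?_, ?_⟩ <;> rw [inter_comm] <;> assumption

theorem Cross.compl_left {A B : Set V} (h : Cross A B) : Cross Aᶜ B := by
  obtain ⟨h1, h2, h3, h4⟩ := h
  exact ⟨h3, h4, by rwa [compl_compl], by rwa [compl_compl]⟩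

theorem Cross.compl_right {A B : Set V} (h : Cross A B) : Cross A Bᶜ := h.symm.compl_left.symm

theorem cross_compl_left {A B : Set V} : Cross Aᶜ B ↔ Cross A B :=
  ⟨fun h => by have := h.compl_left; rwa [compl_compl] at this, fun h => h.compl_left⟩

theorem cross_compl_right {A B : Set V} : Cross A Bᶜ ↔ Cross A B :=
  ⟨fun h => by have := h.compl_right; rwa [compl_compl] at this, fun h => h.compl_right⟩

/-- not crossing means nested -/
theorem not_cross {A B : Set V} (h : ¬ Cross A B) : A ⊆ B ∨ A ⊆ Bᶜ ∨ Aᶜ ⊆ B ∨ Aᶜ ⊆ Bᶜ := by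
  unfold Cross at h
  rw [not_and_or, not_and_or, not_and_or] at h
  rcases h with h | h | h | h <;> rw [Set.not_nonempty_iff_eq_empty] at h
  · right; left
    intro x hx hx'
    have : x ∈ A ∩ B := ⟨hx, hx'⟩
    rw [h] at this; exact this
  · left
    intro x hx
    by_contra hx'
    have : x ∈ A ∩ Bᶜ := ⟨hx, hx'⟩
    rw [h] at this; exact this
  · right; right; right
    intro x hx hx'
    have : x ∈ Aᶜ ∩ B := ⟨hx, hx'⟩
    rw [h] at this; exact this
  · right; right; left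
    intro x hx
    by_contra hx'
    have : x ∈ Aᶜ ∩ Bᶜ := ⟨hx, hx'⟩
    rw [h] at this; exact this

/-- `A` separates the ultrafilters -/
def SepU (A : Set V) (p q : Ultrafilter V) : Prop := ¬ (A ∈ p ↔ A ∈ q)

theorem sepU_compl {A : Set V} {p q : Ultrafilter V} : SepU Aᶜ p q ↔ SepU A p q := by
  unfold SepU
  rw [Ultrafilter.compl_mem_iff_notMem, Ultrafilter.compl_mem_iff_notMem]
  tauto

/-- the minimal cuts separating two ultrafilters -/
def Cs (s t : I → V) (n : ℕ) (p q : Ultrafilter V) (A : Set V) : Prop :=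
  (bd s t A).Finite ∧ SepU A p q ∧ sz s t A ≤ n ∧
    ∀ A', (bd s t A').Finite → SepU A' p q → sz s t A ≤ sz s t A'

/-- all minimal cuts -/
def Cu (s t : I → V) (n : ℕ) (A : Set V) : Prop := ∃ p q, Cs s t n p q A

theorem Cs.compl {n : ℕ} {p q : Ultrafilter V} {A : Set V} (h : Cs s t n p q A) :
    Cs s t n p q Aᶜ := by
  obtain ⟨h1, h2, h3, h4⟩ := h
  refine ⟨fin_compl h1, sepU_compl.2 h2, by rwa [sz_compl], ?_⟩
  rw [sz_compl]; exact h4

theorem Cs.connOn {n : ℕ} {p q : Ultrafilter V} {A : Set V} (hX : Conn s t univ)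
    (h : Cs s t n p q A) : ConnOn s t univ A := by
  obtain ⟨h1, h2, h3, h4⟩ := h
  intro B hB hc
  by_contra hcon
  push Not at hcon
  obtain ⟨hB1, hB2⟩ := hcon
  have hAB : A = B ∪ (A \ B) := by
    ext x; simp only [mem_union, mem_sdiff]
    constructor
    · intro hx; by_cases hb : x ∈ B <;> tauto
    · rintro (hx | hx)
      · exact hB hx
      · exact hx.1
  -- boundaries
  have b1 : bd s t B ⊆ bd s t A := by
    intro i hi
    rw [mem_bd] at *
    intro hA
    apply hi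
    by_cases hs : s i ∈ A
    · exact hc i (mem_univ _) hs (hA.1 hs)
    · exact iff_of_false (fun h => hs (hB h)) (fun h => hs (hA.2 (hB h)))
  have b2 : bd s t (A \ B) ⊆ bd s t A := by
    intro i hi
    rw [mem_bd] at *
    intro hA
    apply hi
    by_cases hs : s i ∈ A
    · have := hc i (mem_univ _) hs (hA.1 hs)
      simp only [mem_sdiff]; tauto
    · simp only [mem_sdiff]; tauto
  have b3 : Disjoint (bd s t B) (bd s t (A \ B)) := by
    rw [Set.disjoint_left]
    intro i hi hi'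
    have hA := b1 hi
    rw [mem_bd] at *
    simp only [mem_sdiff] at hi'
    by_cases hs : s i ∈ A
    · by_cases ht : t i ∈ A
      · have := hc i (mem_univ _) hs ht
        tauto
      · have : t i ∉ B := fun h => ht (hB h)
        tauto
    · have : s i ∉ B := fun h => hs (hB h)
      tauto
  have hne1 : (bd s t B).Nonempty := by
    by_contra hcon
    rw [Set.not_nonempty_iff_eq_empty] at hcon
    rcases hX B (fun i _ => by rw [hcon]; exact notMem_empty i) with h | h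
    · exact (Set.nonempty_iff_ne_empty.1 hB1) h
    · exact hB2 (Set.Subset.antisymm hB (by rw [h]; exact subset_univ _))
  have hne2 : (bd s t (A \ B)).Nonempty := by
    by_contra hcon
    rw [Set.not_nonempty_iff_eq_empty] at hcon
    rcases hX (A \ B) (fun i _ => by rw [hcon]; exact notMem_empty i) with h | h
    · rw [h, union_empty] at hAB
      exact hB2 hAB.symm
    · obtain ⟨x, hx⟩ := hB1
      have : x ∈ A \ B := by rw [h]; exact mem_univ x
      exact this.2 hx
  have l1 : sz s t B < sz s t A := by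
    apply Set.ncard_lt_ncard _ h1
    refine ⟨b1, fun hsub => ?_⟩
    obtain ⟨i, hi⟩ := hne2
    exact Set.disjoint_left.1 b3 (hsub (b2 hi)) hi
  have l2 : sz s t (A \ B) < sz s t A := by
    apply Set.ncard_lt_ncard _ h1
    refine ⟨b2, fun hsub => ?_⟩
    obtain ⟨i, hi⟩ := hne1
    exact Set.disjoint_left.1 b3 hi (hsub (b1 hi))
  have hsep : SepU B p q ∨ SepU (A \ B) p q := by
    by_contra hcon
    push Not at hcon
    unfold SepU at hcon h2
    rw [not_not, not_not] at hcon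
    apply h2
    rw [hAB, Ultrafilter.union_mem_iff, Ultrafilter.union_mem_iff, hcon.1, hcon.2]
  rcases hsep with hsep | hsep
  · have := h4 B (h1.subset b1) hsep
    omega
  · have := h4 (A \ B) (h1.subset b2) hsep
    omega

theorem Cu.compl {n : ℕ} {A : Set V} (h : Cu s t n A) : Cu s t n Aᶜ := by
  obtain ⟨p, q, h⟩ := h
  exact ⟨p, q, h.compl⟩

theorem cu_finite (hX : Conn s t univ) (n : ℕ) (i : I) :
    {A : Set V | Cu s t n A ∧ i ∈ bd s t A}.Finite := by
  refine (tight_finite (s := s) (t := t) n univ hX i (mem_univ i)).subset ?_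
  rintro A ⟨⟨p, q, h⟩, hi⟩
  refine ⟨h.connOn hX, h.compl.connOn hX, hi, ?_, ?_⟩
  · rw [inter_univ]; exact h.1
  · rw [inter_univ]; exact h.2.2.1

theorem cross_finite (hX : Conn s t univ) (n : ℕ) {A : Set V} (hA : (bd s t A).Finite) :
    {B : Set V | Cu s t n B ∧ Cross A B}.Finite := by
  by_cases hne : (bd s t A).Nonempty
  · obtain ⟨i0, hi0⟩ := hne
    choose R hR1 hR2 hR3 using fun v => finite_sep hX (s i0) v
    have hRfin : (⋃ i ∈ bd s t A, (R (s i) ∪ R (t i))).Finite :=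
      hA.biUnion fun i _ => (hR1 _).union (hR1 _)
    have hfin : (⋃ j ∈ (⋃ i ∈ bd s t A, (R (s i) ∪ R (t i))),
        {B : Set V | Cu s t n B ∧ j ∈ bd s t B}).Finite :=
      hRfin.biUnion fun j _ => cu_finite hX n j
    refine hfin.subset ?_
    rintro B ⟨hB, hAB⟩
    by_contra hcon
    have hno : ∀ i ∈ bd s t A, ((s i0 ∈ B ↔ s i ∈ B) ∧ (s i0 ∈ B ↔ t i ∈ B)) := by
      intro i hi
      constructor
      · by_contra h
        obtain ⟨j, hj1, hj2⟩ := hR3 _ B h
        apply hcon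
        rw [mem_iUnion₂]
        refine ⟨j, ?_, hB, hj1⟩
        rw [mem_iUnion₂]
        exact ⟨i, hi, Or.inl hj2⟩
      · by_contra h
        obtain ⟨j, hj1, hj2⟩ := hR3 _ B h
        apply hcon
        rw [mem_iUnion₂]
        refine ⟨j, ?_, hB, hj1⟩
        rw [mem_iUnion₂]
        exact ⟨i, hi, Or.inr hj2⟩
    obtain ⟨p, q, hpq⟩ := hB
    by_cases h0 : s i0 ∈ B
    · rcases hpq.compl.connOn hX (A ∩ Bᶜ) inter_subset_right (by
        intro j _ hs ht
        have : j ∉ bd s t A := fun hj => hs (((hno j hj).1).1 h0)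
        rw [mem_bd, not_not] at this
        simp only [mem_inter_iff]; tauto) with h | h
      · exact (Set.nonempty_iff_ne_empty.1 hAB.2.1) h
      · obtain ⟨x, hx1, hx2⟩ := hAB.2.2.2
        rw [← h] at hx2
        exact hx1 hx2.1
    · rcases hpq.connOn hX (A ∩ B) inter_subset_right (by
        intro j _ hs ht
        have : j ∉ bd s t A := fun hj => h0 (((hno j hj).1).2 hs)
        rw [mem_bd, not_not] at this
        simp only [mem_inter_iff]; tauto) with h | h
      · exact (Set.nonempty_iff_ne_empty.1 hAB.1) h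
      · obtain ⟨x, hx1, hx2⟩ := hAB.2.2.1
        rw [← h] at hx2
        exact hx1 hx2.1
  · convert Set.finite_empty
    rw [Set.eq_empty_iff_forall_notMem]
    rintro B ⟨-, hB⟩
    rw [Set.not_nonempty_iff_eq_empty] at hne
    rcases hX A (fun i _ => by rw [hne]; exact notMem_empty i) with h | h
    · have := hB.1
      rw [h, empty_inter] at this
      exact Set.not_nonempty_empty this
    · have := hB.2.2.1
      rw [h, compl_univ, empty_inter] at this
      exact Set.not_nonempty_empty this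

/-- number of crossings -/
noncomputable def mu (s t : I → V) (n : ℕ) (A : Set V) : ℕ := {B : Set V | Cu s t n B ∧ Cross A B}.ncard

theorem mu_compl (n : ℕ) (A : Set V) : mu s t n Aᶜ = mu s t n A := by
  unfold mu
  congr 1
  ext B
  simp only [mem_ofPred_eq, cross_compl_left]

theorem corner_cross {A B D : Set V} (hAB : Cross A B) (hD : Cross (A ∩ B) D) :
    Cross A D ∨ Cross B D := by
  by_contra hcon
  push Not at hcon
  obtain ⟨h1, h2⟩ := hcon
  obtain ⟨⟨x1, a1, b1⟩, ⟨x2, a2, b2⟩, ⟨x3, a3, b3⟩, ⟨x4, a4, b4⟩⟩ := hAB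
  obtain ⟨⟨y1, c1, d1⟩, ⟨y2, c2, d2⟩, ⟨y3, c3, d3⟩, ⟨y4, c4, d4⟩⟩ := hD
  rcases not_cross h1 with g | g | g | g
  · exact d2 (g c2.1)
  · exact g c1.1 d1
  · rcases not_cross h2 with g' | g' | g' | g'
    · exact d2 (g' c2.2)
    · exact g' c1.2 d1
    · apply c4
      constructor
      · by_contra h; exact d4 (g h)
      · by_contra h; exact d4 (g' h)
    · exact g' b4 (g a4)
  · rcases not_cross h2 with g' | g' | g' | g'
    · exact d2 (g' c2.2)
    · exact g' c1.2 d1
    · exact g a4 (g' b4)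
    · apply c3
      constructor
      · by_contra h; exact g h d3
      · by_contra h; exact g' h d3

theorem corner_cross2 {A B D : Set V} (hD : Cross (A ∩ B) D) (hD' : Cross (Aᶜ ∩ Bᶜ) D) :
    Cross A D ∧ Cross B D := by
  have key : ∀ A B : Set V, Cross (A ∩ B) D → Cross (Aᶜ ∩ Bᶜ) D → Cross A D := by
    intro A B hD hD'
    by_contra h1
    obtain ⟨⟨y1, c1, d1⟩, ⟨y2, c2, d2⟩, ⟨y3, c3, d3⟩, ⟨y4, c4, d4⟩⟩ := hD
    obtain ⟨⟨z1, e1, f1⟩, ⟨z2, e2, f2⟩, ⟨z3, e3, f3⟩, ⟨z4, e4, f4⟩⟩ := hD'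
    rcases not_cross h1 with g | g | g | g
    · exact d2 (g c2.1)
    · exact g c1.1 d1
    · exact f2 (g e2.1)
    · exact g e1.1 f1
  refine ⟨key A B hD hD', key B A ?_ ?_⟩
  · rwa [inter_comm]
  · rwa [inter_comm]

theorem mu_lt (hX : Conn s t univ) {n : ℕ} {A B : Set V} (hA : (bd s t A).Finite)
    (hB : (bd s t B).Finite) (hBc : Cu s t n B) (hAB : Cross A B) :
    mu s t n (A ∩ B) + mu s t n (Aᶜ ∩ Bᶜ) < mu s t n A + mu s t n B := by
  have h1 := cross_finite hX n (fin_inter hA hB)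
  have h2 := cross_finite hX n (fin_inter (fin_compl hA) (fin_compl hB))
  have h3 := cross_finite hX n hA
  have h4 := cross_finite hX n hB
  have hAB' : Cross Aᶜ Bᶜ := hAB.compl_left.compl_right
  unfold mu
  rw [← Set.ncard_union_add_ncard_inter _ _ h1 h2, ← Set.ncard_union_add_ncard_inter _ _ h3 h4]
  apply Nat.add_lt_add_of_lt_of_le
  · apply Set.ncard_lt_ncard _ (h3.union h4)
    refine ⟨?_, fun hsub => ?_⟩
    · rintro D (⟨hD1, hD2⟩ | ⟨hD1, hD2⟩)
      · rcases corner_cross hAB hD2 with h | h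
        · exact Or.inl ⟨hD1, h⟩
        · exact Or.inr ⟨hD1, h⟩
      · rcases corner_cross hAB' hD2 with h | h
        · exact Or.inl ⟨hD1, cross_compl_left.1 h⟩
        · exact Or.inr ⟨hD1, cross_compl_left.1 h⟩
    · rcases hsub (Or.inl ⟨hBc, hAB⟩) with ⟨-, h⟩ | ⟨-, h⟩
      · obtain ⟨x, hx1, hx2⟩ := h.2.1
        exact hx2 hx1.2
      · obtain ⟨x, hx1, hx2⟩ := h.1
        exact hx1.2 hx2
  · apply Set.ncard_le_ncard _ (h3.inter_of_left _)
    rintro D ⟨⟨hD1, hD2⟩, ⟨-, hD3⟩⟩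
    obtain ⟨h5, h6⟩ := corner_cross2 hD2 hD3
    exact ⟨⟨hD1, h5⟩, ⟨hD1, h6⟩⟩

/-- optimal cuts -/
def Opt (s t : I → V) (n : ℕ) (A : Set V) : Prop :=
  ∃ p q, Cs s t n p q A ∧ ∀ A', Cs s t n p q A' → mu s t n A ≤ mu s t n A'

theorem Opt.compl {n : ℕ} {A : Set V} (h : Opt s t n A) : Opt s t n Aᶜ := by
  obtain ⟨p, q, h1, h2⟩ := h
  exact ⟨p, q, h1.compl, fun A' hA' => by rw [mu_compl]; exact h2 A' hA'⟩

theorem key_corner (hX : Conn s t univ) {n : ℕ} {A B : Set V} {p q p' q' : Ultrafilter V}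
    (hA : Cs s t n p q A) (hA' : ∀ A', Cs s t n p q A' → mu s t n A ≤ mu s t n A')
    (hB : Cs s t n p' q' B) (hB' : ∀ A', Cs s t n p' q' A' → mu s t n B ≤ mu s t n A')
    (hAB : Cross A B) (h1 : SepU (A ∩ B) p q) (h2 : SepU (Aᶜ ∩ Bᶜ) p' q') : False := by
  have f1 := fin_inter hA.1 hB.1
  have f2 := fin_inter (fin_compl hA.1) (fin_compl hB.1)
  have s1 := hA.2.2.2 _ f1 h1
  have s2 := hB.2.2.2 _ f2 h2
  have s3 := submod hA.1 hB.1
  have e1 : sz s t (A ∩ B) = sz s t A := by omega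
  have e2 : sz s t (Aᶜ ∩ Bᶜ) = sz s t B := by omega
  have c1 : Cs s t n p q (A ∩ B) := ⟨f1, h1, by rw [e1]; exact hA.2.2.1, fun A' h h' => by
    rw [e1]; exact hA.2.2.2 A' h h'⟩
  have c2 : Cs s t n p' q' (Aᶜ ∩ Bᶜ) := ⟨f2, h2, by rw [e2]; exact hB.2.2.1, fun A' h h' => by
    rw [e2]; exact hB.2.2.2 A' h h'⟩
  have m1 := hA' _ c1
  have m2 := hB' _ c2
  have m3 := mu_lt hX hA.1 hB.1 ⟨p', q', hB⟩ hAB
  omega

theorem special (hX : Conn s t univ) {n : ℕ} {A B : Set V} {p q p' q' : Ultrafilter V}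
    (hA : Cs s t n p q A) (hA' : ∀ A', Cs s t n p q A' → mu s t n A ≤ mu s t n A')
    (hB : Cs s t n p' q' B) (hB' : ∀ A', Cs s t n p' q' A' → mu s t n B ≤ mu s t n A')
    (hAB : Cross A B) (hBp : SepU B p q) (hAp : SepU A p' q')
    (h1 : SepU (A ∩ B) p q) (h2 : SepU (Aᶜ ∩ Bᶜ) p q)
    (h3 : SepU (A ∩ Bᶜ) p' q') (h4 : SepU (Aᶜ ∩ B) p' q') : False := by
  have l1 := hA.2.2.2 _ hB.1 hBp
  have l2 := hB.2.2.2 _ hA.1 hAp
  have f1 := fin_inter hA.1 hB.1
  have f2 := fin_inter (fin_compl hA.1) (fin_compl hB.1)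
  have f3 := fin_inter hA.1 (fin_compl hB.1)
  have f4 := fin_inter (fin_compl hA.1) hB.1
  have s1 := hA.2.2.2 _ f1 h1
  have s2 := hA.2.2.2 _ f2 h2
  have s3 := hB.2.2.2 _ f3 h3
  have s4 := hB.2.2.2 _ f4 h4
  have t1 := submod hA.1 hB.1
  have t2 := submod hA.1 (fin_compl hB.1)
  rw [compl_compl, sz_compl] at t2
  have e1 : sz s t (A ∩ B) = sz s t A := by omega
  have e2 : sz s t (Aᶜ ∩ Bᶜ) = sz s t A := by omega
  have e3 : sz s t (A ∩ Bᶜ) = sz s t B := by omega
  have e4 : sz s t (Aᶜ ∩ B) = sz s t B := by omega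
  have c1 : Cs s t n p q (A ∩ B) := ⟨f1, h1, by rw [e1]; exact hA.2.2.1, fun A' h h' => by
    rw [e1]; exact hA.2.2.2 A' h h'⟩
  have c2 : Cs s t n p q (Aᶜ ∩ Bᶜ) := ⟨f2, h2, by rw [e2]; exact hA.2.2.1, fun A' h h' => by
    rw [e2]; exact hA.2.2.2 A' h h'⟩
  have c3 : Cs s t n p' q' (A ∩ Bᶜ) := ⟨f3, h3, by rw [e3]; exact hB.2.2.1, fun A' h h' => by
    rw [e3]; exact hB.2.2.2 A' h h'⟩
  have c4 : Cs s t n p' q' (Aᶜ ∩ B) := ⟨f4, h4, by rw [e4]; exact hB.2.2.1, fun A' h h' => by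
    rw [e4]; exact hB.2.2.2 A' h h'⟩
  have m1 := hA' _ c1
  have m2 := hA' _ c2
  have m3 := hB' _ c3
  have m4 := hB' _ c4
  have n1 := mu_lt hX hA.1 hB.1 ⟨p', q', hB⟩ hAB
  have n2 := mu_lt hX hA.1 (fin_compl hB.1) ⟨p', q', hB.compl⟩ hAB.compl_right
  rw [compl_compl, mu_compl] at n2
  omega

theorem bool_lem : ∀ x1 x2 x3 x4 y1 y2 y3 y4 : Bool, (x1 ≠ x2) → (y3 ≠ y4) →
    ((x1 && y1) ≠ (x2 && y2) → (!x3 && !y3) ≠ (!x4 && !y4) → False) →
    ((!x1 && !y1) ≠ (!x2 && !y2) → (x3 && y3) ≠ (x4 && y4) → False) →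
    ((x1 && !y1) ≠ (x2 && !y2) → (!x3 && y3) ≠ (!x4 && y4) → False) →
    ((!x1 && y1) ≠ (!x2 && y2) → (x3 && !y3) ≠ (x4 && !y4) → False) →
    (y1 ≠ y2 → x3 ≠ x4 → (x1 && y1) ≠ (x2 && y2) → (!x1 && !y1) ≠ (!x2 && !y2) →
      (x3 && !y3) ≠ (x4 && !y4) → (!x3 && y3) ≠ (!x4 && y4) → False) →
    (y1 ≠ y2 → x3 ≠ x4 → (x1 && !y1) ≠ (x2 && !y2) → (!x1 && y1) ≠ (!x2 && y2) →
      (x3 && y3) ≠ (x4 && y4) → (!x3 && !y3) ≠ (!x4 && !y4) → False) → False := by
  rintro (_|_) (_|_) (_|_) (_|_) (_|_) (_|_) (_|_) (_|_) <;> simp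

open Classical in
/-- membership as a Boolean -/
noncomputable def ub (A : Set V) (p : Ultrafilter V) : Bool := decide (A ∈ p)

theorem ub_iff {A : Set V} {p : Ultrafilter V} : ub A p = true ↔ A ∈ p := by
  unfold ub; simp

theorem sepU_iff {A : Set V} {p q : Ultrafilter V} : SepU A p q ↔ ub A p ≠ ub A q := by
  unfold SepU
  rw [← ub_iff, ← ub_iff]
  cases ub A p <;> cases ub A q <;> simp

theorem ub_compl (A : Set V) (p : Ultrafilter V) : ub Aᶜ p = !ub A p := by
  have h : Aᶜ ∈ p ↔ ¬ A ∈ p := Ultrafilter.compl_mem_iff_notMem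
  rw [← ub_iff, ← ub_iff] at h
  cases h1 : ub A p <;> cases h2 : ub Aᶜ p <;> simp_all

theorem ub_inter (A B : Set V) (p : Ultrafilter V) : ub (A ∩ B) p = (ub A p && ub B p) := by
  have h : A ∩ B ∈ p ↔ A ∈ p ∧ B ∈ p := Filter.inter_mem_iff
  rw [← ub_iff, ← ub_iff, ← ub_iff] at h
  cases h1 : ub A p <;> cases h2 : ub B p <;> cases h3 : ub (A ∩ B) p <;> simp_all

theorem Opt.nested (hX : Conn s t univ) {n : ℕ} {A B : Set V} (hA : Opt s t n A)
    (hB : Opt s t n B) : ¬ Cross A B := by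
  intro hAB
  obtain ⟨p, q, hA, hA'⟩ := hA
  obtain ⟨p', q', hB, hB'⟩ := hB
  have cA := hA.compl
  have cA' : ∀ A', Cs s t n p q A' → mu s t n Aᶜ ≤ mu s t n A' := by
    rw [mu_compl]; exact hA'
  have cB := hB.compl
  have cB' : ∀ A', Cs s t n p' q' A' → mu s t n Bᶜ ≤ mu s t n A' := by
    rw [mu_compl]; exact hB'
  have k1 := fun h1 h2 => key_corner hX hA hA' hB hB' hAB h1 h2
  have k2 := fun h1 h2 => key_corner hX cA cA' cB cB' hAB.compl_left.compl_right h1 h2
  have k3 := fun h1 h2 => key_corner hX hA hA' cB cB' hAB.compl_right h1 h2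
  have k4 := fun h1 h2 => key_corner hX cA cA' hB hB' hAB.compl_left h1 h2
  have k5 := special hX hA hA' hB hB' hAB
  have k6 := special hX hA hA' cB cB' hAB.compl_right
  have a1 := hA.2.1
  have b1 := hB.2.1
  simp only [compl_compl] at k2 k3 k4 k6
  simp only [sepU_iff, ub_inter, ub_compl] at a1 b1 k1 k2 k3 k4 k5 k6
  refine bool_lem _ _ _ _ _ _ _ _ a1 b1 k1 k2 k3 k4 k5 ?_
  intro h1 h2
  refine k6 ?_ h2
  intro h; apply h1; revert h
  cases ub B p <;> cases ub B q <;> simp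

end Pool.Agent.V8H66.LR
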