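import Pool.Agent.V8H66.LR.Cuts

/-!
# Tight cuts: existence, finiteness, equivariance
-/

set_option autoImplicit false
set_option linter.unusedSectionVars false
set_option linter.unusedVariables false

namespace Pool.Agent.V8H66.LR

open Set

variable {V I : Type} {s t : I → V}

theorem opt_exists {n : ℕ} {p q : Ultrafilter V} (U : Set V) (hU : (bd s t U).Finite)
    (hn : sz s t U ≤ n) (hsep : SepU U p q) : ∃ c, Opt s t n c ∧ SepU c p q := by
  have h1 : ∃ k, ∃ A, (bd s t A).Finite ∧ SepU A p q ∧ sz s t A = k := ⟨_, U, hU, hsep, rfl⟩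
  classical
  obtain ⟨A, hA1, hA2, hA3⟩ := Nat.find_spec h1
  have hmin : ∀ A', (bd s t A').Finite → SepU A' p q → sz s t A ≤ sz s t A' := by
    intro A' h h'
    rw [hA3]
    exact Nat.find_min' h1 ⟨A', h, h', rfl⟩
  have hCs : Cs s t n p q A := ⟨hA1, hA2, (hmin U hU hsep).trans hn, hmin⟩
  have h2 : ∃ k, ∃ A, Cs s t n p q A ∧ mu s t n A = k := ⟨_, A, hCs, rfl⟩
  obtain ⟨B, hB1, hB2⟩ := Nat.find_spec h2
  refine ⟨B, ⟨p, q, hB1, ?_⟩, hB1.2.1⟩
  intro A' hA'
  rw [hB2]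
  exact Nat.find_min' h2 ⟨A', hA', rfl⟩

theorem Opt.fin {n : ℕ} {A : Set V} (h : Opt s t n A) : (bd s t A).Finite := by
  obtain ⟨p, q, h, -⟩ := h
  exact h.1

theorem Opt.cu {n : ℕ} {A : Set V} (h : Opt s t n A) : Cu s t n A := by
  obtain ⟨p, q, h, -⟩ := h
  exact ⟨p, q, h⟩

theorem Opt.ne_empty {n : ℕ} {A : Set V} (h : Opt s t n A) : A ≠ ∅ := by
  obtain ⟨p, q, h, -⟩ := h
  rintro rfl
  apply h.2.1
  exact iff_of_false Ultrafilter.empty_notMem Ultrafilter.empty_notMem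

theorem Opt.bd_nonempty (hX : Conn s t univ) {n : ℕ} {A : Set V} (h : Opt s t n A) :
    (bd s t A).Nonempty := by
  by_contra hcon
  rw [Set.not_nonempty_iff_eq_empty] at hcon
  rcases hX A (fun i _ => by rw [hcon]; exact notMem_empty i) with h' | h'
  · exact h.ne_empty h'
  · apply h.compl.ne_empty
    rw [h', compl_univ]

theorem opt_interval (hX : Conn s t univ) (n : ℕ) (v w : V) :
    {c : Set V | Opt s t n c ∧ ¬ (v ∈ c ↔ w ∈ c)}.Finite := by
  obtain ⟨R, hR1, hR2, hR3⟩ := finite_sep hX v w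
  have hfin : (⋃ j ∈ R, {A : Set V | Cu s t n A ∧ j ∈ bd s t A}).Finite :=
    hR1.biUnion fun j _ => cu_finite hX n j
  refine hfin.subset ?_
  rintro c ⟨hc, hvw⟩
  obtain ⟨j, hj1, hj2⟩ := hR3 c hvw
  rw [mem_iUnion₂]
  exact ⟨j, hj2, hc.cu, hj1⟩

theorem sepU_pure {A : Set V} {v w : V} : SepU A (pure v) (pure w) ↔ ¬ (v ∈ A ↔ w ∈ A) := by
  unfold SepU
  rw [Ultrafilter.mem_pure, Ultrafilter.mem_pure]

section Act

open Pointwise

variable {G : Type} [Group G] [MulAction G V] [MulAction G I]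

theorem bd_smul (hs : ∀ (g : G) i, s (g • i) = g • s i) (ht : ∀ (g : G) i, t (g • i) = g • t i)
    (g : G) (A : Set V) : bd s t (g • A) = g • bd s t A := by
  ext i
  rw [mem_smul_set_iff_inv_smul_mem, mem_bd, mem_bd, mem_smul_set_iff_inv_smul_mem,
    mem_smul_set_iff_inv_smul_mem, hs, ht]

theorem sz_smul (hs : ∀ (g : G) i, s (g • i) = g • s i) (ht : ∀ (g : G) i, t (g • i) = g • t i)
    (g : G) (A : Set V) : sz s t (g • A) = sz s t A := by
  unfold sz
  rw [bd_smul hs ht, ← Set.image_smul, Set.ncard_image_of_injective _ (MulAction.injective g)]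

theorem fin_smul (hs : ∀ (g : G) i, s (g • i) = g • s i) (ht : ∀ (g : G) i, t (g • i) = g • t i)
    (g : G) {A : Set V} (h : (bd s t A).Finite) : (bd s t (g • A)).Finite := by
  rw [bd_smul hs ht, ← Set.image_smul]
  exact h.image _

/-- translate of an ultrafilter -/
def tu (g : G) (p : Ultrafilter V) : Ultrafilter V := p.map (fun x => g • x)

theorem mem_tu {g : G} {p : Ultrafilter V} {A : Set V} : g • A ∈ tu g p ↔ A ∈ p := by
  unfold tu
  rw [Ultrafilter.mem_map]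
  have : (fun x => g • x) ⁻¹' (g • A) = A := by
    ext x
    simp only [mem_preimage, smul_mem_smul_set_iff]
  rw [this]

theorem tu_tu_inv (g : G) (p : Ultrafilter V) : tu g⁻¹ (tu g p) = p := by
  apply Ultrafilter.ext
  intro A
  have := mem_tu (g := g⁻¹) (p := tu g p) (A := g • A)
  rw [inv_smul_smul, mem_tu] at this
  exact this

theorem sepU_smul {g : G} {p q : Ultrafilter V} {A : Set V} :
    SepU (g • A) (tu g p) (tu g q) ↔ SepU A p q := by
  unfold SepU
  rw [mem_tu, mem_tu]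

theorem Cs.smul (hs : ∀ (g : G) i, s (g • i) = g • s i) (ht : ∀ (g : G) i, t (g • i) = g • t i)
    (g : G) {n : ℕ} {p q : Ultrafilter V} {A : Set V} (h : Cs s t n p q A) :
    Cs s t n (tu g p) (tu g q) (g • A) := by
  obtain ⟨h1, h2, h3, h4⟩ := h
  refine ⟨fin_smul hs ht g h1, sepU_smul.2 h2, by rwa [sz_smul hs ht], ?_⟩
  intro A' h5 h6
  rw [sz_smul hs ht, ← sz_smul hs ht g⁻¹ A']
  apply h4 _ (fin_smul hs ht _ h5)
  have := sepU_smul (g := g⁻¹) (p := tu g p) (q := tu g q) (A := A')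
  rw [tu_tu_inv, tu_tu_inv] at this
  exact this.2 h6

theorem Cu.smul (hs : ∀ (g : G) i, s (g • i) = g • s i) (ht : ∀ (g : G) i, t (g • i) = g • t i)
    (g : G) {n : ℕ} {A : Set V} (h : Cu s t n A) : Cu s t n (g • A) := by
  obtain ⟨p, q, h⟩ := h
  exact ⟨_, _, h.smul hs ht g⟩

theorem Cross.smul {A B : Set V} (h : Cross A B) (g : G) : Cross (g • A) (g • B) := by
  obtain ⟨h1, h2, h3, h4⟩ := h
  refine ⟨?_, ?_, ?_, ?_⟩
  · rw [← Set.smul_set_inter]; exact h1.smul_set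
  · rw [← Set.smul_set_compl, ← Set.smul_set_inter]; exact h2.smul_set
  · rw [← Set.smul_set_compl, ← Set.smul_set_inter]; exact h3.smul_set
  · rw [← Set.smul_set_compl, ← Set.smul_set_compl, ← Set.smul_set_inter]; exact h4.smul_set

theorem mu_smul (hs : ∀ (g : G) i, s (g • i) = g • s i) (ht : ∀ (g : G) i, t (g • i) = g • t i)
    (g : G) (n : ℕ) (A : Set V) : mu s t n (g • A) = mu s t n A := by
  unfold mu
  rw [← Set.ncard_image_of_injective {B | Cu s t n B ∧ Cross A B} (MulAction.injective g)]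
  congr 1
  ext B
  simp only [mem_ofPred_eq, mem_image]
  constructor
  · rintro ⟨h1, h2⟩
    refine ⟨g⁻¹ • B, ⟨h1.smul hs ht _, ?_⟩, smul_inv_smul _ _⟩
    have := h2.smul g⁻¹
    rwa [inv_smul_smul] at this
  · rintro ⟨D, ⟨h1, h2⟩, rfl⟩
    exact ⟨h1.smul hs ht g, h2.smul g⟩

theorem Opt.smul (hs : ∀ (g : G) i, s (g • i) = g • s i) (ht : ∀ (g : G) i, t (g • i) = g • t i)
    (g : G) {n : ℕ} {A : Set V} (h : Opt s t n A) : Opt s t n (g • A) := by
  obtain ⟨p, q, h1, h2⟩ := h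
  refine ⟨_, _, h1.smul hs ht g, ?_⟩
  intro A' hA'
  rw [mu_smul hs ht, ← mu_smul hs ht g⁻¹ n A']
  apply h2
  have := hA'.smul hs ht g⁻¹
  rwa [tu_tu_inv, tu_tu_inv] at this

theorem opt_stab (hX : Conn s t univ) (hs : ∀ (g : G) i, s (g • i) = g • s i)
    (ht : ∀ (g : G) i, t (g • i) = g • t i)
    (hfree : ∀ (g : G) (i : I), g • i = i → g = 1) {n : ℕ} {A : Set V} (h : Opt s t n A) :
    {g : G | g • A = A}.Finite := by
  obtain ⟨i, hi⟩ := h.bd_nonempty hX
  refine Set.Finite.of_finite_image (f := fun g : G => g • i) (h.fin.subset ?_) ?_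
  · rintro _ ⟨g, hg, rfl⟩
    have e := bd_smul hs ht g A
    rw [show g • A = A from hg] at e
    rw [e]
    exact smul_mem_smul_set hi
  · intro g hg g' hg' hgg
    have : (g'⁻¹ * g) • i = i := by
      rw [mul_smul, show g • i = g' • i from hgg, inv_smul_smul]
    have := hfree _ _ this
    rw [inv_mul_eq_one] at this
    exact this.symm

theorem opt_orbits (hX : Conn s t univ) (hs : ∀ (g : G) i, s (g • i) = g • s i)
    (ht : ∀ (g : G) i, t (g • i) = g • t i) (n : ℕ) {S : Set I} (hS : S.Finite)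
    (hcov : ∀ i : I, ∃ g : G, g • i ∈ S) :
    ∃ C : Set (Set V), C.Finite ∧ ∀ A, Opt s t n A → ∃ g : G, g • A ∈ C := by
  refine ⟨⋃ j ∈ S, {A : Set V | Cu s t n A ∧ j ∈ bd s t A},
    hS.biUnion fun j _ => cu_finite hX n j, ?_⟩
  intro A hA
  obtain ⟨i, hi⟩ := hA.bd_nonempty hX
  obtain ⟨g, hg⟩ := hcov i
  refine ⟨g, ?_⟩
  rw [mem_iUnion₂]
  refine ⟨g • i, hg, hA.cu.smul hs ht g, ?_⟩
  rw [bd_smul hs ht]
  exact smul_mem_smul_set hi

end Act

end Pool.Agent.V8H66.LR
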