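import Pool.Agent.V8H66.LR.Hull

/-!
# Extension of homomorphisms to virtually free groups
-/

set_option autoImplicit false
set_option linter.unusedSectionVars false
set_option linter.unusedVariables false

namespace Pool.Agent.V8H66.LR

open Set

variable {G Γ : Type} [Group G] [Group Γ]

/-- the free group on a basis maps onto the subgroup -/
theorem Bas.lift {S : Set G} {K L : Subgroup G} (h : Bas S K) (hKL : K ≤ L) :
    ∃ φ : FreeGroup ↥S →* ↥L, Function.Injective φ ∧ (∀ s : ↥S, (φ (FreeGroup.of s) : G) = s) ∧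
      (∀ y, (φ y : G) ∈ K) ∧ (∀ k ∈ K, ∃ y, (φ y : G) = k) := by
  classical
  let φ : FreeGroup ↥S →* ↥L := FreeGroup.lift (fun s : ↥S => (⟨s, hKL (h.sub s s.2)⟩ : ↥L))
  have hof : ∀ s : ↥S, (φ (FreeGroup.of s) : G) = s := by
    intro s
    simp [φ]
  have hK : ∀ y, (φ y : G) ∈ K := by
    intro y
    induction y using FreeGroup.induction_on with
    | C1 => rw [map_one]; exact K.one_mem
    | of s => rw [hof]; exact h.sub s s.2
    | inv_of s ih => rw [map_inv]; exact K.inv_mem ih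
    | mul a b ha hb => rw [map_mul]; exact K.mul_mem ha hb
  obtain ⟨χ, h1, h2⟩ := h.2 (FreeGroup ↥S) (fun x => if hx : x ∈ S then FreeGroup.of ⟨x, hx⟩ else 1)
  have hχ : ∀ y, χ (φ y : G) = y := by
    intro y
    induction y using FreeGroup.induction_on with
    | C1 => rw [map_one]; exact h1.one
    | of s =>
      rw [hof, h2 s s.2, dif_pos s.2]
    | inv_of s ih =>
      rw [map_inv]
      show χ ((φ (FreeGroup.of s) : G))⁻¹ = _
      rw [h1.inv (hK _), ih]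
    | mul a b ha hb =>
      rw [map_mul]
      show χ ((φ a : G) * (φ b : G)) = _
      rw [h1 _ (hK a) _ (hK b), ha, hb]
  refine ⟨φ, ?_, hof, hK, ?_⟩
  · intro a b hab
    rw [← hχ a, ← hχ b, hab]
  · intro k hk
    rw [← h.1] at hk
    induction hk using Subgroup.closure_induction with
    | mem x hx => exact ⟨FreeGroup.of ⟨x, hx⟩, hof _⟩
    | one => exact ⟨1, by rw [map_one]; rfl⟩
    | mul x y _ _ hx hy =>
      obtain ⟨a, rfl⟩ := hx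
      obtain ⟨b, rfl⟩ := hy
      exact ⟨a * b, by rw [map_mul]; rfl⟩
    | inv x _ hx =>
      obtain ⟨a, rfl⟩ := hx
      exact ⟨a⁻¹, by rw [map_inv]; rfl⟩

theorem mem_sup_inv {E H : Subgroup G} (hE : InvH H E) (g : G) :
    g ∈ E ⊔ H ↔ ∃ e ∈ E, ∃ h ∈ H, g = e * h := by
  constructor
  · intro hg
    let T : Subgroup G :=
      { carrier := {g | ∃ e ∈ E, ∃ h ∈ H, g = e * h}
        mul_mem' := by
          rintro _ _ ⟨e, he, h, hh, rfl⟩ ⟨e', he', h', hh', rfl⟩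
          refine ⟨e * (h * e' * h⁻¹), E.mul_mem he (hE h hh e' he'), h * h', H.mul_mem hh hh', ?_⟩
          group
        one_mem' := ⟨1, E.one_mem, 1, H.one_mem, by group⟩
        inv_mem' := by
          rintro _ ⟨e, he, h, hh, rfl⟩
          refine ⟨h⁻¹ * e⁻¹ * h⁻¹⁻¹, hE _ (H.inv_mem hh) _ (E.inv_mem he), h⁻¹, H.inv_mem hh, ?_⟩
          group }
    have h1 : E ⊔ H ≤ T := by
      apply sup_le
      · intro e he; exact ⟨e, he, 1, H.one_mem, by group⟩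
      · intro h hh; exact ⟨1, E.one_mem, h, hh, by group⟩
    exact h1 hg
  · rintro ⟨e, he, h, hh, rfl⟩
    exact mul_mem (Subgroup.mem_sup_left he) (Subgroup.mem_sup_right hh)

/-- one extension step -/
theorem step {E E' H A : Subgroup G} (hE : InvH H E) (hE' : InvH H E') (hEE : FFf E E')
    (hAE : A ≤ E) (hHE : H ⊓ E' ≤ A) {R : Set G} (hR : R.Finite) (hRH : ∀ ρ ∈ R, ρ ∈ H)
    (hRc : ∀ h ∈ H, ∃ a ∈ A, ∃ ρ ∈ R, h = a * ρ)
    (ψ0 : G →* Γ) (ψ : G → Γ) (hhom : HomOn (E ⊔ H) ψ) (hinv : Inv ψ0 (E ⊔ H) ψ) :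
    ∃ ψ' : G → Γ, HomOn (E' ⊔ H) ψ' ∧ Inv ψ0 (E' ⊔ H) ψ' ∧ ∀ g ∈ E ⊔ H, ψ' g = ψ g := by
  classical
  obtain ⟨S, S', g1, g2, g3, g4⟩ := hEE
  have hle : E ≤ E' := by rw [← g3.1, ← g4.1]; exact Subgroup.closure_mono g1
  set L := E' ⊔ H with hL
  obtain ⟨φ, hφ1, hφ2, hφ3, hφ4⟩ := g4.lift (L := L) le_sup_left
  let J : Set ↥S' := {s | (s : G) ∈ S}
  have hJ : Jᶜ.Finite := by
    refine (g2.preimage (f := fun s : ↥S' => (s : G)) Subtype.val_injective.injOn).subset ?_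
    intro s hs
    exact ⟨s.2, hs⟩
  let M : Subgroup ↥L := (E ⊔ H).subgroupOf L
  have hMmem : ∀ g : ↥L, g ∈ M ↔ (g : G) ∈ E ⊔ H := fun g => Subgroup.mem_subgroupOf
  have hJE : ∀ y ∈ Subgroup.closure (FreeGroup.of '' J), (φ y : G) ∈ E := by
    intro y hy
    induction hy using Subgroup.closure_induction with
    | mem x hx =>
      obtain ⟨s, hs, rfl⟩ := hx
      rw [hφ2]; exact g3.sub s hs
    | one => rw [map_one]; exact E.one_mem
    | mul x y _ _ hx hy => rw [map_mul]; exact E.mul_mem hx hy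
    | inv x _ hx => rw [map_inv]; exact E.inv_mem hx
  have hEJ : ∀ e ∈ E, ∃ y ∈ Subgroup.closure (FreeGroup.of '' J), (φ y : G) = e := by
    intro e he
    rw [← g3.1] at he
    induction he using Subgroup.closure_induction with
    | mem x hx =>
      exact ⟨FreeGroup.of ⟨x, g1 hx⟩, Subgroup.subset_closure ⟨_, hx, rfl⟩, hφ2 _⟩
    | one => exact ⟨1, one_mem _, by rw [map_one]; rfl⟩
    | mul x y _ _ hx hy =>
      obtain ⟨a, ha, rfl⟩ := hx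
      obtain ⟨b, hb, rfl⟩ := hy
      exact ⟨a * b, mul_mem ha hb, by rw [map_mul]; rfl⟩
    | inv x _ hx =>
      obtain ⟨a, ha, rfl⟩ := hx
      exact ⟨a⁻¹, inv_mem ha, by rw [map_inv]; rfl⟩
  have hM : ∀ y, φ y ∈ M ↔ y ∈ Subgroup.closure (FreeGroup.of '' J) := by
    intro y
    rw [hMmem]
    constructor
    · intro h
      obtain ⟨e, he, k, hk, hek⟩ := (mem_sup_inv hE _).1 h
      have hk' : k ∈ E' := by
        have : k = e⁻¹ * (φ y : G) := by rw [hek]; group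
        rw [this]
        exact E'.mul_mem (E'.inv_mem (hle he)) (hφ3 y)
      have hkE : k ∈ E := hAE (hHE ⟨hk, hk'⟩)
      obtain ⟨z, hz, hz'⟩ := hEJ (φ y : G) (by rw [hek]; exact E.mul_mem he hkE)
      have : z = y := hφ1 (Subtype.ext hz')
      rw [← this]; exact hz
    · intro h
      exact Subgroup.mem_sup_left (hJE y h)
  have hMF : ∀ g : ↥L, ∃ y, ∃ m ∈ M, g = φ y * m := by
    intro g
    obtain ⟨e, he, k, hk, hek⟩ := (mem_sup_inv hE' _).1 g.2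
    obtain ⟨y, hy⟩ := hφ4 e he
    refine ⟨y, ⟨k, Subgroup.mem_sup_right hk⟩, (hMmem _).2 (Subgroup.mem_sup_right hk), ?_⟩
    apply Subtype.ext
    show (g : G) = (φ y : G) * k
    rw [hy, hek]
  have hRf : ({g : ↥L | (g : G) ∈ R}).Finite :=
    hR.preimage (f := fun g : ↥L => (g : G)) Subtype.val_injective.injOn
  have hRcov : ∀ g : ↥L, ∃ y, ∃ ρ ∈ {g : ↥L | (g : G) ∈ R}, g = φ y * ρ := by
    intro g
    obtain ⟨e, he, k, hk, hek⟩ := (mem_sup_inv hE' _).1 g.2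
    obtain ⟨a, ha, ρ, hρ, rfl⟩ := hRc k hk
    obtain ⟨y, hy⟩ := hφ4 (e * a) (E'.mul_mem he (hle (hAE ha)))
    refine ⟨y, ⟨ρ, Subgroup.mem_sup_right (hRH ρ hρ)⟩, hρ, ?_⟩
    apply Subtype.ext
    show (g : G) = (φ y : G) * ρ
    rw [hy, hek, mul_assoc]
  obtain ⟨ψ', h1, h2⟩ := rel φ hφ1 J hJ M hM hMF _ hRf hRcov (ψ0.comp L.subtype)
    (fun g => ψ (g : G)) (by
      intro a ha b hb
      exact hhom _ ((hMmem a).1 ha) _ ((hMmem b).1 hb)) (by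
      intro C hC hCM
      have hfin : Finite ↥(C.map L.subtype) := by
        have : ((C.map L.subtype : Subgroup G) : Set G).Finite := by
          rw [Subgroup.coe_map]
          exact (Set.toFinite (C : Set ↥L)).image _
        exact this
      obtain ⟨γ, hγ⟩ := hinv (C.map L.subtype) hfin (by
        rintro _ ⟨c, hc, rfl⟩
        exact (hMmem c).1 (hCM hc))
      exact ⟨γ, fun c hc => hγ (c : G) ⟨c, hc, rfl⟩⟩)
  refine ⟨fun g => if hg : g ∈ L then ψ' ⟨g, hg⟩ else 1, ?_, ?_, ?_⟩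
  · intro a ha b hb
    simp only
    rw [dif_pos ha, dif_pos hb, dif_pos (L.mul_mem ha hb), ← map_mul]
    rfl
  · intro C hC hCL
    have hfin : Finite ↥(C.subgroupOf L) := by
      have : ((C.subgroupOf L : Subgroup ↥L) : Set ↥L).Finite :=
        ((Set.toFinite (C : Set G)).preimage (f := fun g : ↥L => (g : G))
          Subtype.val_injective.injOn).subset (fun g hg => Subgroup.mem_subgroupOf.1 hg)
      exact this
    obtain ⟨γ, hγ⟩ := h2 (C.subgroupOf L) hfin le_top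
    refine ⟨γ, fun c hc => ?_⟩
    show (if hg : c ∈ L then ψ' ⟨c, hg⟩ else 1) = _
    rw [dif_pos (hCL hc)]
    exact hγ ⟨c, hCL hc⟩ (Subgroup.mem_subgroupOf.2 hc)
  · intro g hg
    have hgL : g ∈ L := (sup_le_sup_right hle H) hg
    simp only
    rw [dif_pos hgL]
    exact h1 ⟨g, hgL⟩ ((hMmem _).2 hg)

/-- gluing a directed family -/
theorem glue {J : Type} (M : J → Subgroup G) (ψ : J → G → Γ)
    (hdir : ∀ i j, ∃ k, M i ≤ M k ∧ (∀ g ∈ M i, ψ k g = ψ i g) ∧ M j ≤ M k ∧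
      (∀ g ∈ M j, ψ k g = ψ j g)) :
    ∃ Ψ : G → Γ, ∀ i, ∀ g ∈ M i, Ψ g = ψ i g := by
  classical
  refine ⟨fun g => if h : ∃ i, g ∈ M i then ψ h.choose g else 1, fun i g hg => ?_⟩
  have h : ∃ i, g ∈ M i := ⟨i, hg⟩
  simp only
  rw [dif_pos h]
  obtain ⟨k, h1, h2, h3, h4⟩ := hdir h.choose i
  rw [← h2 g h.choose_spec, ← h4 g hg]

theorem glue_hom {J : Type} (M : J → Subgroup G) (ψ : J → G → Γ)
    (hdir : ∀ i j, ∃ k, M i ≤ M k ∧ (∀ g ∈ M i, ψ k g = ψ i g) ∧ M j ≤ M k ∧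
      (∀ g ∈ M j, ψ k g = ψ j g)) (hne : Nonempty J) (N : Subgroup G)
    (hN : ∀ g ∈ N, ∃ i, g ∈ M i) (ψ0 : G →* Γ) (hhom : ∀ i, HomOn (M i) (ψ i))
    (hinv : ∀ i, Inv ψ0 (M i) (ψ i)) (Ψ : G → Γ) (hΨ : ∀ i, ∀ g ∈ M i, Ψ g = ψ i g) :
    HomOn N Ψ ∧ Inv ψ0 N Ψ := by
  constructor
  · intro a ha b hb
    obtain ⟨i, hi⟩ := hN a ha
    obtain ⟨j, hj⟩ := hN b hb
    obtain ⟨k, h1, h2, h3, h4⟩ := hdir i j
    rw [hΨ k a (h1 hi), hΨ k b (h3 hj), hΨ k _ ((M k).mul_mem (h1 hi) (h3 hj))]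
    exact hhom k a (h1 hi) b (h3 hj)
  · intro C hC hCN
    have key : ∀ Z : Set G, Z.Finite → Z ⊆ N → ∃ i, Z ⊆ M i := by
      intro Z hZ
      induction Z, hZ using Set.Finite.induction_on with
      | empty => intro _; exact ⟨hne.some, empty_subset _⟩
      | @insert a Z _ _ ih =>
        intro hsub
        obtain ⟨i, hi⟩ := ih (fun z hz => hsub (mem_insert_of_mem _ hz))
        obtain ⟨j, hj⟩ := hN a (hsub (mem_insert _ _))
        obtain ⟨k, h1, h2, h3, h4⟩ := hdir i j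
        exact ⟨k, insert_subset (h3 hj) (hi.trans h1)⟩
    obtain ⟨i, hi⟩ := key (C : Set G) (Set.toFinite _) hCN
    obtain ⟨γ, hγ⟩ := hinv i C hC hi
    exact ⟨γ, fun c hc => by rw [hΨ i c (hi hc)]; exact hγ c hc⟩

/-- countable extension -/
theorem chain {E0 F' H A : Subgroup G} (hE0 : InvH H E0) (hF' : InvH H F') (hEF : FF E0 F')
    (hAE : A ≤ E0) (hHF : H ⊓ F' ≤ A) {R : Set G} (hR : R.Finite) (hRH : ∀ ρ ∈ R, ρ ∈ H)
    (hRc : ∀ h ∈ H, ∃ a ∈ A, ∃ ρ ∈ R, h = a * ρ)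
    (t : ℕ → G) (ht : ∀ n, t n ∈ F') (hgen : F' ≤ E0 ⊔ Subgroup.closure (Set.range t))
    (ψ0 : G →* Γ) (ψ : G → Γ) (hhom : HomOn (E0 ⊔ H) ψ) (hinv : Inv ψ0 (E0 ⊔ H) ψ) :
    ∃ ψ' : G → Γ, HomOn (F' ⊔ H) ψ' ∧ Inv ψ0 (F' ⊔ H) ψ' ∧ ∀ g ∈ E0 ⊔ H, ψ' g = ψ g := by
  classical
  let Good : Subgroup G × (G → Γ) → Prop := fun p => E0 ≤ p.1 ∧ InvH H p.1 ∧ FF p.1 F' ∧
    HomOn (p.1 ⊔ H) p.2 ∧ Inv ψ0 (p.1 ⊔ H) p.2
  have hstep : ∀ (n : ℕ) (p : {p // Good p}), ∃ p' : {p // Good p}, p.1.1 ≤ p'.1.1 ∧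
      t n ∈ p'.1.1 ∧ ∀ g ∈ p.1.1 ⊔ H, p'.1.2 g = p.1.2 g := by
    rintro n ⟨⟨E, χ⟩, h1, h2, h3, h4, h5⟩
    obtain ⟨B, b1, b2, b3, b4, b5⟩ := hull hF' h2 h3 (hAE.trans h1) hR hRH hRc (ht n)
    obtain ⟨χ', c1, c2, c3⟩ := step h2 b2 b5 (hAE.trans h1)
      ((inf_le_inf_left H b3.le).trans hHF) hR hRH hRc ψ0 χ h4 h5
    exact ⟨⟨(B, χ'), h1.trans b1, b2, b3, c1, c2⟩, b1, b4, c3⟩
  choose nxt hn1 hn2 hn3 using hstep
  let u : ℕ → {p // Good p} := fun n => Nat.rec ⟨(E0, ψ), le_rfl, hE0, hEF, hhom, hinv⟩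
    (fun n p => nxt n p) n
  have hu : ∀ n, u (n + 1) = nxt n (u n) := fun n => rfl
  have hmono : ∀ n k, (u n).1.1 ≤ (u (n + k)).1.1 ∧
      ∀ g ∈ (u n).1.1 ⊔ H, (u (n + k)).1.2 g = (u n).1.2 g := by
    intro n k
    induction k with
    | zero => exact ⟨le_rfl, fun g _ => rfl⟩
    | succ k ih =>
      rw [← add_assoc, hu]
      refine ⟨ih.1.trans (hn1 _ _), fun g hg => ?_⟩
      rw [hn3 _ _ g ((sup_le_sup_right ih.1 H) hg), ih.2 g hg]
  have hdir : ∀ i j, ∃ k, (u i).1.1 ⊔ H ≤ (u k).1.1 ⊔ H ∧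
      (∀ g ∈ (u i).1.1 ⊔ H, (u k).1.2 g = (u i).1.2 g) ∧ (u j).1.1 ⊔ H ≤ (u k).1.1 ⊔ H ∧
      (∀ g ∈ (u j).1.1 ⊔ H, (u k).1.2 g = (u j).1.2 g) := by
    intro i j
    have h1 := hmono i j
    have h2 := hmono j i
    rw [add_comm j i] at h2
    exact ⟨i + j, sup_le_sup_right h1.1 H, h1.2, sup_le_sup_right h2.1 H, h2.2⟩
  obtain ⟨Ψ, hΨ⟩ := glue (fun n => (u n).1.1 ⊔ H) (fun n => (u n).1.2) hdir
  have hcov : ∀ e ∈ F', ∃ n, e ∈ (u n).1.1 := by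
    let T : Subgroup G :=
      { carrier := {e | ∃ n, e ∈ (u n).1.1}
        mul_mem' := by
          rintro a b ⟨i, hi⟩ ⟨j, hj⟩
          refine ⟨i + j, mul_mem ((hmono i j).1 hi) ?_⟩
          rw [add_comm]
          exact (hmono j i).1 hj
        one_mem' := ⟨0, one_mem _⟩
        inv_mem' := by
          rintro a ⟨i, hi⟩
          exact ⟨i, inv_mem hi⟩ }
    have h1 : E0 ⊔ Subgroup.closure (Set.range t) ≤ T := by
      apply sup_le
      · intro e he; exact ⟨0, he⟩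
      · rw [Subgroup.closure_le]
        rintro _ ⟨n, rfl⟩
        exact ⟨n + 1, by rw [hu]; exact hn2 n (u n)⟩
    intro e he
    exact h1 (hgen he)
  obtain ⟨h1, h2⟩ := glue_hom (fun n => (u n).1.1 ⊔ H) (fun n => (u n).1.2) hdir ⟨0⟩ (F' ⊔ H) (by
    intro g hg
    obtain ⟨e, he, k, hk, rfl⟩ := (mem_sup_inv hF' g).1 hg
    obtain ⟨n, hn⟩ := hcov e he
    exact ⟨n, mul_mem (Subgroup.mem_sup_left hn) (Subgroup.mem_sup_right hk)⟩) ψ0
    (fun n => (u n).2.2.2.2.1) (fun n => (u n).2.2.2.2.2) Ψ hΨ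
  exact ⟨Ψ, h1, h2, fun g hg => hΨ 0 g hg⟩

end Pool.Agent.V8H66.LR
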