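import Pool.Agent.V8H66.LR.Rel

/-!
# Free factors of free groups
-/

set_option autoImplicit false
set_option linter.unusedSectionVars false
set_option linter.unusedVariables false

namespace Pool.Agent.V8H66.LR

open Set

variable {G : Type} [Group G]

section HomOn

variable {Γ : Type} [Group Γ]

theorem HomOn.one {M : Subgroup G} {ψ : G → Γ} (h : HomOn M ψ) : ψ 1 = 1 := by
  have := h 1 M.one_mem 1 M.one_mem
  rw [mul_one] at this
  exact mul_eq_right.1 this.symm

theorem HomOn.inv {M : Subgroup G} {ψ : G → Γ} (h : HomOn M ψ) {a : G} (ha : a ∈ M) :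
    ψ a⁻¹ = (ψ a)⁻¹ := by
  have := h a ha a⁻¹ (M.inv_mem ha)
  rw [mul_inv_cancel, h.one] at this
  exact (inv_eq_of_mul_eq_one_right this.symm).symm

theorem HomOn.mono {M N : Subgroup G} {ψ : G → Γ} (h : HomOn M ψ) (hNM : N ≤ M) : HomOn N ψ :=
  fun a ha b hb => h a (hNM ha) b (hNM hb)

theorem HomOn.eqOn {S : Set G} {M : Subgroup G} {ψ ψ' : G → Γ} (h : HomOn M ψ)
    (h' : HomOn M ψ') (hS : Subgroup.closure S ≤ M) (he : ∀ s ∈ S, ψ s = ψ' s) :
    ∀ a ∈ Subgroup.closure S, ψ a = ψ' a := by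
  intro a ha
  induction ha using Subgroup.closure_induction with
  | mem x hx => exact he x hx
  | one => rw [h.one, h'.one]
  | mul x y hx hy hx' hy' => rw [h x (hS hx) y (hS hy), h' x (hS hx) y (hS hy), hx', hy']
  | inv x hx hx' => rw [h.inv (hS hx), h'.inv (hS hx), hx']

end HomOn

/-- free basis, by the universal property -/
def Bas (S : Set G) (K : Subgroup G) : Prop :=
  Subgroup.closure S = K ∧ ∀ (Γ : Type) [Group Γ] (f : G → Γ),
    ∃ φ : G → Γ, HomOn K φ ∧ ∀ s ∈ S, φ s = f s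

theorem Bas.sub {S : Set G} {K : Subgroup G} (h : Bas S K) : ∀ s ∈ S, s ∈ K := by
  intro s hs
  rw [← h.1]
  exact Subgroup.subset_closure hs

theorem Bas.mono {S S' : Set G} {K : Subgroup G} (h : Bas S' K) (hS : S ⊆ S') :
    Bas S (Subgroup.closure S) := by
  refine ⟨rfl, fun Γ _ f => ?_⟩
  obtain ⟨φ, h1, h2⟩ := h.2 Γ f
  refine ⟨φ, h1.mono ?_, fun s hs => h2 s (hS hs)⟩
  rw [← h.1]
  exact Subgroup.closure_mono hS

/-- connected subsets of the Cayley graph containing one -/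
def ConnT (S P : Set G) : Prop := ∀ B ⊆ P, 1 ∈ B →
  (∀ p ∈ P, ∀ s ∈ S, p * s ∈ P → (p ∈ B ↔ p * s ∈ B)) → B = P

/-- connected right transversals of `D` in `K` -/
structure Trans (S : Set G) (K D : Subgroup G) (P : Set G) : Prop where
  one : 1 ∈ P
  sub : ∀ p ∈ P, p ∈ K
  conn : ConnT S P
  inj : ∀ p ∈ P, ∀ q ∈ P, p * q⁻¹ ∈ D → p = q
  surj : ∀ k ∈ K, ∃ p ∈ P, k * p⁻¹ ∈ D

/-- Schreier generators -/
def Sch (S : Set G) (D : Subgroup G) (P : Set G) : Set G :=
  {d | ∃ p ∈ P, ∃ s ∈ S, ∃ q ∈ P, p * s * q⁻¹ ∈ D ∧ d = p * s * q⁻¹ ∧ d ≠ 1}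

theorem sch_gen {S : Set G} {K D : Subgroup G} {P : Set G} (hS : Subgroup.closure S = K)
    (hDK : D ≤ K) (hT : Trans S K D P) : Subgroup.closure (Sch S D P) = D := by
  have hSK : ∀ s ∈ S, s ∈ K := fun s hs => by rw [← hS]; exact Subgroup.subset_closure hs
  apply le_antisymm
  · rw [Subgroup.closure_le]
    rintro d ⟨p, hp, s, hs, q, hq, h1, rfl, -⟩
    exact h1
  · have key : ∀ k ∈ Subgroup.closure S, ∀ p ∈ P, ∀ q ∈ P, p * k * q⁻¹ ∈ D →
        p * k * q⁻¹ ∈ Subgroup.closure (Sch S D P) := by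
      intro k hk
      induction hk using Subgroup.closure_induction with
      | mem s hs =>
        intro p hp q hq h1
        by_cases h2 : p * s * q⁻¹ = 1
        · rw [h2]; exact one_mem _
        · exact Subgroup.subset_closure ⟨p, hp, s, hs, q, hq, h1, rfl, h2⟩
      | one =>
        intro p hp q hq h1
        rw [mul_one] at *
        rw [hT.inj p hp q hq h1, mul_inv_cancel]
        exact one_mem _
      | mul k l hk hl ihk ihl =>
        intro p hp q hq h1
        have hpk : p * k ∈ K := K.mul_mem (hT.sub p hp) (by rw [← hS]; exact hk)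
        obtain ⟨u, hu, h2⟩ := hT.surj _ hpk
        have h3 : u * l * q⁻¹ ∈ D := by
          have : u * l * q⁻¹ = (p * k * u⁻¹)⁻¹ * (p * (k * l) * q⁻¹) := by group
          rw [this]
          exact D.mul_mem (D.inv_mem h2) h1
        have : p * (k * l) * q⁻¹ = (p * k * u⁻¹) * (u * l * q⁻¹) := by group
        rw [this]
        exact mul_mem (ihk p hp u hu h2) (ihl u hu q hq h3)
      | inv k hk ihk =>
        intro p hp q hq h1
        have h2 : q * k * p⁻¹ ∈ D := by
          have : q * k * p⁻¹ = (p * k⁻¹ * q⁻¹)⁻¹ := by group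
          rw [this]; exact D.inv_mem h1
        have : p * k⁻¹ * q⁻¹ = (q * k * p⁻¹)⁻¹ := by group
        rw [this]
        exact inv_mem (ihk q hq p hp h2)
    intro d hd
    have hdS : d ∈ Subgroup.closure S := by rw [hS]; exact hDK hd
    have := key d hdS 1 hT.one 1 hT.one (by simpa using hd)
    simpa using this

/-- Schreier's theorem for connected transversals -/
theorem schreier {S : Set G} {K D : Subgroup G} {P : Set G} (hS : Bas S K)
    (hDK : D ≤ K) (hT : Trans S K D P) : Bas (Sch S D P) D := by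
  classical
  refine ⟨sch_gen hS.1 hDK hT, fun Γ _ f => ?_⟩
  choose! τ hτP hτ using hT.surj
  have hτu : ∀ k ∈ K, ∀ q ∈ P, k * q⁻¹ ∈ D → τ k = q := by
    intro k hk q hq h
    apply hT.inj _ (hτP k hk) q hq
    have : τ k * q⁻¹ = (k * (τ k)⁻¹)⁻¹ * (k * q⁻¹) := by group
    rw [this]
    exact D.mul_mem (D.inv_mem (hτ k hk)) h
  let fp : G → G → Γ := fun p s => if p * s * (τ (p * s))⁻¹ = 1 then 1 else
    f (p * s * (τ (p * s))⁻¹)
  have hmem : ∀ p ∈ P, ∀ s ∈ S, p * s ∈ K := fun p hp s hs => K.mul_mem (hT.sub p hp) (hS.sub s hs)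
  -- the permutations
  have hex : ∀ s ∈ S, ∃ θ : Equiv.Perm (↥P × Γ), ∀ z : ↥P × Γ,
      ((θ z).1 : G) = τ (z.1 * s) ∧ (θ z).2 = z.2 * fp z.1 s := by
    intro s hs
    refine ⟨Equiv.ofBijective (fun z : ↥P × Γ =>
      ((⟨τ (z.1 * s), hτP _ (hmem _ z.1.2 s hs)⟩ : ↥P), z.2 * fp z.1 s)) ⟨?_, ?_⟩, ?_⟩
    · rintro ⟨⟨p, hp⟩, γ⟩ ⟨⟨p', hp'⟩, γ'⟩ h
      simp only [Prod.mk.injEq, Subtype.mk.injEq] at h
      obtain ⟨h1, h2⟩ := h
      have h3 : p = p' := by
        apply hT.inj p hp p' hp'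
        have e : p * p'⁻¹ = (p * s * (τ (p * s))⁻¹) * (p' * s * (τ (p' * s))⁻¹)⁻¹ := by
          rw [h1]; group
        rw [e]
        exact D.mul_mem (hτ _ (hmem p hp s hs)) (D.inv_mem (hτ _ (hmem p' hp' s hs)))
      subst h3
      rw [mul_right_cancel h2]
    · rintro ⟨⟨q, hq⟩, γ⟩
      have hqs : q * s⁻¹ ∈ K := K.mul_mem (hT.sub q hq) (K.inv_mem (hS.sub s hs))
      have h1 : τ (τ (q * s⁻¹) * s) = q := by
        apply hτu _ (hmem _ (hτP _ hqs) s hs) q hq
        have : τ (q * s⁻¹) * s * q⁻¹ = (q * s⁻¹ * (τ (q * s⁻¹))⁻¹)⁻¹ := by group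
        rw [this]
        exact D.inv_mem (hτ _ hqs)
      refine ⟨(⟨τ (q * s⁻¹), hτP _ hqs⟩, γ * (fp (τ (q * s⁻¹)) s)⁻¹), ?_⟩
      simp only [Prod.mk.injEq, Subtype.mk.injEq]
      exact ⟨h1, by group⟩
    · intro z
      exact ⟨rfl, rfl⟩
  choose! θ hθ using hex
  obtain ⟨φ, hφ1, hφ2⟩ := hS.2 (Equiv.Perm (↥P × Γ))ᵐᵒᵖ (fun s => MulOpposite.op (θ s))
  let act : G → ↥P × Γ → ↥P × Γ := fun k z => (MulOpposite.unop (φ k)) z
  have hact_mul : ∀ k ∈ K, ∀ l ∈ K, ∀ z, act (k * l) z = act l (act k z) := by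
    intro k hk l hl z
    show MulOpposite.unop (φ (k * l)) z = _
    rw [hφ1 k hk l hl, MulOpposite.unop_mul]
    rfl
  have hact_one : ∀ z, act 1 z = z := by
    intro z
    show MulOpposite.unop (φ 1) z = z
    rw [hφ1.one]
    rfl
  have hact_gen : ∀ s ∈ S, ∀ z, act s z = θ s z := by
    intro s hs z
    show MulOpposite.unop (φ s) z = _
    rw [hφ2 s hs]
    rfl
  have hact_inv : ∀ k ∈ K, ∀ z, act k (act k⁻¹ z) = z := by
    intro k hk z
    rw [← hact_mul _ (K.inv_mem hk) _ hk, inv_mul_cancel, hact_one]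
  have hact_inv' : ∀ k ∈ K, ∀ z, act k⁻¹ (act k z) = z := by
    intro k hk z
    rw [← hact_mul _ hk _ (K.inv_mem hk), mul_inv_cancel, hact_one]
  have hA : ∀ k ∈ Subgroup.closure S, ∀ (p : ↥P) (γ₀ γ : Γ),
      (p : G) * k * ((act k (p, γ)).1 : G)⁻¹ ∈ D ∧
      act k (p, γ₀ * γ) = ((act k (p, γ)).1, γ₀ * (act k (p, γ)).2) := by
    intro k hk
    induction hk using Subgroup.closure_induction with
    | mem s hs =>
      intro p γ₀ γ
      rw [hact_gen s hs, hact_gen s hs]
      refine ⟨?_, ?_⟩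
      · rw [(hθ s hs (p, γ)).1]
        exact hτ _ (hmem _ p.2 s hs)
      · apply Prod.ext
        · apply Subtype.ext
          rw [(hθ s hs (p, γ₀ * γ)).1]
          exact ((hθ s hs (p, γ)).1).symm
        · rw [(hθ s hs (p, γ₀ * γ)).2]
          simp only
          rw [(hθ s hs (p, γ)).2, mul_assoc]
    | one =>
      intro p γ₀ γ
      rw [hact_one, hact_one]
      exact ⟨by simp, rfl⟩
    | mul k l hk hl ihk ihl =>
      rw [hS.1] at hk hl
      intro p γ₀ γ
      rw [hact_mul k hk l hl, hact_mul k hk l hl]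
      obtain ⟨h1, h2⟩ := ihk p γ₀ γ
      obtain ⟨h3, h4⟩ := ihl (act k (p, γ)).1 γ₀ (act k (p, γ)).2
      have e : act k (p, γ) = ((act k (p, γ)).1, (act k (p, γ)).2) := rfl
      refine ⟨?_, ?_⟩
      · have : (p : G) * (k * l) * ((act l (act k (p, γ))).1 : G)⁻¹ =
          ((p : G) * k * ((act k (p, γ)).1 : G)⁻¹) *
            (((act k (p, γ)).1 : G) * l * ((act l (act k (p, γ))).1 : G)⁻¹) := by group
        rw [this]
        exact D.mul_mem h1 h3
      · rw [h2, h4]
    | inv k hk ihk =>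
      rw [hS.1] at hk
      intro p γ₀ γ
      set w := act k⁻¹ (p, γ) with hw
      have hkw : act k w = (p, γ) := hact_inv k hk _
      obtain ⟨h1, h2⟩ := ihk w.1 γ₀ w.2
      have e : ((w.1, w.2) : ↥P × Γ) = w := rfl
      rw [e, hkw] at h1 h2
      refine ⟨?_, ?_⟩
      · have : (p : G) * k⁻¹ * (w.1 : G)⁻¹ = ((w.1 : G) * k * (p : G)⁻¹)⁻¹ := by group
        rw [this]
        exact D.inv_mem h1
      · simp only at h2
        rw [← h2, hact_inv' k hk]
  rw [hS.1] at hA
  let one' : ↥P := ⟨1, hT.one⟩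
  have hB : ∀ p (hp : p ∈ P), act p (one', 1) = (⟨p, hp⟩, 1) := by
    have := hT.conn {p | ∃ hp : p ∈ P, act p (one', 1) = (⟨p, hp⟩, 1)} (fun p hp => hp.1)
      ⟨hT.one, hact_one _⟩ (by
        intro p hp s hs hps
        have h1 : act s (⟨p, hp⟩, 1) = (⟨p * s, hps⟩, 1) := by
          rw [hact_gen s hs]
          have e1 : τ (p * s) = p * s := hτu _ (hmem p hp s hs) _ hps (by
            rw [mul_inv_cancel]; exact D.one_mem)
          apply Prod.ext
          · apply Subtype.ext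
            rw [(hθ s hs _).1]
            exact e1
          · rw [(hθ s hs _).2]
            show 1 * fp p s = 1
            simp only [fp, e1, mul_inv_cancel, if_true, mul_one]
        constructor
        · rintro ⟨_, h2⟩
          refine ⟨hps, ?_⟩
          rw [hact_mul p (hT.sub p hp) s (hS.sub s hs), h2, h1]
        · rintro ⟨_, h2⟩
          refine ⟨hp, ?_⟩
          rw [hact_mul p (hT.sub p hp) s (hS.sub s hs), ← h1] at h2
          have h3 := congrArg (act s⁻¹) h2
          rw [hact_inv' s (hS.sub s hs), hact_inv' s (hS.sub s hs)] at h3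
          exact h3)
    intro p hp
    have h1 : p ∈ {p | ∃ hp : p ∈ P, act p (one', 1) = (⟨p, hp⟩, 1)} := by rw [this]; exact hp
    exact h1.2
  have hD1 : ∀ d ∈ D, act d (one', 1) = (one', (act d (one', 1)).2) := by
    intro d hd
    have h1 := (hA d (hDK hd) one' 1 1).1
    have h2 : (1 : G) = ((act d (one', 1)).1 : G) := by
      apply hT.inj 1 hT.one _ (act d (one', 1)).1.2
      have : (1 : G) * ((act d (one', 1)).1 : G)⁻¹ =
          d⁻¹ * ((one' : G) * d * ((act d (one', 1)).1 : G)⁻¹) := by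
        show (1 : G) * _ = d⁻¹ * ((1 : G) * d * _)
        group
      rw [this]
      exact D.mul_mem (D.inv_mem hd) h1
    apply Prod.ext
    · exact Subtype.ext h2.symm
    · rfl
  refine ⟨fun d => (act d (one', 1)).2, ?_, ?_⟩
  · intro a ha b hb
    simp only
    rw [hact_mul a (hDK ha) b (hDK hb), hD1 a ha]
    have := (hA b (hDK hb) one' (act a (one', 1)).2 1).2
    rw [mul_one] at this
    rw [this]
  · rintro d ⟨p, hp, s, hs, q, hq, h1, rfl, h2⟩
    have hpK := hT.sub p hp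
    have hqK := hT.sub q hq
    have hsK := hS.sub s hs
    have e1 : τ (p * s) = q := hτu _ (hmem p hp s hs) q hq h1
    have e2 : act s (⟨p, hp⟩, 1) = (⟨q, hq⟩, f (p * s * q⁻¹)) := by
      rw [hact_gen s hs]
      apply Prod.ext
      · apply Subtype.ext
        rw [(hθ s hs _).1]
        exact e1
      · rw [(hθ s hs _).2]
        show 1 * fp p s = _
        simp only [fp, e1, if_neg h2, one_mul]
    have e3 : act q (one', f (p * s * q⁻¹)) = (⟨q, hq⟩, f (p * s * q⁻¹)) := by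
      have := (hA q hqK one' (f (p * s * q⁻¹)) 1).2
      rw [mul_one, hB q hq, mul_one] at this
      exact this
    show (act (p * s * q⁻¹) (one', 1)).2 = _
    rw [hact_mul _ (K.mul_mem hpK hsK) _ (K.inv_mem hqK), hact_mul p hpK s hsK, hB p hp, e2, ← e3,
      hact_inv' q hqK]

end Pool.Agent.V8H66.LR
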