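import Pool.Agent.V8H66.LR.FF

/-!
# Free factors: intersections, transitivity, Marshall Hall
-/

set_option autoImplicit false
set_option linter.unusedSectionVars false
set_option linter.unusedVariables false

namespace Pool.Agent.V8H66.LR

open Set

variable {G : Type} [Group G]

theorem ConnT.mono {S S' P : Set G} (h : ConnT S P) (hS : S ⊆ S') : ConnT S' P :=
  fun B hB h1 hadj => h B hB h1 (fun p hp s hs hps => hadj p hp s (hS hs) hps)

theorem connT_one (S : Set G) : ConnT S {1} := by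
  intro B hB h1 _
  apply Set.Subset.antisymm hB
  rintro _ rfl
  exact h1

theorem ConnT.ins {S P : Set G} (h : ConnT S P) (h1 : (1 : G) ∈ P) {u : G}
    (hu : ∃ p ∈ P, ∃ s ∈ S, u = p * s ∨ p = u * s) : ConnT S (insert u P) := by
  intro B hB hB1 hadj
  have hP : P ⊆ B := by
    have := h (B ∩ P) inter_subset_right ⟨hB1, h1⟩ (by
      intro p hp s hs hps
      have := hadj p (mem_insert_of_mem _ hp) s hs (mem_insert_of_mem _ hps)
      constructor
      · rintro ⟨h2, -⟩; exact ⟨this.1 h2, hps⟩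
      · rintro ⟨h2, -⟩; exact ⟨this.2 h2, hp⟩)
    rw [← this]
    exact inter_subset_left
  apply Set.Subset.antisymm hB
  intro x hx
  rcases hx with rfl | hx
  · obtain ⟨p, hp, s, hs, h2 | h2⟩ := hu
    · have := hadj p (mem_insert_of_mem _ hp) s hs (by rw [← h2]; exact mem_insert _ _)
      rw [h2]
      exact this.1 (hP hp)
    · have := hadj x (mem_insert _ _) s hs (by rw [← h2]; exact mem_insert_of_mem _ hp)
      rw [← h2] at this
      exact this.2 (hP hp)
  · exact hP hx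

/-- extension of a connected set of representatives -/
theorem exists_trans {S : Set G} {K : Subgroup G} (hS : Subgroup.closure S = K)
    {D : Subgroup G} (hDK : D ≤ K) {P0 : Set G} (h1 : (1 : G) ∈ P0) (hsub : ∀ p ∈ P0, p ∈ K)
    (hconn : ConnT S P0) (hinj : ∀ p ∈ P0, ∀ q ∈ P0, p * q⁻¹ ∈ D → p = q) :
    ∃ P, P0 ⊆ P ∧ Trans S K D P := by
  have hSK : ∀ s ∈ S, s ∈ K := fun s hs => by rw [← hS]; exact Subgroup.subset_closure hs
  obtain ⟨P, hP0, hP⟩ := zorn_subset_nonempty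
    {P : Set G | (∀ p ∈ P, p ∈ K) ∧ ConnT S P ∧ (∀ p ∈ P, ∀ q ∈ P, p * q⁻¹ ∈ D → p = q) ∧
      (1 : G) ∈ P} (by
      intro c hc hchain hne
      refine ⟨⋃₀ c, ⟨?_, ?_, ?_, ?_⟩, fun s hs => subset_sUnion_of_mem hs⟩
      · rintro p ⟨P, hP, hp⟩
        exact (hc hP).1 p hp
      · intro B hB hB1 hadj
        apply Set.Subset.antisymm hB
        rintro x ⟨P, hP, hx⟩
        have := (hc hP).2.1 (B ∩ P) inter_subset_right ⟨hB1, (hc hP).2.2.2⟩ (by
          intro p hp s hs hps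
          have := hadj p ⟨P, hP, hp⟩ s hs ⟨P, hP, hps⟩
          constructor
          · rintro ⟨h2, -⟩; exact ⟨this.1 h2, hps⟩
          · rintro ⟨h2, -⟩; exact ⟨this.2 h2, hp⟩)
        rw [← this] at hx
        exact hx.1
      · rintro p ⟨P1, hP1, hp⟩ q ⟨P2, hP2, hq⟩ hpq
        rcases hchain.total hP1 hP2 with h | h
        · exact (hc hP2).2.2.1 p (h hp) q hq hpq
        · exact (hc hP1).2.2.1 p hp q (h hq) hpq
      · obtain ⟨P, hP⟩ := hne
        exact ⟨P, hP, (hc hP).2.2.2⟩) P0 ⟨hsub, hconn, hinj, h1⟩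
  obtain ⟨hP1, hP2, hP3, hP4⟩ := hP.prop
  refine ⟨P, hP0, hP4, hP1, hP2, hP3, ?_⟩
  have hadd : ∀ u ∈ K, (∃ p ∈ P, ∃ s ∈ S, u = p * s ∨ p = u * s) → ∃ p ∈ P, u * p⁻¹ ∈ D := by
    intro u hu hadj
    by_contra hcon
    push Not at hcon
    have hmem : insert u P ∈ {P : Set G | (∀ p ∈ P, p ∈ K) ∧ ConnT S P ∧
        (∀ p ∈ P, ∀ q ∈ P, p * q⁻¹ ∈ D → p = q) ∧ (1 : G) ∈ P} := by
      refine ⟨?_, hP2.ins hP4 hadj, ?_, mem_insert_of_mem _ hP4⟩
      · rintro p (rfl | hp)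
        · exact hu
        · exact hP1 p hp
      · rintro p (rfl | hp) q (rfl | hq) hpq
        · rfl
        · exact absurd hpq (hcon q hq)
        · exfalso
          apply hcon p hp
          have : q * p⁻¹ = (p * q⁻¹)⁻¹ := by group
          rw [this]
          exact D.inv_mem hpq
        · exact hP3 p hp q hq hpq
    have h2 := hP.le_of_ge hmem (subset_insert _ _)
    have h3 : u ∈ P := h2 (mem_insert _ _)
    exact hcon u h3 (by rw [mul_inv_cancel]; exact D.one_mem)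
  have hcov : ∀ k ∈ Subgroup.closure S, ∀ x ∈ K, (∃ p ∈ P, x * p⁻¹ ∈ D) ↔
      (∃ p ∈ P, x * k * p⁻¹ ∈ D) := by
    intro k hk
    induction hk using Subgroup.closure_induction with
    | mem s hs =>
      intro x hx
      constructor
      · rintro ⟨p, hp, hxp⟩
        obtain ⟨q, hq, h2⟩ := hadd (p * s) (K.mul_mem (hP1 p hp) (hSK s hs))
          ⟨p, hp, s, hs, Or.inl rfl⟩
        refine ⟨q, hq, ?_⟩
        have : x * s * q⁻¹ = (x * p⁻¹) * (p * s * q⁻¹) := by group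
        rw [this]
        exact D.mul_mem hxp h2
      · rintro ⟨p, hp, hxp⟩
        obtain ⟨q, hq, h2⟩ := hadd (p * s⁻¹) (K.mul_mem (hP1 p hp) (K.inv_mem (hSK s hs)))
          ⟨p, hp, s, hs, Or.inr (by group)⟩
        refine ⟨q, hq, ?_⟩
        have : x * q⁻¹ = (x * s * p⁻¹) * (p * s⁻¹ * q⁻¹) := by group
        rw [this]
        exact D.mul_mem hxp h2
    | one => intro x hx; rw [mul_one]
    | mul k l hk hl ihk ihl =>
      intro x hx
      rw [ihk x hx, ihl (x * k) (K.mul_mem hx (by rw [← hS]; exact hk)), mul_assoc]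
    | inv k hk ihk =>
      intro x hx
      rw [ihk (x * k⁻¹) (K.mul_mem hx (K.inv_mem (by rw [← hS]; exact hk))),
        inv_mul_cancel_right]
  intro k hk
  have := (hcov k (by rw [hS]; exact hk) 1 K.one_mem).1 ⟨1, hP4, by simp⟩
  rwa [one_mul] at this

/-- free factors -/
def FF (A B : Subgroup G) : Prop := ∃ S S' : Set G, S ⊆ S' ∧ Bas S A ∧ Bas S' B

theorem FF.le {A B : Subgroup G} (h : FF A B) : A ≤ B := by
  obtain ⟨S, S', h1, h2, h3⟩ := h
  rw [← h2.1, ← h3.1]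
  exact Subgroup.closure_mono h1

theorem FF.inter {A F D : Subgroup G} (h : FF A F) (hD : D ≤ F) : FF (A ⊓ D) D := by
  obtain ⟨S, S', h1, h2, h3⟩ := h
  obtain ⟨P0, -, hP0⟩ := exists_trans h2.1 (D := A ⊓ D) inf_le_left (P0 := {1}) rfl
    (by rintro _ rfl; exact A.one_mem) (connT_one S) (by rintro _ rfl _ rfl _; rfl)
  have hAF : A ≤ F := by
    rw [← h2.1, ← h3.1]
    exact Subgroup.closure_mono h1
  obtain ⟨P, hP0P, hP⟩ := exists_trans h3.1 hD hP0.one (fun p hp => hAF (hP0.sub p hp))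
    (hP0.conn.mono h1) (fun p hp q hq hpq => hP0.inj p hp q hq
      ⟨A.mul_mem (hP0.sub p hp) (A.inv_mem (hP0.sub q hq)), hpq⟩)
  refine ⟨Sch S (A ⊓ D) P0, Sch S' D P, ?_, schreier h2 inf_le_left hP0, schreier h3 hD hP⟩
  rintro d ⟨p, hp, s, hs, q, hq, h4, h5, h6⟩
  exact ⟨p, hP0P hp, s, h1 hs, q, hP0P hq, h4.2, h5, h6⟩

theorem FF.trans {A B C : Subgroup G} (h : FF A B) (h' : FF B C) : FF A C := by
  classical
  obtain ⟨S, SB, h1, h2, h3⟩ := h
  obtain ⟨SB', SC, h4, h5, h6⟩ := h'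
  refine ⟨S, SB ∪ (SC \ SB'), h1.trans subset_union_left, h2, ?_, ?_⟩
  · apply le_antisymm
    · rw [Subgroup.closure_le]
      rintro x (hx | hx)
      · have : x ∈ B := h3.sub x hx
        rw [← h5.1] at this
        rw [← h6.1]
        exact Subgroup.closure_mono h4 this
      · exact h6.sub x hx.1
    · rw [← h6.1, Subgroup.closure_le]
      intro x hx
      by_cases hxB : x ∈ SB'
      · have : x ∈ B := h5.sub x hxB
        rw [← h3.1] at this
        exact Subgroup.closure_mono subset_union_left this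
      · exact Subgroup.subset_closure (Or.inr ⟨hx, hxB⟩)
  · intro Γ _ f
    obtain ⟨φ, hφ1, hφ2⟩ := h3.2 Γ f
    obtain ⟨χ, hχ1, hχ2⟩ := h6.2 Γ (fun x => if x ∈ SB' then φ x else f x)
    refine ⟨χ, hχ1, ?_⟩
    rintro x (hx | hx)
    · have hBC : B ≤ C := by
        rw [← h5.1, ← h6.1]; exact Subgroup.closure_mono h4
      have := (hχ1.mono hBC).eqOn hφ1 (S := SB') (by rw [h5.1]) (by
        intro s hs
        rw [hχ2 s (h4 hs), if_pos hs]) x (by rw [h5.1]; exact h3.sub x hx)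
      rw [this, hφ2 x hx]
    · rw [hχ2 x hx.1, if_neg hx.2]

theorem mem_closure_finite {S : Set G} {x : G} (hx : x ∈ Subgroup.closure S) :
    ∃ T ⊆ S, T.Finite ∧ x ∈ Subgroup.closure T := by
  induction hx using Subgroup.closure_induction with
  | mem x hx =>
    exact ⟨{x}, by rintro _ rfl; exact hx, Set.finite_singleton x, Subgroup.subset_closure rfl⟩
  | one => exact ⟨∅, empty_subset _, Set.finite_empty, one_mem _⟩
  | mul x y _ _ hx hy =>
    obtain ⟨T, h1, h2, h3⟩ := hx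
    obtain ⟨T', h1', h2', h3'⟩ := hy
    exact ⟨T ∪ T', union_subset h1 h1', h2.union h2', mul_mem
      (Subgroup.closure_mono subset_union_left h3) (Subgroup.closure_mono subset_union_right h3')⟩
  | inv x _ hx =>
    obtain ⟨T, h1, h2, h3⟩ := hx
    exact ⟨T, h1, h2, inv_mem h3⟩

/-- a finite set lies in the closure of a finite subset -/
theorem finite_in_closure {S X : Set G} (hX : X.Finite) (h : ∀ x ∈ X, x ∈ Subgroup.closure S) :
    ∃ T ⊆ S, T.Finite ∧ ∀ x ∈ X, x ∈ Subgroup.closure T := by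
  choose! T h1 h2 h3 using fun x (hx : x ∈ X) => mem_closure_finite (h x hx)
  refine ⟨⋃ x ∈ X, T x, iUnion₂_subset h1, hX.biUnion h2, fun x hx => ?_⟩
  exact Subgroup.closure_mono (subset_iUnion₂ (s := fun x (_ : x ∈ X) => T x) x hx) (h3 x hx)

/-- homomorphism separating a basis element -/
theorem Bas.sep {S : Set G} {K : Subgroup G} (h : Bas S K) {s : G} (hs : s ∈ S) :
    ∃ χ : G → Multiplicative (ZMod 2), HomOn K χ ∧ χ s ≠ 1 ∧ ∀ t ∈ S, t ≠ s → χ t = 1 := by
  classical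
  obtain ⟨χ, h1, h2⟩ := h.2 (Multiplicative (ZMod 2))
    (fun t => if t = s then Multiplicative.ofAdd 1 else 1)
  refine ⟨χ, h1, ?_, fun t ht hts => ?_⟩
  · rw [h2 s hs, if_pos rfl]
    decide
  · rw [h2 t ht, if_neg hts]

theorem Bas.notMem {S T : Set G} {K : Subgroup G} (h : Bas S K) (hT : T ⊆ S) {s : G}
    (hs : s ∈ S) (hsT : s ∉ T) : s ∉ Subgroup.closure T := by
  intro hs'
  obtain ⟨χ, h1, h2, h3⟩ := h.sep hs
  apply h2
  have hle : Subgroup.closure T ≤ K := by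
    rw [← h.1]; exact Subgroup.closure_mono hT
  exact h1.eqOn (ψ' := fun _ => 1) (M := K) (fun _ _ _ _ => (one_mul _).symm) hle (by
    intro t ht
    exact h3 t (hT ht) (fun e => hsT (e ▸ ht))) s hs'

theorem Bas.finite {S : Set G} {K : Subgroup G} (h : Bas S K) (hK : K.FG) : S.Finite := by
  obtain ⟨X, hX⟩ := hK
  obtain ⟨T, h1, h2, h3⟩ := finite_in_closure (S := S) X.finite_toSet (by
    intro x hx
    rw [h.1, ← hX]
    exact Subgroup.subset_closure hx)
  refine h2.subset ?_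
  intro s hs
  by_contra hsT
  apply h.notMem h1 hs hsT
  have : Subgroup.closure (X : Set G) ≤ Subgroup.closure T := by
    rw [Subgroup.closure_le]; exact h3
  apply this
  rw [hX]
  exact h.sub s hs

theorem ConnT.union {S P P' : Set G} (h : ConnT S P) (h' : ConnT S P') (h1 : (1 : G) ∈ P)
    (h1' : (1 : G) ∈ P') : ConnT S (P ∪ P') := by
  intro B hB hB1 hadj
  have key : ∀ P'' ⊆ P ∪ P', ConnT S P'' → (1 : G) ∈ P'' → P'' ⊆ B := by
    intro P'' hsub hc hone
    have := hc (B ∩ P'') inter_subset_right ⟨hB1, hone⟩ (by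
      intro p hp s hs hps
      have := hadj p (hsub hp) s hs (hsub hps)
      constructor
      · rintro ⟨h2, -⟩; exact ⟨this.1 h2, hps⟩
      · rintro ⟨h2, -⟩; exact ⟨this.2 h2, hp⟩)
    rw [← this]
    exact inter_subset_left
  exact Set.Subset.antisymm hB
    (union_subset (key P subset_union_left h h1) (key P' subset_union_right h' h1'))

/-- finite connected hull inside a connected set -/
theorem ConnT.hull {S P : Set G} (h : ConnT S P) (h1 : (1 : G) ∈ P) {Z : Set G} (hZ : Z.Finite)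
    (hZP : Z ⊆ P) : ∃ P0 ⊆ P, P0.Finite ∧ (1 : G) ∈ P0 ∧ ConnT S P0 ∧ Z ⊆ P0 := by
  have hpt : ∀ z ∈ P, ∃ P0 ⊆ P, P0.Finite ∧ (1 : G) ∈ P0 ∧ ConnT S P0 ∧ z ∈ P0 := by
    have := h {z | z ∈ P ∧ ∃ P0 ⊆ P, P0.Finite ∧ (1 : G) ∈ P0 ∧ ConnT S P0 ∧ z ∈ P0}
      (fun z hz => hz.1)
      ⟨h1, {1}, by rintro _ rfl; exact h1, Set.finite_singleton 1, rfl, connT_one S, rfl⟩ (by
        intro p hp s hs hps
        constructor
        · rintro ⟨-, P0, h2, h3, h4, h5, h6⟩
          exact ⟨hps, insert (p * s) P0, insert_subset hps h2, h3.insert _,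
            mem_insert_of_mem _ h4, h5.ins h4 ⟨p, h6, s, hs, Or.inl rfl⟩, mem_insert _ _⟩
        · rintro ⟨-, P0, h2, h3, h4, h5, h6⟩
          exact ⟨hp, insert p P0, insert_subset hp h2, h3.insert _,
            mem_insert_of_mem _ h4, h5.ins h4 ⟨p * s, h6, s, hs, Or.inr rfl⟩, mem_insert _ _⟩)
    intro z hz
    rw [← this] at hz
    exact hz.2
  induction Z, hZ using Set.Finite.induction_on with
  | empty =>
    exact ⟨{1}, by rintro _ rfl; exact h1, Set.finite_singleton 1, rfl, connT_one S,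
      empty_subset _⟩
  | @insert a Z _ _ ih =>
    obtain ⟨P0, h2, h3, h4, h5, h6⟩ := ih (fun z hz => hZP (mem_insert_of_mem _ hz))
    obtain ⟨P1, g2, g3, g4, g5, g6⟩ := hpt a (hZP (mem_insert _ _))
    exact ⟨P1 ∪ P0, union_subset g2 h2, g3.union h3, Or.inl g4, g5.union h5 g4 h4,
      insert_subset (Or.inl g6) (h6.trans subset_union_right)⟩

/-- extension of an injection between subsets of a finite set -/
theorem extend_inj {α : Type} [Finite α] (r : α → α → Prop)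
    (h1 : ∀ a b c, r a b → r a c → b = c) (h2 : ∀ a b c, r a c → r b c → a = b) :
    ∃ σ : Equiv.Perm α, ∀ a b, r a b → σ a = b := by
  classical
  have := Fintype.ofFinite α
  let e : {a // ∃ b, r a b} ≃ {b // ∃ a, r a b} :=
    { toFun := fun a => ⟨a.2.choose, a.1, a.2.choose_spec⟩
      invFun := fun b => ⟨b.2.choose, b.1, b.2.choose_spec⟩
      left_inv := by
        rintro ⟨a, b, hab⟩
        apply Subtype.ext
        have e1 : (⟨b, hab⟩ : ∃ b, r a b).choose = b :=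
          h1 a _ _ (⟨b, hab⟩ : ∃ b, r a b).choose_spec hab
        exact h2 _ _ _ (Exists.choose_spec (p := fun a' => r a' _) ⟨a, (⟨b, hab⟩ : ∃ b, r a b).choose_spec⟩)
          (⟨b, hab⟩ : ∃ b, r a b).choose_spec
      right_inv := by
        rintro ⟨b, a, hab⟩
        apply Subtype.ext
        exact h1 _ _ _ (Exists.choose_spec (p := fun b' => r _ b') ⟨b, (⟨a, hab⟩ : ∃ a, r a b).choose_spec⟩)
          (⟨a, hab⟩ : ∃ a, r a b).choose_spec }
  refine ⟨e.extendSubtype, fun a b hab => ?_⟩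
  rw [Equiv.extendSubtype_apply_of_mem _ a ⟨b, hab⟩]
  exact h1 a _ _ (⟨b, hab⟩ : ∃ b, r a b).choose_spec hab

/-- Marshall Hall's theorem -/
theorem marshall_hall {S : Set G} {F A : Subgroup G} (hS : Bas S F) (hAF : A ≤ F) (hA : A.FG) :
    ∃ F1 : Subgroup G, F1 ≤ F ∧ FF A F1 ∧ ∃ R : Set G, R.Finite ∧ ∀ k ∈ F, ∃ ρ ∈ R, k * ρ⁻¹ ∈ F1 := by
  classical
  obtain ⟨P, -, hP⟩ := exists_trans hS.1 hAF (P0 := {1}) rfl
    (by rintro _ rfl; exact F.one_mem) (connT_one S) (by rintro _ rfl _ rfl _; rfl)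
  have hbA := schreier hS hAF hP
  have hfin := hbA.finite hA
  choose! p s q hpq using fun d (hd : d ∈ Sch S A P) =>
    (show ∃ p s q, p ∈ P ∧ s ∈ S ∧ q ∈ P ∧ p * s * q⁻¹ ∈ A ∧ d = p * s * q⁻¹ ∧ d ≠ 1 by
      obtain ⟨p, hp, s, hs, q, hq, h1, h2, h3⟩ := hd
      exact ⟨p, s, q, hp, hs, hq, h1, h2, h3⟩)
  obtain ⟨P0, hP0P, hP0f, hP01, hP0c, hZ⟩ := hP.conn.hull hP.one
    (Z := p '' Sch S A P ∪ q '' Sch S A P) ((hfin.image p).union (hfin.image q)) (by
      rintro _ (⟨d, hd, rfl⟩ | ⟨d, hd, rfl⟩)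
      · exact (hpq d hd).1
      · exact (hpq d hd).2.2.1)
  have : Finite ↥P0 := hP0f
  have hex : ∀ s : G, ∃ σ : Equiv.Perm ↥P0, ∀ a b : ↥P0, (a : G) * s * (b : G)⁻¹ ∈ A → σ a = b := by
    intro s
    apply extend_inj
    · intro a b c hab hac
      apply Subtype.ext
      apply hP.inj _ (hP0P b.2) _ (hP0P c.2)
      have : (b : G) * (c : G)⁻¹ = ((a : G) * s * (b : G)⁻¹)⁻¹ * ((a : G) * s * (c : G)⁻¹) := by
        group
      rw [this]
      exact A.mul_mem (A.inv_mem hab) hac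
    · intro a b c hac hbc
      apply Subtype.ext
      apply hP.inj _ (hP0P a.2) _ (hP0P b.2)
      have : (a : G) * (b : G)⁻¹ = ((a : G) * s * (c : G)⁻¹) * ((b : G) * s * (c : G)⁻¹)⁻¹ := by
        group
      rw [this]
      exact A.mul_mem hac (A.inv_mem hbc)
  choose σ hσ using hex
  obtain ⟨φ, hφ1, hφ2⟩ := hS.2 (Equiv.Perm ↥P0)ᵐᵒᵖ (fun s => MulOpposite.op (σ s))
  let act : G → ↥P0 → ↥P0 := fun k z => (MulOpposite.unop (φ k)) z
  have hact_mul : ∀ k ∈ F, ∀ l ∈ F, ∀ z, act (k * l) z = act l (act k z) := by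
    intro k hk l hl z
    show MulOpposite.unop (φ (k * l)) z = _
    rw [hφ1 k hk l hl, MulOpposite.unop_mul]
    rfl
  have hact_one : ∀ z, act 1 z = z := by
    intro z
    show MulOpposite.unop (φ 1) z = z
    rw [hφ1.one]
    rfl
  have hact_gen : ∀ s ∈ S, ∀ z, act s z = σ s z := by
    intro s hs z
    show MulOpposite.unop (φ s) z = _
    rw [hφ2 s hs]
    rfl
  have hact_inv' : ∀ k ∈ F, ∀ z, act k⁻¹ (act k z) = z := by
    intro k hk z
    rw [← hact_mul _ hk _ (F.inv_mem hk), mul_inv_cancel, hact_one]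
  let o : ↥P0 := ⟨1, hP01⟩
  have hB : ∀ p (hp : p ∈ P0), act p o = ⟨p, hp⟩ := by
    have := hP0c {p | ∃ hp : p ∈ P0, act p o = ⟨p, hp⟩} (fun p hp => hp.1)
      ⟨hP01, hact_one _⟩ (by
        intro p hp s hs hps
        have hpF : p ∈ F := hP.sub p (hP0P hp)
        have h1 : act s ⟨p, hp⟩ = ⟨p * s, hps⟩ := by
          rw [hact_gen s hs]
          apply hσ
          simp
        constructor
        · rintro ⟨_, h2⟩
          refine ⟨hps, ?_⟩
          rw [hact_mul p hpF s (hS.sub s hs), h2, h1]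
        · rintro ⟨_, h2⟩
          refine ⟨hp, ?_⟩
          rw [hact_mul p hpF s (hS.sub s hs), ← h1] at h2
          have h3 := congrArg (act s⁻¹) h2
          rw [hact_inv' s (hS.sub s hs), hact_inv' s (hS.sub s hs)] at h3
          exact h3)
    intro p hp
    have h1 : p ∈ {p | ∃ hp : p ∈ P0, act p o = ⟨p, hp⟩} := by rw [this]; exact hp
    exact h1.2
  let F1 : Subgroup G :=
    { carrier := {k | k ∈ F ∧ act k o = o}
      mul_mem' := by
        rintro a b ⟨ha, ha'⟩ ⟨hb, hb'⟩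
        exact ⟨F.mul_mem ha hb, by rw [hact_mul a ha b hb, ha', hb']⟩
      one_mem' := ⟨F.one_mem, hact_one o⟩
      inv_mem' := by
        rintro a ⟨ha, ha'⟩
        refine ⟨F.inv_mem ha, ?_⟩
        have := hact_inv' a ha o
        rwa [ha'] at this }
  have hF1F : F1 ≤ F := fun k hk => hk.1
  have hSch : ∀ d ∈ Sch S A P, d ∈ F1 ∧ p d ∈ P0 ∧ q d ∈ P0 := by
    intro d hd
    have hp0 : p d ∈ P0 := hZ (Or.inl ⟨d, hd, rfl⟩)
    have hq0 : q d ∈ P0 := hZ (Or.inr ⟨d, hd, rfl⟩)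
    obtain ⟨h1, h2, h3, h4, h5, h6⟩ := hpq d hd
    refine ⟨⟨?_, ?_⟩, hp0, hq0⟩
    · rw [h5]; exact hAF h4
    · have hpF := hP.sub _ h1
      have hqF := hP.sub _ h3
      have hsF := hS.sub _ h2
      rw [h5, hact_mul _ (F.mul_mem hpF hsF) _ (F.inv_mem hqF), hact_mul _ hpF _ hsF, hB _ hp0,
        hact_gen _ h2, hσ (s d) ⟨p d, hp0⟩ ⟨q d, hq0⟩ h4, ← hB _ hq0, hact_inv' _ hqF]
  have hT : Trans S F F1 P0 := by
    refine ⟨hP01, fun p hp => hP.sub p (hP0P hp), hP0c, ?_, ?_⟩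
    · intro a ha b hb hab
      have haF : a ∈ F := hP.sub a (hP0P ha)
      have hbF : b ∈ F := hP.sub b (hP0P hb)
      have h1 : act (a * b⁻¹) o = o := hab.2
      rw [hact_mul a haF _ (F.inv_mem hbF), hB a ha] at h1
      have h2 := congrArg (act b) h1
      rw [← hact_mul _ (F.inv_mem hbF) _ hbF, inv_mul_cancel, hact_one, hB b hb] at h2
      exact congrArg Subtype.val h2
    · intro k hk
      refine ⟨(act k o : G), (act k o).2, ?_⟩
      have hq : ((act k o : ↥P0) : G) ∈ F := hP.sub _ (hP0P (act k o).2)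
      refine ⟨F.mul_mem hk (F.inv_mem hq), ?_⟩
      rw [hact_mul k hk _ (F.inv_mem hq)]
      have h1 := hact_inv' _ hq o
      rw [hB _ (act k o).2] at h1
      exact h1
  refine ⟨F1, hF1F, ⟨Sch S A P, Sch S F1 P0, ?_, hbA, schreier hS hF1F hT⟩, P0, hP0f, ?_⟩
  · intro d hd
    obtain ⟨h1, h2, h3, h4, h5, h6⟩ := hpq d hd
    obtain ⟨g1, g2, g3⟩ := hSch d hd
    refine ⟨p d, g2, s d, h2, q d, g3, ?_, h5, h6⟩
    rw [← h5]; exact g1
  · intro k hk
    exact hT.surj k hk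

end Pool.Agent.V8H66.LR
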