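import Pool.Agent.V8H66.LR.FF2

/-!
# Invariant free factors of finite relative rank
-/

set_option autoImplicit false
set_option linter.unusedSectionVars false
set_option linter.unusedVariables false

namespace Pool.Agent.V8H66.LR

open Set

variable {G : Type} [Group G]

/-- normalized by `H` -/
def InvH (H E : Subgroup G) : Prop := ∀ h ∈ H, ∀ e ∈ E, h * e * h⁻¹ ∈ E

theorem Bas.conj {S : Set G} {K : Subgroup G} (h : Bas S K) (g : G) :
    Bas ((MulAut.conj g) '' S) (K.map (MulAut.conj g).toMonoidHom) := by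
  refine ⟨?_, fun Γ _ f => ?_⟩
  · rw [← h.1, MonoidHom.map_closure]
    rfl
  · obtain ⟨φ, h1, h2⟩ := h.2 Γ (fun x => f (MulAut.conj g x))
    refine ⟨fun x => φ (MulAut.conj g⁻¹ x), ?_, ?_⟩
    · rintro _ ⟨a, ha, rfl⟩ _ ⟨b, hb, rfl⟩
      show φ (MulAut.conj g⁻¹ (MulAut.conj g a * MulAut.conj g b)) =
        φ (MulAut.conj g⁻¹ (MulAut.conj g a)) * φ (MulAut.conj g⁻¹ (MulAut.conj g b))
      have e : ∀ x, MulAut.conj g⁻¹ (MulAut.conj g x) = x := by
        intro x
        rw [MulAut.conj_apply, MulAut.conj_apply]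
        group
      rw [← map_mul, e, e, e]
      exact h1 a ha b hb
    · rintro _ ⟨s, hs, rfl⟩
      have e : MulAut.conj g⁻¹ (MulAut.conj g s) = s := by
        rw [MulAut.conj_apply, MulAut.conj_apply]
        group
      simp only
      rw [e, h2 s hs]

theorem FF.conj {A B : Subgroup G} (h : FF A B) (g : G) :
    FF (A.map (MulAut.conj g).toMonoidHom) (B.map (MulAut.conj g).toMonoidHom) := by
  obtain ⟨S, S', h1, h2, h3⟩ := h
  exact ⟨_, _, Set.image_mono h1, h2.conj g, h3.conj g⟩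

theorem mem_map_conj {B : Subgroup G} {g x : G} :
    x ∈ B.map (MulAut.conj g).toMonoidHom ↔ g⁻¹ * x * g ∈ B := by
  constructor
  · rintro ⟨b, hb, rfl⟩
    have : g⁻¹ * (MulAut.conj g).toMonoidHom b * g = b := by
      show g⁻¹ * (g * b * g⁻¹) * g = b
      group
    rw [this]; exact hb
  · intro h
    refine ⟨_, h, ?_⟩
    show g * (g⁻¹ * x * g) * g⁻¹ = x
    group

theorem InvH.map_eq {H E : Subgroup G} (h : InvH H E) {g : G} (hg : g ∈ H) :
    E.map (MulAut.conj g).toMonoidHom = E := by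
  ext x
  rw [mem_map_conj]
  constructor
  · intro hx
    have := h g hg _ hx
    have e : g * (g⁻¹ * x * g) * g⁻¹ = x := by group
    rwa [e] at this
  · intro hx
    have := h g⁻¹ (H.inv_mem hg) x hx
    rwa [inv_inv] at this

/-- the group of order two -/
abbrev C2 : Type := Multiplicative (ZMod 2)

/-- homomorphisms to the group of order two, trivial on `E` -/
def HS (E B : Subgroup G) : Set (G → C2) :=
  {χ | HomOn B χ ∧ (∀ e ∈ E, χ e = 1) ∧ ∀ g, g ∉ B → χ g = 1}

open Classical in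
/-- restriction -/
noncomputable def res (B : Subgroup G) (χ : G → C2) : G → C2 := fun g => if g ∈ B then χ g else 1

theorem res_mem {E B B' : Subgroup G} (hB : B' ≤ B) {χ : G → C2} (h : HomOn B χ)
    (hE : ∀ e ∈ E, χ e = 1) : res B' χ ∈ HS E B' := by
  classical
  refine ⟨?_, ?_, ?_⟩
  · intro a ha b hb
    simp only [res]
    rw [if_pos ha, if_pos hb, if_pos (B'.mul_mem ha hb)]
    exact h a (hB ha) b (hB hb)
  · intro e he
    simp only [res]
    split_ifs
    · exact hE e he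
    · rfl
  · intro g hg
    simp only [res]
    rw [if_neg hg]

theorem res_surj {E B B' : Subgroup G} (h : FF B' B) (hE : E ≤ B') :
    ∀ χ ∈ HS E B', ∃ χ' ∈ HS E B, res B' χ' = χ := by
  classical
  rintro χ ⟨h1, h2, h3⟩
  obtain ⟨S, S', g1, g2, g3⟩ := h
  obtain ⟨φ, p1, p2⟩ := g3.2 C2 (fun s => if s ∈ S then χ s else 1)
  have hle : B' ≤ B := by rw [← g2.1, ← g3.1]; exact Subgroup.closure_mono g1
  have hag : ∀ b ∈ B', φ b = χ b := by
    have := (p1.mono hle).eqOn h1 (S := S) (by rw [g2.1]) (by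
      intro s hs
      rw [p2 s (g1 hs), if_pos hs])
    rwa [g2.1] at this
  refine ⟨res B φ, res_mem le_rfl p1 (fun e he => by rw [hag e (hE he), h2 e he]), ?_⟩
  funext g
  simp only [res]
  by_cases hg : g ∈ B'
  · rw [if_pos hg, if_pos (hle hg), hag g hg]
  · rw [if_neg hg, h3 g hg]

/-- finite relative rank -/
def FFf (E B : Subgroup G) : Prop :=
  ∃ S S' : Set G, S ⊆ S' ∧ (S' \ S).Finite ∧ Bas S E ∧ Bas S' B

theorem hs_finite {E : Subgroup G} {S T : Set G} (hS : Bas S E) (hT : T.Finite) :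
    (HS E (Subgroup.closure (S ∪ T))).Finite := by
  have : Finite ↥T := hT
  refine Set.Finite.of_finite_image (f := fun (χ : G → C2) (t : ↥T) => χ t) (Set.toFinite _) ?_
  intro χ hχ χ' hχ' he
  have he' : ∀ t ∈ T, χ t = χ' t := fun t ht => congrFun he ⟨t, ht⟩
  funext g
  by_cases hg : g ∈ Subgroup.closure (S ∪ T)
  · exact hχ.1.eqOn hχ'.1 le_rfl (by
      rintro s (hs | hs)
      · rw [hχ.2.1 s (hS.sub s hs), hχ'.2.1 s (hS.sub s hs)]
      · exact he' s hs) g hg
  · rw [hχ.2.2 g hg, hχ'.2.2 g hg]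

theorem ff_finite {E B : Subgroup G} (h : FF E B) (hfin : (HS E B).Finite) : FFf E B := by
  classical
  obtain ⟨S, S', g1, g2, g3⟩ := h
  refine ⟨S, S', g1, ?_, g2, g3⟩
  choose! χ h1 h2 h3 using fun s (hs : s ∈ S') => g3.sep hs
  refine Set.Finite.of_injOn (f := fun s => res B (χ s)) (t := HS E B) ?_ ?_ hfin
  · intro s hs
    apply res_mem le_rfl (h1 s hs.1)
    intro e he
    rw [← g2.1] at he
    exact (h1 s hs.1).eqOn (ψ' := fun _ => 1) (fun _ _ _ _ => (one_mul _).symm)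
      (by rw [← g3.1]; exact Subgroup.closure_mono g1) (by
        intro t ht
        exact h3 s hs.1 t (g1 ht) (fun e => hs.2 (e ▸ ht))) e he
  · intro s hs t ht hst
    by_contra hne
    have h4 := congrFun hst s
    simp only [res] at h4
    rw [if_pos (g3.sub s hs.1), if_pos (g3.sub s hs.1), h3 t ht.1 s hs.1 hne] at h4
    exact h2 s hs.1 h4

/-- the invariant hull -/
theorem hull {F' E H A : Subgroup G} (hF' : InvH H F') (hE : InvH H E) (hEF : FF E F')
    (hAE : A ≤ E) {R : Set G} (hR : R.Finite) (hRH : ∀ ρ ∈ R, ρ ∈ H)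
    (hRc : ∀ h ∈ H, ∃ a ∈ A, ∃ ρ ∈ R, h = a * ρ) {x : G} (hx : x ∈ F') :
    ∃ B : Subgroup G, E ≤ B ∧ InvH H B ∧ FF B F' ∧ x ∈ B ∧ FFf E B := by
  classical
  let Fam : Subgroup G → Prop := fun B => E ≤ B ∧ FF B F' ∧ (∀ h ∈ H, h * x * h⁻¹ ∈ B) ∧
    (HS E B).Finite
  have hne : ∃ n, ∃ B, Fam B ∧ (HS E B).ncard = n := by
    obtain ⟨S1, S2, g1, g2, g3⟩ := hEF
    obtain ⟨T, hT1, hT2, hT3⟩ := finite_in_closure (S := S2) (hR.image fun ρ => ρ * x * ρ⁻¹) (by
      rintro _ ⟨ρ, hρ, rfl⟩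
      rw [g3.1]
      exact hF' ρ (hRH ρ hρ) x hx)
    refine ⟨_, Subgroup.closure (S1 ∪ T), ⟨?_, ?_, ?_, hs_finite g2 hT2⟩, rfl⟩
    · rw [← g2.1]; exact Subgroup.closure_mono subset_union_left
    · exact ⟨S1 ∪ T, S2, union_subset g1 hT1, g3.mono (union_subset g1 hT1), g3⟩
    · intro h hh
      obtain ⟨a, ha, ρ, hρ, rfl⟩ := hRc h hh
      have e : a * ρ * x * (a * ρ)⁻¹ = a * (ρ * x * ρ⁻¹) * a⁻¹ := by group
      rw [e]
      have ha' : a ∈ Subgroup.closure (S1 ∪ T) := by
        have : a ∈ E := hAE ha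
        rw [← g2.1] at this
        exact Subgroup.closure_mono subset_union_left this
      exact mul_mem (mul_mem ha' (Subgroup.closure_mono subset_union_right
        (hT3 _ ⟨ρ, hρ, rfl⟩))) (inv_mem ha')
  obtain ⟨B, ⟨hB1, hB2, hB3, hB4⟩, hB5⟩ := Nat.find_spec hne
  have hmin : ∀ B', Fam B' → (HS E B).ncard ≤ (HS E B').ncard := by
    intro B' hB'
    rw [hB5]
    exact Nat.find_min' hne ⟨B', hB', rfl⟩
  have hinv : ∀ h ∈ H, B ≤ B.map (MulAut.conj h).toMonoidHom := by
    intro h hh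
    set B' := B.map (MulAut.conj h).toMonoidHom with hB'
    have k1 : FF B' F' := by
      have := hB2.conj h
      rwa [hF'.map_eq hh] at this
    have k2 : FF (B' ⊓ B) B := k1.inter hB2.le
    have k3 : FF (B' ⊓ B) F' := k2.trans hB2
    have k4 : E ≤ B' ⊓ B := by
      apply le_inf _ hB1
      rw [← hE.map_eq hh]
      exact Subgroup.map_mono hB1
    have k5 : HS E (B' ⊓ B) ⊆ res (B' ⊓ B) '' HS E B := by
      intro χ hχ
      obtain ⟨χ', h1, h2⟩ := res_surj k2 k4 χ hχ
      exact ⟨χ', h1, h2⟩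
    have k6 : res (B' ⊓ B) '' HS E B ⊆ HS E (B' ⊓ B) := by
      rintro _ ⟨χ, hχ, rfl⟩
      exact res_mem inf_le_right hχ.1 hχ.2.1
    have k7 : HS E (B' ⊓ B) = res (B' ⊓ B) '' HS E B := Set.Subset.antisymm k5 k6
    have k8 : Fam (B' ⊓ B) := by
      refine ⟨k4, k3, ?_, ?_⟩
      · intro k hk
        refine ⟨?_, hB3 k hk⟩
        show k * x * k⁻¹ ∈ B'
        rw [hB', mem_map_conj]
        have e : h⁻¹ * (k * x * k⁻¹) * h = (h⁻¹ * k) * x * (h⁻¹ * k)⁻¹ := by group
        rw [e]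
        exact hB3 _ (H.mul_mem (H.inv_mem hh) hk)
      · rw [k7]; exact hB4.image _
    have k9 := hmin _ k8
    rw [k7] at k9
    have k10 : Set.InjOn (res (B' ⊓ B)) (HS E B) := by
      apply Set.injOn_of_ncard_image_eq _ hB4
      exact le_antisymm (Set.ncard_image_le hB4) k9
    obtain ⟨S3, S4, m1, m2, m3⟩ := k2
    have m4 : S4 ⊆ S3 := by
      intro s hs
      by_contra hs3
      obtain ⟨χ, n1, n2, n3⟩ := m3.sep hs
      have n4 : ∀ e ∈ B' ⊓ B, χ e = 1 := by
        intro e he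
        rw [← m2.1] at he
        exact n1.eqOn (ψ' := fun _ => 1) (fun _ _ _ _ => (one_mul _).symm)
          (by rw [← m3.1]; exact Subgroup.closure_mono m1) (by
            intro t ht
            exact n3 t (m1 ht) (fun e => hs3 (e ▸ ht))) e he
      have n5 : res B χ ∈ HS E B := res_mem le_rfl n1 (fun e he => n4 e (k4 he))
      have n6 : (fun _ => 1 : G → C2) ∈ HS E B :=
        ⟨fun _ _ _ _ => (one_mul _).symm, fun _ _ => rfl, fun _ _ => rfl⟩
      have n7 : res (B' ⊓ B) (res B χ) = res (B' ⊓ B) (fun _ => 1) := by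
        funext g
        simp only [res]
        by_cases hg : g ∈ B' ⊓ B
        · have hgB : g ∈ B := hg.2
          rw [if_pos hg, if_pos hg, if_pos hgB, n4 g hg]
        · rw [if_neg hg, if_neg hg]
      have n8 := congrFun (k10 n5 n6 n7) s
      simp only [res] at n8
      rw [if_pos (m3.sub s hs)] at n8
      exact n2 n8
    have m5 : B ≤ B' ⊓ B := by
      rw [← m2.1, ← m3.1]
      exact Subgroup.closure_mono m4
    exact m5.trans inf_le_left
  refine ⟨B, hB1, ?_, hB2, ?_, ?_⟩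
  · intro h hh e he
    have := hinv h⁻¹ (H.inv_mem hh) he
    rw [mem_map_conj, inv_inv] at this
    exact this
  · have := hB3 1 H.one_mem
    simpa using this
  · apply ff_finite _ hB4
    have := hEF.inter hB2.le
    rwa [inf_eq_left.2 hB1] at this

end Pool.Agent.V8H66.LR
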