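import Pool.Agent.V8H66.LR.Cuts

/-!
# Orientations of nested sets
-/

set_option autoImplicit false
set_option linter.unusedSectionVars false
set_option linter.unusedVariables false

namespace Pool.Agent.V8H66.LR

open Set

variable {V : Type}

/-- a discrete nested family, closed under complements -/
structure Nest (E : Set (Set V)) : Prop where
  compl : ∀ c ∈ E, cᶜ ∈ E
  nested : ∀ c ∈ E, ∀ d ∈ E, ¬ Cross c d
  ne : ∀ c ∈ E, c ≠ ∅
  fin : ∀ v w, {c | c ∈ E ∧ ¬ (v ∈ c ↔ w ∈ c)}.Finite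

/-- the members containing a point -/
def Ov (E : Set (Set V)) (v : V) : Set (Set V) := {c | c ∈ E ∧ v ∈ c}

/-- orientations (vertices of the tree) -/
structure Ori (E : Set (Set V)) (w : Set (Set V)) : Prop where
  sub : w ⊆ E
  excl : ∀ c ∈ E, (c ∈ w ↔ cᶜ ∉ w)
  up : ∀ c ∈ w, ∀ d ∈ E, c ⊆ d → d ∈ w
  fin : ∀ v, (w \ Ov E v).Finite

/-- the head of an edge -/
def hd (E : Set (Set V)) (c : Set V) : Set (Set V) := {d | d ∈ E ∧ (c ⊆ d ∨ (cᶜ ⊆ d ∧ d ≠ cᶜ))}

variable {E : Set (Set V)}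

theorem Nest.ne_compl (hE : Nest E) {c : Set V} (hc : c ∈ E) : cᶜ ≠ ∅ := hE.ne _ (hE.compl _ hc)

theorem Nest.not_both (hE : Nest E) {c d : Set V} (hc : c ∈ E) (h1 : c ⊆ d) (h2 : c ⊆ dᶜ) :
    False := by
  apply hE.ne c hc
  rw [Set.eq_empty_iff_forall_notMem]
  intro x hx
  exact h2 hx (h1 hx)

theorem Nest.hd_or (hE : Nest E) {c d : Set V} (hc : c ∈ E) (hd' : d ∈ E) :
    d ∈ hd E c ∨ dᶜ ∈ hd E c := by
  rcases not_cross (hE.nested c hc d hd') with h | h | h | h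
  · exact Or.inl ⟨hd', Or.inl h⟩
  · exact Or.inr ⟨hE.compl _ hd', Or.inl h⟩
  · by_cases e : d = cᶜ
    · right
      refine ⟨hE.compl _ hd', Or.inl ?_⟩
      rw [e, compl_compl]
    · exact Or.inl ⟨hd', Or.inr ⟨h, e⟩⟩
  · by_cases e : dᶜ = cᶜ
    · left
      refine ⟨hd', Or.inl ?_⟩
      rw [compl_inj_iff] at e
      rw [e]
    · exact Or.inr ⟨hE.compl _ hd', Or.inr ⟨h, e⟩⟩

theorem Nest.hd_excl (hE : Nest E) {c d : Set V} (hc : c ∈ E) (h1 : d ∈ hd E c)
    (h2 : dᶜ ∈ hd E c) : False := by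
  rcases h1 with ⟨h1, h3 | ⟨h3, h3'⟩⟩ <;> rcases h2 with ⟨h2, h4 | ⟨h4, h4'⟩⟩
  · exact hE.not_both hc h3 h4
  · apply h4'
    have : d ⊆ c := compl_subset_compl.1 h4
    rw [Set.Subset.antisymm this h3]
  · apply h3'
    have : d ⊆ cᶜ := by rw [← compl_subset_compl, compl_compl]; exact h4
    exact Set.Subset.antisymm this h3
  · exact hE.not_both (hE.compl _ hc) h3 h4

theorem Nest.ori_hd (hE : Nest E) {c : Set V} (hc : c ∈ E) : Ori E (hd E c) where
  sub := fun d hd' => hd'.1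
  excl := by
    intro d hd'
    constructor
    · intro h1 h2
      exact hE.hd_excl hc h1 h2
    · intro h
      rcases hE.hd_or hc hd' with h' | h'
      · exact h'
      · exact absurd h' h
  up := by
    rintro d ⟨h1, h2⟩ e he hde
    refine ⟨he, ?_⟩
    rcases h2 with h2 | ⟨h2, h3⟩
    · exact Or.inl (h2.trans hde)
    · refine Or.inr ⟨h2.trans hde, ?_⟩
      rintro rfl
      exact h3 (Set.Subset.antisymm hde h2)
  fin := by
    intro v
    obtain ⟨x, hx⟩ := Set.nonempty_iff_ne_empty.2 (hE.ne c hc)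
    obtain ⟨y, hy⟩ := Set.nonempty_iff_ne_empty.2 (hE.ne_compl hc)
    refine ((hE.fin x v).union (hE.fin y v)).subset ?_
    rintro d ⟨⟨h1, h2⟩, h3⟩
    have h4 : v ∉ d := fun h => h3 ⟨h1, h⟩
    rcases h2 with h2 | ⟨h2, -⟩
    · left; exact ⟨h1, fun h => h4 (h.1 (h2 hx))⟩
    · right; exact ⟨h1, fun h => h4 (h.1 (h2 hy))⟩

theorem Nest.ori_Ov (hE : Nest E) (v : V) : Ori E (Ov E v) where
  sub := fun d hd' => hd'.1
  excl := by
    intro c hc
    constructor
    · rintro ⟨-, h⟩ ⟨-, h'⟩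
      exact h' h
    · intro h
      refine ⟨hc, ?_⟩
      by_contra h'
      exact h ⟨hE.compl _ hc, h'⟩
  up := by
    rintro c ⟨h1, h2⟩ d hd' hcd
    exact ⟨hd', hcd h2⟩
  fin := by
    intro u
    refine (hE.fin v u).subset ?_
    rintro c ⟨⟨h1, h2⟩, h3⟩
    exact ⟨h1, fun h => h3 ⟨h1, h.1 h2⟩⟩

theorem Ori.eq_of_subset {w w' : Set (Set V)} (hw : Ori E w) (hw' : Ori E w') (h : w ⊆ w') :
    w = w' := by
  apply Set.Subset.antisymm h
  intro c hc
  have hcE := hw'.sub hc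
  rw [hw.excl c hcE]
  intro h'
  exact (hw'.excl c hcE).1 hc (h h')

theorem Ori.chain (hE : Nest E) {w : Set (Set V)} (hw : Ori E w) {v : V} {c d : Set V}
    (hc : c ∈ w) (hc' : v ∉ c) (hd' : d ∈ w) (hd'' : v ∉ d) : c ⊆ d ∨ d ⊆ c := by
  rcases not_cross (hE.nested c (hw.sub hc) d (hw.sub hd')) with h | h | h | h
  · exact Or.inl h
  · exact absurd (hw.up c hc _ (hE.compl _ (hw.sub hd')) h) ((hw.excl d (hw.sub hd')).1 hd')
  · exact absurd (h hc') hd''
  · exact Or.inr (compl_subset_compl.1 h)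

/-- a non-special orientation is the head of an edge -/
theorem Ori.exists_min (hE : Nest E) {w : Set (Set V)} (hw : Ori E w) {v : V}
    (hne : w ≠ Ov E v) : ∃ c ∈ w, v ∉ c ∧ ∀ d ∈ w, v ∉ d → c ⊆ d := by
  have h1 : (w \ Ov E v).Nonempty := by
    by_contra hcon
    rw [Set.not_nonempty_iff_eq_empty] at hcon
    apply hne
    apply hw.eq_of_subset (hE.ori_Ov v)
    intro c hc
    by_contra h
    have : c ∈ w \ Ov E v := ⟨hc, h⟩
    rw [hcon] at this
    exact this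
  obtain ⟨c, hc⟩ := (hw.fin v).exists_minimal h1
  have hcm := hc.1
  refine ⟨c, hcm.1, fun h => hcm.2 ⟨hw.sub hcm.1, h⟩, ?_⟩
  intro d hd' hvd
  have hd2 : d ∈ w \ Ov E v := ⟨hd', fun h => hvd h.2⟩
  rcases hw.chain hE hcm.1 (fun h => hcm.2 ⟨hw.sub hcm.1, h⟩) hd' hvd with h | h
  · exact h
  · exact hc.2 hd2 h

theorem Ori.eq_hd (hE : Nest E) {w : Set (Set V)} (hw : Ori E w) {v : V} {c : Set V} (hc : c ∈ w)
    (hv : v ∉ c) (hmin : ∀ d ∈ w, v ∉ d → c ⊆ d) : w = hd E c := by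
  have hcE := hw.sub hc
  apply hw.eq_of_subset (hE.ori_hd hcE)
  intro d hd'
  have hdE := hw.sub hd'
  rcases not_cross (hE.nested c hcE d hdE) with h | h | h | h
  · exact ⟨hdE, Or.inl h⟩
  · exact absurd (hw.up c hc _ (hE.compl _ hdE) h) ((hw.excl d hdE).1 hd')
  · refine ⟨hdE, Or.inr ⟨h, ?_⟩⟩
    rintro rfl
    exact (hw.excl c hcE).1 hc hd'
  · have h2 : d ⊆ c := compl_subset_compl.1 h
    have := hmin d hd' (fun h' => hv (h2 h'))
    exact ⟨hdE, Or.inl this⟩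

/-- every orientation is special or a head -/
theorem Ori.cases (hE : Nest E) {w : Set (Set V)} (hw : Ori E w) (v : V) :
    w = Ov E v ∨ ∃ c ∈ E, w = hd E c ∧ v ∉ c := by
  by_cases h : w = Ov E v
  · exact Or.inl h
  · obtain ⟨c, h1, h2, h3⟩ := hw.exists_min hE h
    exact Or.inr ⟨c, hw.sub h1, hw.eq_hd hE h1 h2 h3, h2⟩

theorem hd_diff (hE : Nest E) {v : V} {c : Set V} (hc : c ∈ E) (hv : v ∉ c) :
    hd E c \ Ov E v = {d | d ∈ E ∧ c ⊆ d ∧ v ∉ d} := by
  ext d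
  simp only [mem_sdiff, mem_ofPred_eq, hd, Ov]
  constructor
  · rintro ⟨⟨h1, h2⟩, h3⟩
    have hvd : v ∉ d := fun h => h3 ⟨h1, h⟩
    rcases h2 with h2 | ⟨h2, -⟩
    · exact ⟨h1, h2, hvd⟩
    · exact absurd (h2 hv) hvd
  · rintro ⟨h1, h2, h3⟩
    exact ⟨⟨h1, Or.inl h2⟩, fun h => h3 h.2⟩

theorem hd_diff' (hE : Nest E) {v : V} {c : Set V} (hc : c ∈ E) (hv : v ∉ c) :
    hd E cᶜ \ Ov E v = {d | d ∈ E ∧ c ⊆ d ∧ v ∉ d} \ {c} := by
  ext d
  simp only [mem_sdiff, mem_ofPred_eq, hd, Ov, compl_compl, mem_singleton_iff]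
  constructor
  · rintro ⟨⟨h1, h2⟩, h3⟩
    have hvd : v ∉ d := fun h => h3 ⟨h1, h⟩
    rcases h2 with h2 | ⟨h2, h4⟩
    · exact absurd (h2 hv) hvd
    · exact ⟨⟨h1, h2, hvd⟩, h4⟩
  · rintro ⟨⟨h1, h2, h3⟩, h4⟩
    exact ⟨⟨h1, Or.inr ⟨h2, h4⟩⟩, fun h => h3 h.2⟩

open Classical in
/-- ordered product along a finite chain -/
noncomputable def chainProd {Γ : Type} [Group Γ] (z : Set V → Γ) : ℕ → Set (Set V) → Γ
  | 0, _ => 1
  | (k + 1), w => if h : ∃ c ∈ w, ∀ d ∈ w, c ⊆ d then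
      chainProd z k (w \ {h.choose}) * z h.choose else 1

theorem chainProd_succ {Γ : Type} [Group Γ] (z : Set V → Γ) (k : ℕ) (w : Set (Set V))
    {c : Set V} (hc : c ∈ w) (hmin : ∀ d ∈ w, c ⊆ d) :
    chainProd z (k + 1) w = chainProd z k (w \ {c}) * z c := by
  have h : ∃ c ∈ w, ∀ d ∈ w, c ⊆ d := ⟨c, hc, hmin⟩
  have e : h.choose = c :=
    Set.Subset.antisymm (h.choose_spec.2 c hc) (hmin _ h.choose_spec.1)
  rw [chainProd, dif_pos h, e]

/-- integration along the tree -/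
theorem tree1 (hE : Nest E) (v : V) {Γ : Type} [Group Γ] (z : Set V → Γ)
    (hz : ∀ c ∈ E, z cᶜ = (z c)⁻¹) :
    ∃ f : Set (Set V) → Γ, f (Ov E v) = 1 ∧ ∀ c ∈ E, f (hd E c) = f (hd E cᶜ) * z c := by
  have key : ∀ c ∈ E, v ∉ c → chainProd z (hd E c \ Ov E v).ncard (hd E c \ Ov E v) =
      chainProd z (hd E cᶜ \ Ov E v).ncard (hd E cᶜ \ Ov E v) * z c := by
    intro c hc hv
    have hfin := (hE.ori_hd hc).fin v
    rw [hd_diff hE hc hv] at *
    rw [hd_diff' hE hc hv]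
    have hmem : c ∈ {d | d ∈ E ∧ c ⊆ d ∧ v ∉ d} := ⟨hc, Subset.rfl, hv⟩
    have h1 := Set.ncard_sdiff_singleton_add_one hmem hfin
    rw [← h1, chainProd_succ z _ _ hmem (fun d hd' => hd'.2.1)]
  refine ⟨fun w => chainProd z (w \ Ov E v).ncard (w \ Ov E v), ?_, ?_⟩
  · have : Ov E v \ Ov E v = ∅ := by
      ext x; simp only [mem_sdiff, mem_empty_iff_false, iff_false]; tauto
    simp only [this, ncard_empty]
    rfl
  · intro c hc
    by_cases hv : v ∈ c
    · have hv' : v ∉ cᶜ := fun h => h hv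
      have := key cᶜ (hE.compl _ hc) hv'
      rw [compl_compl, hz c hc] at this
      simp only
      rw [this, inv_mul_cancel_right]
    · exact key c hc hv

/-- functions that agree along edges are constant -/
theorem tree2 (hE : Nest E) (v : V) {X : Type} (φ : Set (Set V) → X)
    (hφ : ∀ c ∈ E, φ (hd E c) = φ (hd E cᶜ)) : ∀ w, Ori E w → φ w = φ (Ov E v) := by
  have key : ∀ k : ℕ, ∀ w, Ori E w → (w \ Ov E v).ncard ≤ k → φ w = φ (Ov E v) := by
    intro k
    induction k with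
    | zero =>
      intro w hw hk
      rcases hw.cases hE v with h | ⟨c, hc, rfl, hv⟩
      · rw [h]
      · exfalso
        have hfin := hw.fin v
        have h0 : (hd E c \ Ov E v).ncard = 0 := by omega
        rw [Set.ncard_eq_zero hfin, hd_diff hE hc hv] at h0
        have hmem : c ∈ {d | d ∈ E ∧ c ⊆ d ∧ v ∉ d} := ⟨hc, Subset.rfl, hv⟩
        rw [h0] at hmem
        exact hmem
    | succ k ih =>
      intro w hw hk
      rcases hw.cases hE v with h | ⟨c, hc, rfl, hv⟩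
      · rw [h]
      · rw [hφ c hc]
        apply ih _ (hE.ori_hd (hE.compl _ hc))
        have hfin := hw.fin v
        rw [hd_diff hE hc hv] at hfin hk
        rw [hd_diff' hE hc hv]
        have hmem : c ∈ {d | d ∈ E ∧ c ⊆ d ∧ v ∉ d} := ⟨hc, Subset.rfl, hv⟩
        have h1 := Set.ncard_sdiff_singleton_add_one hmem hfin
        omega
  intro w hw
  exact key _ w hw le_rfl

section Act

open Pointwise

variable {G : Type} [Group G] [MulAction G V]

theorem smul_hd (hG : ∀ (g : G), ∀ c ∈ E, g • c ∈ E) (g : G) (c : Set V) :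
    g • hd E c = hd E (g • c) := by
  ext d
  rw [mem_smul_set_iff_inv_smul_mem]
  have hd' : g⁻¹ • d ∈ E ↔ d ∈ E :=
    ⟨fun h => by have := hG g _ h; rwa [smul_inv_smul] at this, fun h => hG _ _ h⟩
  simp only [hd, mem_ofPred_eq, hd', ← Set.smul_set_compl]
  have e1 : c ⊆ g⁻¹ • d ↔ g • c ⊆ d := by
    rw [Set.smul_set_subset_iff_subset_inv_smul_set]
  have e2 : cᶜ ⊆ g⁻¹ • d ↔ g • cᶜ ⊆ d := by
    rw [Set.smul_set_subset_iff_subset_inv_smul_set]
  have e3 : g⁻¹ • d ≠ cᶜ ↔ d ≠ g • cᶜ := by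
    rw [not_iff_not]
    exact ⟨fun h => by rw [← h, smul_inv_smul], fun h => by rw [h, inv_smul_smul]⟩
  rw [e1, e2, e3]

theorem smul_Ov (hG : ∀ (g : G), ∀ c ∈ E, g • c ∈ E) (g : G) (v : V) :
    g • Ov E v = Ov E (g • v) := by
  ext d
  rw [mem_smul_set_iff_inv_smul_mem]
  have hd' : g⁻¹ • d ∈ E ↔ d ∈ E :=
    ⟨fun h => by have := hG g _ h; rwa [smul_inv_smul] at this, fun h => hG _ _ h⟩
  simp only [Ov, mem_ofPred_eq, hd', mem_smul_set_iff_inv_smul_mem, inv_inv]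

theorem Ori.smul (hG : ∀ (g : G), ∀ c ∈ E, g • c ∈ E) (g : G) {w : Set (Set V)}
    (hw : Ori E w) : Ori E (g • w) where
  sub := by
    rintro _ ⟨c, hc, rfl⟩
    exact hG g c (hw.sub hc)
  excl := by
    intro c hc
    rw [mem_smul_set_iff_inv_smul_mem, mem_smul_set_iff_inv_smul_mem, Set.smul_set_compl]
    exact hw.excl _ (hG _ _ hc)
  up := by
    intro c hc d hd' hcd
    rw [mem_smul_set_iff_inv_smul_mem] at *
    exact hw.up _ hc _ (hG _ _ hd') (Set.smul_set_mono hcd)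
  fin := by
    intro v
    have : g • w \ Ov E v = g • (w \ Ov E (g⁻¹ • v)) := by
      rw [Set.smul_set_sdiff, smul_Ov hG, smul_inv_smul]
    rw [this]
    exact (hw.fin _).smul_set

/-- a finite group of automorphisms fixes an orientation or an unoriented edge -/
theorem tree3 (hE : Nest E) (hG : ∀ (g : G), ∀ c ∈ E, g • c ∈ E) (v : V) (C : Subgroup G)
    (hC : Finite C) : (∃ w, Ori E w ∧ ∀ g ∈ C, g • w = w) ∨
      (∃ c ∈ E, ∀ g ∈ C, g • c = c ∨ g • c = cᶜ) := by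
  classical
  have := Fintype.ofFinite C
  let N : Set V → ℕ := fun c => (Finset.univ.filter fun g : C => (g : G) • v ∈ c).card
  have hNc : ∀ c, N c + N cᶜ = Fintype.card C := by
    intro c
    have := Finset.card_filter_add_card_filter_not (s := (Finset.univ : Finset C))
      (fun g : C => (g : G) • v ∈ c)
    rw [Finset.card_univ] at this
    rw [← this]
    simp only [N]
    congr 2
    ext g
    simp only [Finset.mem_filter, mem_compl_iff]
  have hNmono : ∀ c d, c ⊆ d → N c ≤ N d := by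
    intro c d h
    apply Finset.card_le_card
    intro g hg
    rw [Finset.mem_filter] at *
    exact ⟨hg.1, h hg.2⟩
  have hNg : ∀ g ∈ C, ∀ c, N (g • c) = N c := by
    intro g hg c
    refine Finset.card_bij (fun x _ => (⟨g, hg⟩ : C)⁻¹ * x) ?_ ?_ ?_
    · intro x hx
      simp only [Finset.mem_filter, Finset.mem_univ, true_and, mem_smul_set_iff_inv_smul_mem,
        smul_smul, Subgroup.coe_mul, Subgroup.coe_inv] at *
      exact hx
    · intro x _ y _ h
      exact mul_left_cancel h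
    · intro x hx
      refine ⟨⟨g, hg⟩ * x, ?_, by rw [inv_mul_cancel_left]⟩
      simp only [Finset.mem_filter, Finset.mem_univ, true_and, mem_smul_set_iff_inv_smul_mem,
        smul_smul, Subgroup.coe_mul, inv_mul_cancel_left] at *
      exact hx
  have hpos : 0 < Fintype.card C := Fintype.card_pos
  have hfinT : (⋃ g : C, {c | c ∈ E ∧ ¬ (v ∈ c ↔ (g : G) • v ∈ c)}).Finite :=
    Set.finite_iUnion fun g => hE.fin _ _
  have hNfin : ∀ c ∈ E, 0 < N c → v ∉ c →
      c ∈ (⋃ g : C, {c | c ∈ E ∧ ¬ (v ∈ c ↔ (g : G) • v ∈ c)}) := by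
    intro c hc h hv
    rw [Finset.card_pos] at h
    obtain ⟨g, hg⟩ := h
    rw [Finset.mem_filter] at hg
    rw [mem_iUnion]
    exact ⟨g, hc, fun h => hv (h.2 hg.2)⟩
  have hNfin' : ∀ c ∈ E, 0 < N c → 0 < N cᶜ →
      c ∈ (⋃ g : C, {c | c ∈ E ∧ ¬ (v ∈ c ↔ (g : G) • v ∈ c)}) := by
    intro c hc h h'
    by_cases hv : v ∈ c
    · have := hNfin cᶜ (hE.compl _ hc) h' (fun h => h hv)
      rw [mem_iUnion] at *
      obtain ⟨g, -, hg⟩ := this
      refine ⟨g, hc, ?_⟩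
      simp only [mem_compl_iff] at hg
      tauto
    · exact hNfin c hc h hv
  let H0 : Set (Set V) := {c | c ∈ E ∧ N c = N cᶜ}
  have hH0 : H0.Finite := by
    refine hfinT.subset ?_
    rintro c ⟨hc, hN⟩
    have := hNc c
    exact hNfin' c hc (by omega) (by omega)
  let L : Set V → ℕ := fun c => {d | d ∈ H0 ∧ d ⊆ c}.ncard
  have hLfin : ∀ c, {d | d ∈ H0 ∧ d ⊆ c}.Finite := fun c => hH0.subset fun d hd' => hd'.1
  have hLmono : ∀ c d, c ⊆ d → L c ≤ L d := by
    intro c d h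
    apply Set.ncard_le_ncard _ (hLfin d)
    rintro e ⟨h1, h2⟩
    exact ⟨h1, h2.trans h⟩
  have hLeq : ∀ c ∈ H0, ∀ d ∈ H0, c ⊆ d → L c = L d → c = d := by
    intro c hc d hd' h h'
    have : {e | e ∈ H0 ∧ e ⊆ c} = {e | e ∈ H0 ∧ e ⊆ d} := by
      apply Set.eq_of_subset_of_ncard_le _ _ (hLfin d)
      · rintro e ⟨h1, h2⟩
        exact ⟨h1, h2.trans h⟩
      · exact h'.ge
    have h2 : d ∈ {e | e ∈ H0 ∧ e ⊆ c} := by rw [this]; exact ⟨hd', Subset.rfl⟩
    exact Set.Subset.antisymm h h2.2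
  have hH0g : ∀ g ∈ C, ∀ c, c ∈ H0 → g • c ∈ H0 := by
    rintro g hg c ⟨h1, h2⟩
    refine ⟨hG g c h1, ?_⟩
    rw [← Set.smul_set_compl, hNg g hg, hNg g hg, h2]
  have hLg : ∀ g ∈ C, ∀ c, L (g • c) = L c := by
    intro g hg c
    have : {e | e ∈ H0 ∧ e ⊆ g • c} = g • {e | e ∈ H0 ∧ e ⊆ c} := by
      ext e
      rw [mem_smul_set_iff_inv_smul_mem]
      simp only [mem_ofPred_eq]
      constructor
      · rintro ⟨h1, h2⟩
        refine ⟨hH0g _ (C.inv_mem hg) _ h1, ?_⟩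
        have := Set.smul_set_mono (a := g⁻¹) h2
        rwa [inv_smul_smul] at this
      · rintro ⟨h1, h2⟩
        have h3 := hH0g g hg _ h1
        rw [smul_inv_smul] at h3
        refine ⟨h3, ?_⟩
        have := Set.smul_set_mono (a := g) h2
        rwa [smul_inv_smul] at this
    show Set.ncard _ = Set.ncard _
    rw [this, ← Set.image_smul, Set.ncard_image_of_injective _ (MulAction.injective g)]
  by_cases htie : ∃ c ∈ E, N c = N cᶜ ∧ L c = L cᶜ
  · right
    obtain ⟨c, hc, h1, h2⟩ := htie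
    refine ⟨c, hc, fun g hg => ?_⟩
    have hc0 : c ∈ H0 := ⟨hc, h1⟩
    have hc1 : cᶜ ∈ H0 := ⟨hE.compl _ hc, by rw [compl_compl]; exact h1.symm⟩
    have hg0 : g • c ∈ H0 := hH0g g hg c hc0
    have hL1 := hLg g hg c
    rcases not_cross (hE.nested c hc _ (hG g c hc)) with h | h | h | h
    · left; exact (hLeq c hc0 _ hg0 h hL1.symm).symm
    · right
      have h' : g • c ⊆ cᶜ := by rw [subset_compl_comm]; exact h
      exact hLeq _ hg0 _ hc1 h' (by rw [hL1, h2])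
    · right
      exact (hLeq _ hc1 _ hg0 h (by rw [hL1, h2])).symm
    · left
      have h' : g • c ⊆ c := compl_subset_compl.1 h
      exact hLeq _ hg0 c hc0 h' hL1
  · left
    push Not at htie
    refine ⟨{c | c ∈ E ∧ (N cᶜ < N c ∨ (N cᶜ = N c ∧ L cᶜ < L c))}, ?_, ?_⟩
    · refine ⟨fun c hc => hc.1, ?_, ?_, ?_⟩
      · intro c hc
        have h1 := htie c hc
        simp only [mem_ofPred_eq, compl_compl]
        constructor
        · rintro ⟨-, h2⟩ ⟨-, h3⟩
          omega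
        · intro h2
          refine ⟨hc, ?_⟩
          have h3 : ¬ (N c < N cᶜ ∨ (N c = N cᶜ ∧ L c < L cᶜ)) := fun h => h2 ⟨hE.compl _ hc, h⟩
          by_contra h4
          have : N c = N cᶜ := by omega
          have := h1 this
          omega
      · rintro c ⟨hc, h1⟩ d hd' hcd
        have hcd' : dᶜ ⊆ cᶜ := compl_subset_compl.2 hcd
        have a1 := hNmono _ _ hcd
        have a2 := hNmono _ _ hcd'
        have a3 := hLmono _ _ hcd
        have a4 := hLmono _ _ hcd'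
        exact ⟨hd', by omega⟩
      · intro u
        refine (hfinT.union (hE.fin v u)).subset ?_
        rintro c ⟨⟨hc, h1⟩, h2⟩
        have hu : u ∉ c := fun h => h2 ⟨hc, h⟩
        have := hNc c
        by_cases hv : v ∈ c
        · right; exact ⟨hc, fun h => hu (h.1 hv)⟩
        · left; exact hNfin c hc (by omega) hv
    · intro g hg
      ext c
      rw [mem_smul_set_iff_inv_smul_mem]
      have hgE : g⁻¹ • c ∈ E ↔ c ∈ E :=
        ⟨fun h => by have := hG g _ h; rwa [smul_inv_smul] at this, fun h => hG _ _ h⟩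
      simp only [mem_ofPred_eq, hgE]
      rw [← Set.smul_set_compl, hNg _ (C.inv_mem hg), hNg _ (C.inv_mem hg), hLg _ (C.inv_mem hg),
        hLg _ (C.inv_mem hg)]

end Act

end Pool.Agent.V8H66.LR
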