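import Pool.Agent.V8H66.LR.CosetGraph

/-!
# Extension of homomorphisms over a relatively finitely generated free extension
-/

set_option autoImplicit false
set_option linter.unusedSectionVars false
set_option linter.unusedVariables false

namespace Pool.Agent.V8H66.LR

open Set Pointwise FreeGroup

variable {G ι Γ : Type} [Group G] [Group Γ]

/-- multiplicative on a subgroup -/
def HomOn (M : Subgroup G) (ψ : G → Γ) : Prop := ∀ a ∈ M, ∀ b ∈ M, ψ (a * b) = ψ a * ψ b

/-- conjugate to the reference homomorphism on finite subgroups -/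
def Inv (ψ0 : G →* Γ) (M : Subgroup G) (ψ : G → Γ) : Prop :=
  ∀ C : Subgroup G, Finite C → C ≤ M → ∃ γ : Γ, ∀ c ∈ C, ψ c = γ * ψ0 c * γ⁻¹

theorem exists_xr (φ : FreeGroup ι →* G) (hφ : Function.Injective φ) (R : Set G) (hR : R.Finite)
    (hRc : ∀ g, ∃ y, ∃ ρ ∈ R, g = φ y * ρ) (R0 : Set G) (h1 : (1 : G) ∈ R0)
    (hR0 : ∀ g, ∃ y, ∃ ρ ∈ R0, g = φ y * ρ) :
    ∃ (x : G → FreeGroup ι) (r : G → G), (∀ y g, x (φ y * g) = y * x g) ∧
      (∀ y g, r (φ y * g) = r g) ∧ (∀ g, g = φ (x g) * r g) ∧ (Set.range r).Finite ∧ x 1 = 1 ∧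
      ∀ g, r g ∈ R0 := by
  classical
  choose Y m hm hYm using hR0
  let q : G → Quotient (QuotientGroup.rightRel φ.range) := fun g => Quotient.mk _ g
  have hq : ∀ g h : G, q g = q h ↔ ∃ y, g = φ y * h := by
    intro g h
    show Quotient.mk _ g = Quotient.mk _ h ↔ _
    rw [Quotient.eq, QuotientGroup.rightRel_apply]
    constructor
    · rintro ⟨y, hy⟩
      refine ⟨y⁻¹, ?_⟩
      rw [_root_.map_inv, hy]
      group
    · rintro ⟨y, rfl⟩
      refine ⟨y⁻¹, ?_⟩
      rw [_root_.map_inv]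
      group
  let r : G → G := fun g => if q g = q 1 then 1 else m (q g).out
  have hr : ∀ y g, r (φ y * g) = r g := by
    intro y g
    have : q (φ y * g) = q g := (hq _ _).2 ⟨y, rfl⟩
    simp only [r, this]
  have hrex : ∀ g, ∃ y, g = φ y * r g := by
    intro g
    by_cases h : q g = q 1
    · simp only [r, if_pos h]
      exact (hq _ _).1 h
    · simp only [r, if_neg h]
      have : q g = q (q g).out := (Quotient.out_eq (q g)).symm
      obtain ⟨y, hy⟩ := (hq _ _).1 this
      refine ⟨y * Y (q g).out, ?_⟩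
      rw [_root_.map_mul, mul_assoc, ← hYm]
      exact hy
  choose x hx using hrex
  have hx1 : ∀ y g, x (φ y * g) = y * x g := by
    intro y g
    apply hφ
    have h1 := hx (φ y * g)
    rw [hr] at h1
    have h2 := hx g
    rw [_root_.map_mul]
    have h3 : φ (x (φ y * g)) * r g = φ y * φ (x g) * r g := by
      rw [← h1, mul_assoc, ← h2]
    exact mul_right_cancel h3
  refine ⟨x, r, hx1, hr, hx, ?_, ?_, ?_⟩
  · refine (hR.image r).subset ?_
    rintro _ ⟨g, rfl⟩
    obtain ⟨y, ρ, hρ, rfl⟩ := hRc g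
    rw [hr]
    exact ⟨ρ, hρ, rfl⟩
  · apply hφ
    have h2 := hx 1
    have h3 : r 1 = 1 := by simp [r]
    rw [h3, mul_one] at h2
    rw [← h2, _root_.map_one]
  · intro g
    by_cases h : q g = q 1
    · simp only [r, if_pos h]; exact h1
    · simp only [r, if_neg h]; exact hm _

theorem rel (φ : FreeGroup ι →* G) (hφ : Function.Injective φ) (J : Set ι) (hJ : Jᶜ.Finite)
    (M : Subgroup G) (hM : ∀ y, φ y ∈ M ↔ y ∈ Subgroup.closure (of '' J))
    (hMF : ∀ g, ∃ y, ∃ m ∈ M, g = φ y * m)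
    (R : Set G) (hR : R.Finite) (hRc : ∀ g, ∃ y, ∃ ρ ∈ R, g = φ y * ρ)
    (ψ0 : G →* Γ) (ψM : G → Γ) (hhom : HomOn M ψM) (hinv : Inv ψ0 M ψM) :
    ∃ ψ : G →* Γ, (∀ m ∈ M, ψ m = ψM m) ∧ Inv ψ0 ⊤ ψ := by
  classical
  obtain ⟨x, r, hx, hr, hd', hrfin, hx1, hrM⟩ := exists_xr φ hφ R hR hRc (M : Set G) M.one_mem hMF
  have : Finite ↥(Jᶜ) := hJ
  let σ : ↥(Jᶜ) → G := fun t => φ (of t.1)
  have h : CGH φ J M x r σ := by
    refine ⟨hx, hr, hd', hrfin, ?_, hx1, ?_⟩
    · intro g m hm
      have hk : r g * m ∈ M := M.mul_mem (hrM g) hm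
      rw [← hM]
      have := hd' (r g * m)
      rw [← mul_inv_eq_iff_eq_mul] at this
      rw [← this]
      exact M.mul_mem hk (M.inv_mem (hrM _))
    · rw [eq_top_iff]
      intro g _
      have hMle : M ≤ Subgroup.closure ((M : Set G) ∪ Set.range σ) := fun m hm =>
        Subgroup.subset_closure (Or.inl hm)
      have hφle : ∀ y, φ y ∈ Subgroup.closure ((M : Set G) ∪ Set.range σ) := by
        intro y
        induction y using FreeGroup.induction_on with
        | C1 => rw [_root_.map_one]; exact one_mem _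
        | of s =>
          by_cases hs : s ∈ J
          · exact hMle ((hM _).2 (Subgroup.subset_closure ⟨s, hs, rfl⟩))
          · exact Subgroup.subset_closure (Or.inr ⟨⟨s, hs⟩, rfl⟩)
        | inv_of s ih => rw [_root_.map_inv]; exact inv_mem ih
        | mul a b ha hb => rw [_root_.map_mul]; exact mul_mem ha hb
      obtain ⟨y, m, hm, rfl⟩ := hMF g
      exact mul_mem (hφle y) (hMle hm)
  set E := EE M x σ with hEdef
  have hE : Nest E := h.nest
  have hG : ∀ (g : G), ∀ c ∈ E, g • c ∈ E := fun g c hc => EE_smul g c hc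
  have hOinj : ∀ v w : G ⧸ M, Ov E v = Ov E w → v = w := by
    intro v w hvw
    by_contra hne
    obtain ⟨c, hc, hc'⟩ := h.separate hMF (fun y hy => (hM y).2 hy) hne
    apply hc'
    have := Set.ext_iff.1 hvw c
    constructor
    · intro hv; exact (this.1 ⟨hc, hv⟩).2
    · intro hv; exact (this.2 ⟨hc, hv⟩).2
  -- section
  let τ : G ⧸ M → G := fun v => if v = QuotientGroup.mk 1 then 1 else Quotient.out v
  have hτ : ∀ v, (QuotientGroup.mk (τ v) : G ⧸ M) = v := by
    intro v
    by_cases hv : v = QuotientGroup.mk 1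
    · simp only [τ, if_pos hv]; exact hv.symm
    · simp only [τ, if_neg hv]; exact Quotient.out_eq v
  have hτ1 : τ (QuotientGroup.mk 1) = 1 := by simp only [τ, if_pos]
  have hτM : ∀ (g : G) v, (τ (g • v))⁻¹ * g * τ v ∈ M := by
    intro g v
    rw [mul_assoc, ← QuotientGroup.eq, hτ]
    show g • v = g • (QuotientGroup.mk (τ v) : G ⧸ M)
    rw [hτ]
  let a : G → Set (Set (G ⧸ M)) → Γ := fun g w => if h : ∃ v, w = Ov E v then
    ψM ((τ (g • h.choose))⁻¹ * g * τ h.choose) else ψ0 g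
  have ha1 : ∀ g v, a g (Ov E v) = ψM ((τ (g • v))⁻¹ * g * τ v) := by
    intro g v
    have h' : ∃ v', Ov E v = Ov E v' := ⟨v, rfl⟩
    have e : a g (Ov E v) = ψM ((τ (g • h'.choose))⁻¹ * g * τ h'.choose) := dif_pos h'
    have e2 : h'.choose = v := (hOinj _ _ h'.choose_spec).symm
    rw [e, e2]
  have ha2 : ∀ g w, (¬ ∃ v, w = Ov E v) → a g w = ψ0 g := by
    intro g w h'
    exact dif_neg h'
  have ha : ∀ g k w, a (g * k) w = a g (k • w) * a k w := by
    intro g k w
    by_cases hw : ∃ v, w = Ov E v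
    · obtain ⟨v, rfl⟩ := hw
      rw [smul_Ov hG, ha1, ha1, ha1, ← hhom _ (hτM g (k • v)) _ (hτM k v), mul_smul]
      congr 1
      group
    · have hw' : ¬ ∃ v, k • w = Ov E v := by
        rintro ⟨v, hv⟩
        apply hw
        refine ⟨k⁻¹ • v, ?_⟩
        rw [← smul_Ov hG, ← hv, inv_smul_smul]
      rw [ha2 _ _ hw, ha2 _ _ hw', ha2 _ _ hw, _root_.map_mul]
  -- finite subgroups fixing a special vertex
  have hfinsub : ∀ (C : Subgroup G) (v : G ⧸ M), Finite C → (∀ g ∈ C, g • v = v) →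
      ∃ γ : Γ, ∀ g ∈ C, a g (Ov E v) = γ * ψ0 g * γ⁻¹ := by
    intro C v hC hCv
    have hfin : Finite ↥(C.map (MulAut.conj (τ v)⁻¹).toMonoidHom) := by
      have : (((C.map (MulAut.conj (τ v)⁻¹).toMonoidHom : Subgroup G)) : Set G).Finite := by
        rw [Subgroup.coe_map]
        exact (Set.toFinite (C : Set G)).image _
      exact this
    obtain ⟨δ, hδ⟩ := hinv _ hfin (by
      rintro _ ⟨g, hg, rfl⟩
      have := hτM g v
      rw [hCv g hg] at this
      simpa using this)
    refine ⟨δ * (ψ0 (τ v))⁻¹, fun g hg => ?_⟩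
    rw [ha1, hCv g hg]
    have := hδ ((τ v)⁻¹ * g * τ v) ⟨g, hg, by simp⟩
    rw [this, _root_.map_mul, _root_.map_mul, _root_.map_inv]
    group
  obtain ⟨y, hy⟩ := equi_section (G := G) (Z := Set (G ⧸ M)) (X := Γ)
    (fun g c γ => ψ0 g * γ * (a g (hd E c))⁻¹) (by
      intro g k c γ
      rw [_root_.map_mul, ha, smul_hd hG]
      group) E hG (fun _ _ => True) (fun _ _ _ _ _ => trivial) (by
      intro c hc
      have hstabfin : Finite ↥(MulAction.stabilizer G c) := h.stab_finite hc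
      by_cases hs : ∃ v, hd E c = Ov E v
      · obtain ⟨v, hv⟩ := hs
        obtain ⟨γ, hγ⟩ := hfinsub (MulAction.stabilizer G c) v hstabfin (by
          intro g hg
          apply hOinj
          rw [← smul_Ov hG, ← hv, smul_hd hG]
          rw [MulAction.mem_stabilizer_iff.1 hg])
        refine ⟨γ⁻¹, trivial, fun g hg => ?_⟩
        rw [hv, hγ g hg]
        group
      · refine ⟨1, trivial, fun g hg => ?_⟩
        rw [ha2 _ _ hs]
        group)
  obtain ⟨ψ, f, hf1, hf2, hf3, hf4⟩ := cocycle_hom hE hG (QuotientGroup.mk 1) ψ0 a ha y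
    (fun c hc g => (hy c hc).2 g)
  refine ⟨ψ, ?_, ?_⟩
  · intro m hm
    have h1 : m • (QuotientGroup.mk 1 : G ⧸ M) = QuotientGroup.mk 1 := by
      show (QuotientGroup.mk (m * 1) : G ⧸ M) = _
      rw [mul_one, QuotientGroup.eq]
      simpa using hm
    have h2 := hf2 m _ (hE.ori_Ov (QuotientGroup.mk 1))
    rw [smul_Ov hG, h1, hf1, ha1, h1, hτ1, mul_one, inv_one, one_mul, mul_one] at h2
    rw [eq_comm, mul_inv_eq_one] at h2
    exact h2
  · intro C hC _
    rcases tree3 hE hG (QuotientGroup.mk 1) C hC with ⟨w, hw, hCw⟩ | ⟨c, hc, hCc⟩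
    · have hψ : ∀ g ∈ C, ψ g = f w * a g w * (f w)⁻¹ := by
        intro g hg
        have := hf2 g w hw
        rw [hCw g hg] at this
        rw [eq_mul_inv_iff_mul_eq] at this
        rw [this]
        group
      by_cases hs : ∃ v, w = Ov E v
      · obtain ⟨v, rfl⟩ := hs
        obtain ⟨γ, hγ⟩ := hfinsub C v hC (by
          intro g hg
          apply hOinj
          rw [← smul_Ov hG]
          exact hCw g hg)
        refine ⟨f (Ov E v) * γ, fun g hg => ?_⟩
        rw [hψ g hg, hγ g hg]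
        group
      · refine ⟨f w, fun g hg => ?_⟩
        rw [hψ g hg, ha2 _ _ hs]
    · refine ⟨f (hd E c) * (y c)⁻¹, fun g hg => ?_⟩
      have h1 := hf4 c hc g
      have h2 : f (hd E (g • c)) * (y (g • c))⁻¹ = f (hd E c) * (y c)⁻¹ := by
        rcases hCc g hg with h' | h'
        · rw [h']
        · rw [h', hf3 c hc]
      rw [h2, eq_mul_inv_iff_mul_eq] at h1
      rw [h1]
      group

end Pool.Agent.V8H66.LR
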