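import Pool.Agent.V8H66.LR.Ext

/-!
# Extension of homomorphisms to virtually free groups of any rank
-/

set_option autoImplicit false
set_option linter.unusedSectionVars false
set_option linter.unusedVariables false

namespace Pool.Agent.V8H66.LR

open Set

variable {G Γ : Type} [Group G] [Group Γ]

theorem invH_closure {H : Subgroup G} {T : Set G}
    (h : ∀ k ∈ H, ∀ t ∈ T, k * t * k⁻¹ ∈ Subgroup.closure T) : InvH H (Subgroup.closure T) := by
  intro k hk e he
  induction he using Subgroup.closure_induction with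
  | mem t ht => exact h k hk t ht
  | one => rw [mul_one, mul_inv_cancel]; exact one_mem _
  | mul x y _ _ hx hy =>
    have : k * (x * y) * k⁻¹ = (k * x * k⁻¹) * (k * y * k⁻¹) := by group
    rw [this]
    exact mul_mem hx hy
  | inv x _ hx =>
    have : k * x⁻¹ * k⁻¹ = (k * x * k⁻¹)⁻¹ := by group
    rw [this]
    exact inv_mem hx

/-- countable invariant enlargement -/
theorem countable_hull {S T : Set G} {F H A : Subgroup G} (hS : Subgroup.closure S = F)
    (hF : InvH H F) (hT : InvH H (Subgroup.closure T)) (hAT : A ≤ Subgroup.closure T)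
    {R : Set G} (hR : R.Finite) (hRH : ∀ ρ ∈ R, ρ ∈ H)
    (hRc : ∀ h ∈ H, ∃ a ∈ A, ∃ ρ ∈ R, h = a * ρ) {s : G} (hs : s ∈ S) :
    ∃ t : ℕ → G, (∀ n, t n ∈ S) ∧ s ∈ Set.range t ∧
      InvH H (Subgroup.closure (T ∪ Set.range t)) := by
  classical
  have hsupp : ∀ x : G, ∃ Z : Set G, Z.Finite ∧ Z ⊆ S ∧ (x ∈ F → x ∈ Subgroup.closure Z) := by
    intro x
    by_cases hx : x ∈ F
    · rw [← hS] at hx
      obtain ⟨Z, h1, h2, h3⟩ := mem_closure_finite hx
      exact ⟨Z, h2, h1, fun _ => h3⟩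
    · exact ⟨∅, Set.finite_empty, empty_subset _, fun h => absurd h hx⟩
  choose supp hsf hss hsc using hsupp
  let U : ℕ → Set G := fun n => Nat.rec {s} (fun _ U => ⋃ u ∈ U, ⋃ ρ ∈ R, supp (ρ * u * ρ⁻¹)) n
  have hU : ∀ n, U (n + 1) = ⋃ u ∈ U n, ⋃ ρ ∈ R, supp (ρ * u * ρ⁻¹) := fun n => rfl
  have hUfin : ∀ n, (U n).Finite := by
    intro n
    induction n with
    | zero => exact Set.finite_singleton s
    | succ n ih =>
      rw [hU]
      exact ih.biUnion fun u _ => hR.biUnion fun ρ _ => hsf _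
  have hUS : ∀ n, U n ⊆ S := by
    intro n
    cases n with
    | zero =>
      intro x hx
      have : x = s := hx
      rw [this]; exact hs
    | succ n =>
      rw [hU]
      exact iUnion₂_subset fun u _ => iUnion₂_subset fun ρ _ => hss _
  have hcount : (⋃ n, U n).Countable := Set.countable_iUnion fun n => (hUfin n).countable
  have hne : (⋃ n, U n).Nonempty := ⟨s, mem_iUnion.2 ⟨0, rfl⟩⟩
  obtain ⟨t, ht⟩ := hcount.exists_eq_range hne
  refine ⟨t, fun n => ?_, ?_, ?_⟩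
  · have : t n ∈ ⋃ n, U n := by rw [ht]; exact ⟨n, rfl⟩
    obtain ⟨m, hm⟩ := mem_iUnion.1 this
    exact hUS m hm
  · rw [← ht]; exact mem_iUnion.2 ⟨0, rfl⟩
  · rw [← ht]
    apply invH_closure
    rintro k hk x (hx | hx)
    · exact Subgroup.closure_mono subset_union_left (hT k hk x (Subgroup.subset_closure hx))
    · obtain ⟨n, hn⟩ := mem_iUnion.1 hx
      obtain ⟨a, ha, ρ, hρ, rfl⟩ := hRc k hk
      have e : a * ρ * x * (a * ρ)⁻¹ = a * (ρ * x * ρ⁻¹) * a⁻¹ := by group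
      rw [e]
      have ha' : a ∈ Subgroup.closure (T ∪ ⋃ n, U n) :=
        Subgroup.closure_mono subset_union_left (hAT ha)
      have hxF : x ∈ F := by rw [← hS]; exact Subgroup.subset_closure (hUS n hn)
      have h1 : ρ * x * ρ⁻¹ ∈ Subgroup.closure (supp (ρ * x * ρ⁻¹)) :=
        hsc _ (hF ρ (hRH ρ hρ) x hxF)
      have h2 : supp (ρ * x * ρ⁻¹) ⊆ T ∪ ⋃ n, U n := by
        intro z hz
        right
        rw [mem_iUnion]
        refine ⟨n + 1, ?_⟩
        rw [hU, mem_iUnion₂]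
        refine ⟨x, hn, ?_⟩
        rw [mem_iUnion₂]
        exact ⟨ρ, hρ, hz⟩
      exact mul_mem (mul_mem ha' (Subgroup.closure_mono h2 h1)) (inv_mem ha')

/-- the extension theorem -/
theorem ext {S SA : Set G} {F H A : Subgroup G} (hS : Bas S F) (hSA : SA ⊆ S) (hA : Bas SA A)
    (hAH : A ≤ H) (hHF : H ⊓ F ≤ A) (hF : InvH H F)
    {R : Set G} (hR : R.Finite) (hRH : ∀ ρ ∈ R, ρ ∈ H)
    (hRc : ∀ h ∈ H, ∃ a ∈ A, ∃ ρ ∈ R, h = a * ρ)
    (ψ0 : G →* Γ) (ψ : G → Γ) (hhom : HomOn H ψ) (hinv : Inv ψ0 H ψ) :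
    ∃ ψ' : G → Γ, HomOn (F ⊔ H) ψ' ∧ ∀ g ∈ H, ψ' g = ψ g := by
  classical
  have hAF : A ≤ F := by rw [← hA.1, ← hS.1]; exact Subgroup.closure_mono hSA
  let Good : Set G × (G → Γ) → Prop := fun p => SA ⊆ p.1 ∧ p.1 ⊆ S ∧
    InvH H (Subgroup.closure p.1) ∧ HomOn (Subgroup.closure p.1 ⊔ H) p.2 ∧
    Inv ψ0 (Subgroup.closure p.1 ⊔ H) p.2 ∧ ∀ g ∈ H, p.2 g = ψ g
  let r : {p // Good p} → {p // Good p} → Prop := fun p q => p.1.1 ⊆ q.1.1 ∧
    ∀ g ∈ Subgroup.closure p.1.1 ⊔ H, q.1.2 g = p.1.2 g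
  have hAinv : InvH H A := by
    intro h hh a ha
    exact hHF ⟨H.mul_mem (H.mul_mem hh (hAH ha)) (H.inv_mem hh), hF h hh a (hAF ha)⟩
  have hAsup : Subgroup.closure SA ⊔ H = H := by rw [hA.1]; exact sup_eq_right.2 hAH
  let p0 : {p // Good p} := ⟨(SA, ψ), subset_rfl, hSA, by rw [hA.1]; exact hAinv,
    by rw [hAsup]; exact hhom, by rw [hAsup]; exact hinv, fun _ _ => rfl⟩
  have hrefl : ∀ p, r p p := fun p => ⟨subset_rfl, fun _ _ => rfl⟩
  have htrans : ∀ {a b c : {p // Good p}}, r a b → r b c → r a c := by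
    rintro a b c ⟨h1, h2⟩ ⟨h3, h4⟩
    refine ⟨h1.trans h3, fun g hg => ?_⟩
    rw [h4 g ((sup_le_sup_right (Subgroup.closure_mono h1) H) hg), h2 g hg]
  obtain ⟨m, hm⟩ := exists_maximal_of_chains_bounded (r := r) (by
    intro c hc
    by_cases hne : c.Nonempty
    · have hneJ : Nonempty ↥c := hne.to_subtype
      have hdir0 : ∀ i j : ↥c, ∃ k : ↥c, r i.1 k.1 ∧ r j.1 k.1 := by
        intro i j
        by_cases hij : i = j
        · exact ⟨i, hrefl _, by rw [hij]; exact hrefl _⟩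
        · rcases hc i.2 j.2 (fun h => hij (Subtype.ext h)) with h | h
          · exact ⟨j, h, hrefl _⟩
          · exact ⟨i, hrefl _, h⟩
      let M : ↥c → Subgroup G := fun i => Subgroup.closure i.1.1.1 ⊔ H
      let χ : ↥c → G → Γ := fun i => i.1.1.2
      have hdir : ∀ i j, ∃ k, M i ≤ M k ∧ (∀ g ∈ M i, χ k g = χ i g) ∧ M j ≤ M k ∧
          (∀ g ∈ M j, χ k g = χ j g) := by
        intro i j
        obtain ⟨k, h1, h2⟩ := hdir0 i j
        exact ⟨k, sup_le_sup_right (Subgroup.closure_mono h1.1) H, h1.2,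
          sup_le_sup_right (Subgroup.closure_mono h2.1) H, h2.2⟩
      obtain ⟨Ψ, hΨ⟩ := glue M χ hdir
      let T : Set G := ⋃ i : ↥c, i.1.1.1
      have hTi : ∀ i : ↥c, i.1.1.1 ⊆ T := fun i => subset_iUnion (fun i : ↥c => i.1.1.1) i
      have hcov : ∀ e ∈ Subgroup.closure T, ∃ i : ↥c, e ∈ Subgroup.closure i.1.1.1 := by
        intro e he
        induction he using Subgroup.closure_induction with
        | mem x hx =>
          obtain ⟨i, hi⟩ := mem_iUnion.1 hx
          exact ⟨i, Subgroup.subset_closure hi⟩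
        | one => exact ⟨hneJ.some, one_mem _⟩
        | mul x y _ _ hx hy =>
          obtain ⟨i, hi⟩ := hx
          obtain ⟨j, hj⟩ := hy
          obtain ⟨k, h1, h2⟩ := hdir0 i j
          exact ⟨k, mul_mem (Subgroup.closure_mono h1.1 hi) (Subgroup.closure_mono h2.1 hj)⟩
        | inv x _ hx =>
          obtain ⟨i, hi⟩ := hx
          exact ⟨i, inv_mem hi⟩
      have hTinv : InvH H (Subgroup.closure T) := by
        intro h hh e he
        obtain ⟨i, hi⟩ := hcov e he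
        exact Subgroup.closure_mono (hTi i) (i.1.2.2.2.1 h hh e hi)
      obtain ⟨k1, k2⟩ := glue_hom M χ hdir hneJ (Subgroup.closure T ⊔ H) (by
        intro g hg
        obtain ⟨e, he, k, hk, rfl⟩ := (mem_sup_inv hTinv g).1 hg
        obtain ⟨i, hi⟩ := hcov e he
        exact ⟨i, mul_mem (Subgroup.mem_sup_left hi) (Subgroup.mem_sup_right hk)⟩) ψ0
        (fun i => i.1.2.2.2.2.1) (fun i => i.1.2.2.2.2.2.1) Ψ hΨ
      have hub : Good (T, Ψ) := by
        refine ⟨hneJ.some.1.2.1.trans (hTi _), iUnion_subset fun i => i.1.2.2.1, hTinv, k1, k2, ?_⟩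
        intro g hg
        show Ψ g = ψ g
        rw [hΨ hneJ.some g (Subgroup.mem_sup_right hg)]
        exact hneJ.some.1.2.2.2.2.2.2 g hg
      exact ⟨⟨(T, Ψ), hub⟩, fun a ha => ⟨hTi ⟨a, ha⟩, fun g hg => hΨ ⟨a, ha⟩ g hg⟩⟩
    · exact ⟨p0, fun a ha => absurd ⟨a, ha⟩ hne⟩) htrans
  obtain ⟨⟨T, χ⟩, hT1, hT2, hT3, hT4, hT5, hT6⟩ := m
  have hTS : T = S := by
    apply Set.Subset.antisymm hT2
    intro s hs
    by_contra hsT
    have hAT : A ≤ Subgroup.closure T := by rw [← hA.1]; exact Subgroup.closure_mono hT1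
    obtain ⟨t, ht1, ht2, ht3⟩ := countable_hull hS.1 hF hT3 hAT hR hRH hRc hs
    have hTt : T ∪ Set.range t ⊆ S := union_subset hT2 (by rintro _ ⟨n, rfl⟩; exact ht1 n)
    have hle : Subgroup.closure (T ∪ Set.range t) ≤ F := by
      rw [← hS.1]; exact Subgroup.closure_mono hTt
    obtain ⟨χ', c1, c2, c3⟩ := chain (E0 := Subgroup.closure T)
      (F' := Subgroup.closure (T ∪ Set.range t)) hT3 ht3
      ⟨T, T ∪ Set.range t, subset_union_left, hS.mono hT2, hS.mono hTt⟩ hAT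
      ((inf_le_inf_left H hle).trans hHF) hR hRH hRc t
      (fun n => Subgroup.subset_closure (Or.inr ⟨n, rfl⟩)) (by rw [Subgroup.closure_union])
      ψ0 χ hT4 hT5
    have hgood : Good (T ∪ Set.range t, χ') := by
      refine ⟨hT1.trans subset_union_left, hTt, ht3, c1, c2, fun g hg => ?_⟩
      show χ' g = ψ g
      rw [← hT6 g hg]
      exact c3 g (Subgroup.mem_sup_right hg)
    have := hm ⟨_, hgood⟩ ⟨subset_union_left, c3⟩
    exact hsT (this.1 (Or.inr ht2))
  subst hTS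
  refine ⟨χ, ?_, hT6⟩
  rw [← hS.1]
  exact hT4

end Pool.Agent.V8H66.LR
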